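import Pool.Agent.Lib.MP_deef39_co_PW.Lst

/-! # PW module GrphL: a tree with all degrees at most two is a path

`tree_list`. `V = Fin n`, `A` a tree with `(A.neighborSet v).ncard ≤ 2` for all `v`. Choose a list
`l` of maximal length with `l ≠ []`, `l.Nodup`, and `Ed l x y → A.Adj x y` (lengths are bounded by
`n`; `[v]` is such a list, `n > 0` as a tree is nonempty).
(1) `l` contains every vertex: otherwise, by connectedness, there is `v ∉ l` adjacent to some
`w ∈ l` (`A.Connected`: a walk from a vertex of `l` to a vertex outside leaves `l`, or
`SimpleGraph.Preconnected`/`Reachable` induction). If `w` is the first or the last entry of `l`,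
extend the list by `v`: contradiction to maximality. Otherwise `l = L₁ ++ a :: w :: b :: L₂`,
`a ≠ b`, and `a, b, v` are three different neighbours of `w`: contradiction.
(2) If `A.Adj x y` then `Ed l x y`: otherwise `x, y` are entries of `l` at distance at least two;
the segment of `l` from `x` to `y` together with the edge `x y` is a cycle: in a tree (`IsAcyclic`)
impossible (e.g. `IsAcyclic` gives uniqueness of paths: `SimpleGraph.IsAcyclic.path_unique`, the
path along the list has length at least `2` and the edge is a path of length `1`; or: count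
edges: a tree on `n` vertices has `n - 1` edges (`SimpleGraph.IsTree.card_edgeFinset`), the
list `l` with `n` entries already gives `n - 1` different edges).
-/

set_option autoImplicit false

namespace FPW

/-- the good lists: nonempty, without repetition, consecutive entries adjacent -/
private def GLP {n : ℕ} (A : SimpleGraph (Fin n)) (l : List (Fin n)) : Prop :=
  l ≠ [] ∧ l.Nodup ∧ ∀ x y, Ed l x y → A.Adj x y

/-- the edges of a list as a finite set -/
private def grphlE {n : ℕ} : List (Fin n) → Finset (Sym2 (Fin n))
  | a :: b :: l => insert s(a, b) (grphlE (b :: l))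
  | [_] => ∅
  | [] => ∅

private theorem mem_grphlE {n : ℕ} (l : List (Fin n)) (x y : Fin n) :
    s(x, y) ∈ grphlE l ↔ Ed l x y := by
  induction l with
  | nil => simp [grphlE, ed_nil]
  | cons a l ih =>
    cases l with
    | nil => simp [grphlE, ed_single]
    | cons b l =>
      rw [grphlE, Finset.mem_insert, ih, ed_cons2, Sym2.eq_iff]
      tauto

private theorem card_grphlE {n : ℕ} (l : List (Fin n)) (hl : l.Nodup) :
    (grphlE l).card = l.length - 1 := by
  induction l with
  | nil => simp [grphlE]
  | cons a l ih =>
    cases l with
    | nil => simp [grphlE]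
    | cons b l =>
      have h1 : s(a, b) ∉ grphlE (b :: l) := by
        rw [mem_grphlE]
        intro h
        exact (List.nodup_cons.1 hl).1 (ed_mem h)
      rw [grphlE, Finset.card_insert_of_notMem h1, ih (List.nodup_cons.1 hl).2]
      simp

theorem tree_list {n : ℕ} (A : SimpleGraph (Fin n)) (hA : A.IsTree)
    (hd : ∀ v : Fin n, (A.neighborSet v).ncard ≤ 2) :
    ∃ l : List (Fin n), l.Nodup ∧ (∀ v, v ∈ l) ∧ ∀ x y, A.Adj x y ↔ Ed l x y := by
  classical
  obtain ⟨l, hl, hmax⟩ : ∃ l, GLP A l ∧ ∀ l', GLP A l' → l'.length ≤ l.length := by
    by_contra! hcon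
    have key : ∀ k : ℕ, ∃ l, GLP A l ∧ k ≤ l.length := by
      intro k
      induction k with
      | zero =>
        obtain ⟨v⟩ := hA.connected.nonempty
        exact ⟨[v], ⟨by simp, by simp, fun x y h => h.elim⟩, Nat.zero_le _⟩
      | succ k ih =>
        obtain ⟨l, h1, h2⟩ := ih
        obtain ⟨l', h3, h4⟩ := hcon l h1
        exact ⟨l', h3, by omega⟩
    obtain ⟨l, h1, h2⟩ := key (n + 1)
    have h3 := List.Nodup.length_le_card h1.2.1
    rw [Fintype.card_fin] at h3
    omega
  obtain ⟨hne, hnd, hadj⟩ := hl
  have hall : ∀ v, v ∈ l := by
    by_contra! hcon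
    obtain ⟨v₀, hv₀⟩ := hcon
    obtain ⟨u₀, hu₀⟩ := List.exists_mem_of_ne_nil l hne
    obtain ⟨W⟩ := hA.connected.preconnected u₀ v₀
    obtain ⟨d, -, hd1, hd2⟩ := W.exists_boundary_dart {x | x ∈ l} hu₀ hv₀
    have hwv : A.Adj d.fst d.snd := d.adj
    generalize d.fst = w at hd1 hwv
    generalize d.snd = v at hd2 hwv
    simp only [Set.mem_ofPred_eq] at hd1 hd2
    obtain ⟨L₁, L₂, rfl⟩ := List.append_of_mem hd1
    rcases List.eq_nil_or_concat L₁ with rfl | ⟨L₁', a, rfl⟩
    · have h1 : GLP A (v :: w :: L₂) := by
        refine ⟨by simp, List.nodup_cons.2 ⟨by simpa using hd2, by simpa using hnd⟩, ?_⟩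
        intro x y hxy
        rcases ed_cons2.1 hxy with ⟨rfl, rfl⟩ | ⟨rfl, rfl⟩ | h
        · exact hwv.symm
        · exact hwv
        · exact hadj x y h
      have h2 := hmax _ h1
      simp at h2
    · cases L₂ with
      | nil =>
        have h1 : GLP A ((L₁'.concat a) ++ [w, v]) := by
          refine ⟨by simp, ?_, ?_⟩
          · have e1 : (L₁'.concat a) ++ [w, v] = ((L₁'.concat a) ++ [w]) ++ [v] := by simp
            rw [e1, List.nodup_append]
            refine ⟨hnd, by simp, ?_⟩
            intro x hx y hy hxy
            rw [List.mem_singleton] at hy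
            rw [hxy, hy] at hx
            exact hd2 hx
          · intro x y hxy
            rcases ed_snoc2.1 hxy with h | ⟨rfl, rfl⟩ | ⟨rfl, rfl⟩
            · exact hadj x y h
            · exact hwv
            · exact hwv.symm
        have h2 := hmax _ h1
        simp at h2
      | cons b L₂ =>
        have e1 : L₁'.concat a ++ w :: b :: L₂ = L₁' ++ a :: w :: (b :: L₂) := by simp
        have ha : A.Adj w a := by
          apply hadj
          rw [e1]
          exact ed_of_split'
        have hb : A.Adj w b := by
          apply hadj
          exact ed_of_split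
        have hab : a ≠ b := by
          rintro rfl
          rw [e1, List.nodup_append] at hnd
          have h3 := hnd.2.1
          simp at h3
        have hav : a ≠ v := by
          rintro rfl
          apply hd2
          simp
        have hbv : b ≠ v := by
          rintro rfl
          apply hd2
          simp
        have h4 : ({a, b, v} : Set (Fin n)) ⊆ A.neighborSet w := by
          intro x hx
          simp only [Set.mem_insert_iff, Set.mem_singleton_iff] at hx
          rcases hx with rfl | rfl | rfl
          · exact ha
          · exact hb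
          · exact hwv
        have h5 := Set.ncard_le_ncard h4 (Set.toFinite _)
        have h6 : ({a, b, v} : Set (Fin n)).ncard = 3 := by
          rw [Set.ncard_eq_three]
          exact ⟨a, b, v, hab, hav, hbv, rfl⟩
        have h7 := hd w
        omega
  refine ⟨l, hnd, hall, ?_⟩
  have hlen : l.length = n := by
    have h1 : l.toFinset = Finset.univ := by
      ext x
      simp [hall x]
    have h2 : l.toFinset.card = l.length := List.toFinset_card_of_nodup hnd
    rw [h1, Finset.card_univ, Fintype.card_fin] at h2
    exact h2.symm
  have hsub : grphlE l ⊆ A.edgeFinset := by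
    intro e he
    induction e using Sym2.ind with
    | _ x y =>
      rw [SimpleGraph.mem_edgeFinset, SimpleGraph.mem_edgeSet]
      exact hadj x y ((mem_grphlE l x y).1 he)
  have hcard : A.edgeFinset.card ≤ (grphlE l).card := by
    have h1 := hA.card_edgeFinset
    rw [Fintype.card_fin] at h1
    rw [card_grphlE l hnd, hlen]
    omega
  have heq := Finset.eq_of_subset_of_card_le hsub hcard
  intro x y
  constructor
  · intro h
    rw [← mem_grphlE, heq, SimpleGraph.mem_edgeFinset, SimpleGraph.mem_edgeSet]
    exact h
  · exact hadj x y

end FPW
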