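import Pool.Agent.Lib.MP_deef39_co_PW.Lst

/-! # PW module RotB: basic properties of rotations

All lemmas are elementary (split the lists, `ed_mid`, `ed_cons2`, `ed_reverse`).

* `rotL_ed`: for `l = A ++ v :: (B ++ [z])`, `l' = A ++ v :: z :: B.reverse`: by `ed_mid` twice the
  edges of `l'` are those of `A ++ [v]`, the edge `v z` and those of `z :: B.reverse =
  (B ++ [z]).reverse`; use `ed_reverse`; edges of `B ++ [z]` are edges of `l` (`ed_mid` for
  `A ++ [v]` and `v :: (B ++ [z])`, then `ed_cons2` if `B ++ [z] = b :: _`).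
* `rotL_symm`: if `B = []` then `l = l'` and `b = z`. If `B = b :: B'` then
  `l' = A ++ v :: ((z :: B'.reverse) ++ [b])` and `l = A ++ v :: b :: (z :: B'.reverse).reverse`.
* `rot_plane`: every edge of `EO l' O` is an edge of `EO l O` or the pair `v, z` (in some order);
  use `X_sw1`, `X_sw2`, `X_comm`, `not_X_of_eq..`.
* `rot_symm`: `b` from `rotL_symm`; `Ed l v b`, so `b v` is an edge of the plane set `EO l O`, and
  the only edge of `EO l' O` not in `EO l O` is `v z`, which shares the vertex `v`.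
* `fc_reach`: the multiset of vertices and the head do not change, so the tails are permutations
  of each other (`List.Perm`), hence the filtered lengths agree.
-/

set_option autoImplicit false

namespace FPW

variable {α : Type*} {p : α → ℝ × ℝ}

theorem rotL_perm {v z : α} {l l' : List α} (h : RotL v z l l') : l'.Perm l := by
  obtain ⟨A, B, rfl, rfl⟩ := h
  refine List.Perm.append_left A (List.Perm.cons v ?_)
  exact (List.Perm.cons z (List.reverse_perm B)).trans (List.perm_append_singleton z B).symm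

theorem rotL_head {v z : α} {l l' : List α} (h : RotL v z l l') : l'.head? = l.head? := by
  obtain ⟨A, B, rfl, rfl⟩ := h
  cases A <;> rfl

theorem rotL_last {v z : α} {l l' : List α} (h : RotL v z l l') : ∃ A, l = A ++ [z] := by
  obtain ⟨A, B, rfl, -⟩ := h
  exact ⟨A ++ v :: B, by simp⟩

theorem rotL_ed {v z : α} {l l' : List α} (h : RotL v z l l') {x y : α} (hxy : Ed l' x y) :
    Ed l x y ∨ (x = v ∧ y = z) ∨ (x = z ∧ y = v) := by
  obtain ⟨A, B, rfl, rfl⟩ := h
  rw [ed_mid, ed_cons2] at hxy
  rcases hxy with hxy | hxy | hxy | hxy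
  · exact Or.inl (ed_mid.2 (Or.inl hxy))
  · exact Or.inr (Or.inl hxy)
  · exact Or.inr (Or.inr hxy)
  · left
    have h1 : z :: B.reverse = (B ++ [z]).reverse := by simp
    rw [h1, ed_reverse] at hxy
    refine ed_mid.2 (Or.inr ?_)
    cases B with
    | nil => exact hxy.elim
    | cons b B => exact ed_cons2.2 (Or.inr (Or.inr hxy))

theorem rotL_symm {v z : α} {l l' : List α} (h : RotL v z l l') :
    ∃ b, RotL v b l' l ∧ Ed l v b := by
  obtain ⟨A, B, rfl, rfl⟩ := h
  cases B with
  | nil => exact ⟨z, ⟨A, [], rfl, rfl⟩, ed_of_split⟩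
  | cons b B => exact ⟨b, ⟨A, z :: B.reverse, by simp, by simp⟩, ed_of_split⟩

theorem rot_plane {O : α → α → Prop} {l l' : List α} (hp : Plane p (EO l O))
    (h : Rot p O l l') : Plane p (EO l' O) := by
  obtain ⟨v, z, hr, hv⟩ := h
  have key : ∀ a b, EO l' O a b → EO l O a b ∨ (a = v ∧ b = z) ∨ (a = z ∧ b = v) := by
    rintro a b (h1 | h1)
    · rcases rotL_ed hr h1 with h2 | h2
      · exact Or.inl (Or.inl h2)
      · exact Or.inr h2
    · exact Or.inl (Or.inr h1)
  intro a b c d hab hcd hX
  rcases key a b hab with h1 | ⟨rfl, rfl⟩ | ⟨rfl, rfl⟩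
  · rcases key c d hcd with h2 | ⟨rfl, rfl⟩ | ⟨rfl, rfl⟩
    · exact hp a b c d h1 h2 hX
    · exact hv a b h1 (X_sw1.1 (X_comm.1 hX))
    · exact hv a b h1 (X_comm.1 hX)
  · rcases key c d hcd with h2 | ⟨rfl, rfl⟩ | ⟨rfl, rfl⟩
    · exact hv c d h2 (X_sw1.1 hX)
    · exact not_X_of_eq1 hX
    · exact not_X_of_eq2 hX
  · rcases key c d hcd with h2 | ⟨rfl, rfl⟩ | ⟨rfl, rfl⟩
    · exact hv c d h2 hX
    · exact not_X_of_eq2 hX
    · exact not_X_of_eq1 hX

theorem rot_symm {O : α → α → Prop} {l l' : List α} (hp : Plane p (EO l O))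
    (h : Rot p O l l') : Rot p O l' l := by
  obtain ⟨v, z, hr, hv⟩ := h
  obtain ⟨b, hb, he⟩ := rotL_symm hr
  refine ⟨v, b, hb, ?_⟩
  rintro c d (h1 | h1) hX
  · rcases rotL_ed hr h1 with h2 | ⟨rfl, rfl⟩ | ⟨rfl, rfl⟩
    · exact hp b v c d (Or.inl (ed_symm he)) (Or.inl h2) hX
    · exact not_X_of_eq3 hX
    · exact not_X_of_eq4 hX
  · exact hp b v c d (Or.inl (ed_symm he)) (Or.inr h1) hX

theorem wd_rot {G : Set α} {O : α → α → Prop} {l l' : List α} (hw : Wd p l G O)
    (h : Rot p O l l') : Wd p l' G O := by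
  obtain ⟨v, z, hr, hv⟩ := id h
  have hperm := rotL_perm hr
  refine ⟨hperm.nodup_iff.2 hw.nodup, ?_, fun x hx => hw.disj x (hperm.mem_iff.1 hx), hw.symm,
    hw.gh, fun a b hab => (hw.mem a b hab).imp (fun h1 => hperm.mem_iff.2 h1) id, hw.irr,
    rot_plane hw.plane h⟩
  intro h1
  rw [h1] at hperm
  exact hw.ne hperm.symm.eq_nil

theorem wd_reach {G : Set α} {O : α → α → Prop} {l l' : List α} (hw : Wd p l G O)
    (h : Reach p O l l') : Wd p l' G O := by
  induction h with
  | refl => exact hw
  | tail _ h2 ih => exact wd_rot ih h2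

theorem plane_reach {O : α → α → Prop} {l l' : List α} (hp : Plane p (EO l O))
    (h : Reach p O l l') : Plane p (EO l' O) := by
  induction h with
  | refl => exact hp
  | tail _ h2 ih => exact rot_plane ih h2

theorem reach_symm {O : α → α → Prop} {l l' : List α} (hp : Plane p (EO l O))
    (h : Reach p O l l') : Reach p O l' l := by
  induction h with
  | refl => exact Relation.ReflTransGen.refl
  | tail h1 h2 ih =>
    exact (Relation.ReflTransGen.single (rot_symm (plane_reach hp h1) h2)).trans ih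

theorem reach_perm {O : α → α → Prop} {l l' : List α} (h : Reach p O l l') : l'.Perm l := by
  induction h with
  | refl => exact List.Perm.refl _
  | tail _ h2 ih =>
    obtain ⟨v, z, hr, -⟩ := h2
    exact (rotL_perm hr).trans ih

theorem reach_head {O : α → α → Prop} {l l' : List α} (h : Reach p O l l') :
    l'.head? = l.head? := by
  induction h with
  | refl => rfl
  | tail _ h2 ih =>
    obtain ⟨v, z, hr, -⟩ := h2
    exact (rotL_head hr).trans ih

theorem rot_mono {O O' : α → α → Prop} (hO : ∀ a b, O a b → O' a b) {l l' : List α}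
    (h : Rot p O' l l') : Rot p O l l' := by
  obtain ⟨v, z, hr, hv⟩ := h
  exact ⟨v, z, hr, Vis_mono (fun a b h1 => h1.imp id (hO a b)) hv⟩

theorem reach_mono {O O' : α → α → Prop} (hO : ∀ a b, O a b → O' a b) {l l' : List α}
    (h : Reach p O' l l') : Reach p O l l' := by
  exact Relation.ReflTransGen.mono (fun a b h1 => rot_mono hO h1) _ _ h

theorem goal_reach {G : Set α} {O : α → α → Prop} {l l' : List α} (h : Reach p O l l')
    (hg : Goal p l' G O) : Goal p l G O := by
  obtain ⟨A, z, g, h1, h2, h3⟩ := hg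
  exact ⟨A, z, g, h.trans h1, h2, h3⟩

theorem fc_reach {O : α → α → Prop} {l l' : List α} (h : Reach p O l l') :
    Fc l' O = Fc l O := by
  have h1 := reach_perm h
  have h2 := reach_head h
  unfold Fc
  cases l with
  | nil =>
    rw [h1.eq_nil]
  | cons a l =>
    cases l' with
    | nil => simp at h2
    | cons a' l' =>
      simp only [List.head?_cons, Option.some.injEq] at h2
      subst h2
      rw [List.perm_cons] at h1
      exact (h1.filter _).length_eq

/-- adding the obstacle `g y` decreases `Fc` -/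
theorem fc_lt {O : α → α → Prop} {l : List α} {y g : α} (hy : y ∈ l.tail)
    (hno : ∀ b, ¬ O y b) :
    Fc l (fun a b => O a b ∨ (a = g ∧ b = y) ∨ (a = y ∧ b = g)) < Fc l O := by
  classical
  unfold Fc
  set P : α → Bool := fun y => decide (∀ b, ¬ O y b) with hP
  have h1 : (l.tail.filter fun y' => decide (∀ b, ¬ (O y' b ∨ (y' = g ∧ b = y) ∨
      (y' = y ∧ b = g)))) = (l.tail.filter P).filter fun y' => decide (∀ b, ¬ (O y' b ∨
      (y' = g ∧ b = y) ∨ (y' = y ∧ b = g))) := by
    rw [List.filter_filter]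
    refine List.filter_congr fun x _ => ?_
    simp only [hP]
    by_cases h2 : ∀ b, ¬ (O x b ∨ (x = g ∧ b = y) ∨ (x = y ∧ b = g))
    · have h3 : ∀ b, ¬ O x b := fun b hb => h2 b (Or.inl hb)
      rw [decide_eq_true h2, decide_eq_true h3]
      rfl
    · rw [decide_eq_false h2]
      rfl
  have h4 : ((l.tail.filter P).filter fun y' => decide (∀ b, ¬ (O y' b ∨
      (y' = g ∧ b = y) ∨ (y' = y ∧ b = g)))).length < (l.tail.filter P).length := by
    rw [List.length_filter_lt_length_iff_exists]
    refine ⟨y, List.mem_filter.2 ⟨hy, by simp only [hP]; exact decide_eq_true hno⟩, ?_⟩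
    intro h5
    exact of_decide_eq_true h5 g (Or.inr (Or.inr ⟨rfl, rfl⟩))
  convert h4 using 2

end FPW
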