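import Pool.Agent.Lib.MP_deef39_co_PW.GrphR
import Pool.Agent.Lib.MP_deef39_co_PW.RotB

/-! # PW module GrphS: a rotation is a flip

`gr_reverse`: `ed_reverse`.
`gr_rot`: `l = A ++ v :: (B ++ [z])`, `l' = A ++ v :: z :: B.reverse`. If `B = []` the lists are
equal. If `B = b :: B'`: by `ed_mid`, `ed_cons2`, `ed_reverse` the edges of `l` are
`Ed (A ++ [v])`, `v b`, `Ed (B ++ [z])`, those of `l'` are `Ed (A ++ [v])`, `v z`,
`Ed (z :: B.reverse) = Ed (B ++ [z])`. As `l` has no duplicates, `v b` is not in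
`Ed (A ++ [v])` or `Ed (B ++ [z])` (`b ∉ A ++ [v]`, `v ∉ B ++ [z]`), nor equal to `v z`
(`b ≠ z`); similarly for `v z`. So the edge sets differ exactly by `s(v, b)` and `s(v, z)`:
`(gr l).edgeSet \ (gr l').edgeSet = {s(v, b)}`, `(gr l').edgeSet \ (gr l).edgeSet = {s(v, z)}`.
-/

set_option autoImplicit false

namespace FPW

theorem gr_reverse {n : ℕ} (l : List (Fin n)) : gr l.reverse = gr l := by
  ext x y
  show (x ≠ y ∧ Ed l.reverse x y) ↔ (x ≠ y ∧ Ed l x y)
  rw [ed_reverse]

theorem gr_rot {n : ℕ} {l l' : List (Fin n)} (hn : l.Nodup) {v z : Fin n}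
    (h : RotL v z l l') :
    gr l' = gr l ∨ (((gr l).edgeSet \ (gr l').edgeSet).ncard = 1 ∧
      ((gr l').edgeSet \ (gr l).edgeSet).ncard = 1) := by
  obtain ⟨A, B, rfl, rfl⟩ := h
  cases B with
  | nil => exact Or.inl rfl
  | cons b B =>
    right
    have hr : ∀ x y : Fin n, Ed (z :: (b :: B).reverse) x y ↔ Ed ((b :: B) ++ [z]) x y := by
      intro x y
      have h1 : z :: (b :: B).reverse = ((b :: B) ++ [z]).reverse := by simp
      rw [h1, ed_reverse]
    have hl : ∀ x y : Fin n, Ed (A ++ v :: ((b :: B) ++ [z])) x y ↔ Ed (A ++ [v]) x y ∨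
        (x = v ∧ y = b) ∨ (x = b ∧ y = v) ∨ Ed ((b :: B) ++ [z]) x y := by
      intro x y
      rw [ed_mid, List.cons_append, ed_cons2]
    have hl' : ∀ x y : Fin n, Ed (A ++ v :: z :: (b :: B).reverse) x y ↔ Ed (A ++ [v]) x y ∨
        (x = v ∧ y = z) ∨ (x = z ∧ y = v) ∨ Ed ((b :: B) ++ [z]) x y := by
      intro x y
      rw [ed_mid, ed_cons2, hr]
    have hvB : v ∉ (b :: B) ++ [z] := by
      have h1 := (List.nodup_append.1 hn).2.1
      exact (List.nodup_cons.1 h1).1
    have hbA : b ∉ A ++ [v] := by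
      intro h1
      rcases List.mem_append.1 h1 with h2 | h2
      · exact (List.nodup_append.1 hn).2.2 b h2 b (by simp) rfl
      · have h3 : b = v := by simpa using h2
        exact hvB (by simp [h3])
    have hzA : z ∉ A ++ [v] := by
      intro h1
      rcases List.mem_append.1 h1 with h2 | h2
      · exact (List.nodup_append.1 hn).2.2 z h2 z (by simp) rfl
      · have h3 : z = v := by simpa using h2
        exact hvB (by simp [h3])
    have hbz : b ≠ z := by
      intro h1
      have h2 := (List.nodup_cons.1 (List.nodup_append.1 hn).2.1).2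
      rw [h1] at h2
      simp at h2
    have hvb : v ≠ b := fun h1 => hvB (by simp [h1])
    have hvz : v ≠ z := fun h1 => hvB (by simp [h1])
    have e1 : (gr (A ++ v :: ((b :: B) ++ [z]))).edgeSet \
        (gr (A ++ v :: z :: (b :: B).reverse)).edgeSet = {s(v, b)} := by
      ext e
      induction e using Sym2.ind with
      | _ x y =>
        rw [Set.mem_sdiff, SimpleGraph.mem_edgeSet, SimpleGraph.mem_edgeSet,
          Set.mem_singleton_iff]
        show ((x ≠ y ∧ Ed (A ++ v :: ((b :: B) ++ [z])) x y) ∧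
          ¬ (x ≠ y ∧ Ed (A ++ v :: z :: (b :: B).reverse) x y)) ↔ s(x, y) = s(v, b)
        rw [hl, hl', Sym2.eq_iff]
        constructor
        · rintro ⟨⟨h1, h2⟩, h3⟩
          rcases h2 with h2 | h2 | h2 | h2
          · exact (h3 ⟨h1, Or.inl h2⟩).elim
          · exact Or.inl h2
          · exact Or.inr h2
          · exact (h3 ⟨h1, Or.inr (Or.inr (Or.inr h2))⟩).elim
        · rintro (⟨h1, h2⟩ | ⟨h1, h2⟩)
          · subst h1 h2
            refine ⟨⟨hvb, Or.inr (Or.inl ⟨rfl, rfl⟩)⟩, ?_⟩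
            rintro ⟨-, h3 | h3 | h3 | h3⟩
            · exact hbA (ed_mem' h3)
            · exact hbz h3.2
            · exact hvz h3.1
            · exact hvB (ed_mem h3)
          · subst h1 h2
            refine ⟨⟨hvb.symm, Or.inr (Or.inr (Or.inl ⟨rfl, rfl⟩))⟩, ?_⟩
            rintro ⟨-, h3 | h3 | h3 | h3⟩
            · exact hbA (ed_mem h3)
            · exact hvb h3.1.symm
            · exact hbz h3.1
            · exact hvB (ed_mem' h3)
    have e2 : (gr (A ++ v :: z :: (b :: B).reverse)).edgeSet \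
        (gr (A ++ v :: ((b :: B) ++ [z]))).edgeSet = {s(v, z)} := by
      ext e
      induction e using Sym2.ind with
      | _ x y =>
        rw [Set.mem_sdiff, SimpleGraph.mem_edgeSet, SimpleGraph.mem_edgeSet,
          Set.mem_singleton_iff]
        show ((x ≠ y ∧ Ed (A ++ v :: z :: (b :: B).reverse) x y) ∧
          ¬ (x ≠ y ∧ Ed (A ++ v :: ((b :: B) ++ [z])) x y)) ↔ s(x, y) = s(v, z)
        rw [hl, hl', Sym2.eq_iff]
        constructor
        · rintro ⟨⟨h1, h2⟩, h3⟩
          rcases h2 with h2 | h2 | h2 | h2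
          · exact (h3 ⟨h1, Or.inl h2⟩).elim
          · exact Or.inl h2
          · exact Or.inr h2
          · exact (h3 ⟨h1, Or.inr (Or.inr (Or.inr h2))⟩).elim
        · rintro (⟨h1, h2⟩ | ⟨h1, h2⟩)
          · subst h1 h2
            refine ⟨⟨hvz, Or.inr (Or.inl ⟨rfl, rfl⟩)⟩, ?_⟩
            rintro ⟨-, h3 | h3 | h3 | h3⟩
            · exact hzA (ed_mem' h3)
            · exact hbz h3.2.symm
            · exact hvb h3.1
            · exact hvB (ed_mem h3)
          · subst h1 h2
            refine ⟨⟨hvz.symm, Or.inr (Or.inr (Or.inl ⟨rfl, rfl⟩))⟩, ?_⟩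
            rintro ⟨-, h3 | h3 | h3 | h3⟩
            · exact hzA (ed_mem h3)
            · exact hvz h3.1.symm
            · exact hbz h3.1.symm
            · exact hvB (ed_mem' h3)
    rw [e1, e2, Set.ncard_singleton, Set.ncard_singleton]
    exact ⟨rfl, rfl⟩

end FPW
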