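import Pool.Agent.Lib.MP_deef39_co_PW.Defs

/-! # PW module Seg: segments and orientations

`gp_of`: if `o p a b c = 0` with `p a ≠ p b`, then `p a, p b, p c` are collinear
(`collinear_iff_of_mem` with base point `p a` and direction `p b - p a`: from
`(b₁-a₁)(c₂-a₂) = (b₂-a₂)(c₁-a₁)` the vector `p c - p a` is a multiple of `p b - p a`).

`seg_iff` (`→`): if `X p a b c d`, the crossing point `x = (1-t) p a + t p b = (1-τ) p c + τ p d`
(`t = o c d a / (o c d a - o c d b)`, `τ = o a b c / (o a b c - o a b d)`, as in `X_param`; the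
coordinates are equal by `field_simp; ring`) lies on both segments; by the left side
`x = p a` or `x = p b`; but `o c d x = 0` (as `x` is on the line `c d`), so `o c d a = 0` or
`o c d b = 0`, contradiction to `X`.
(`←`) Suppose `¬ X p a b c d`, `x` on both segments, `x = (1-t) p a + t p b = (1-τ) p c + τ p d`,
`t, τ ∈ [0,1]`. Case 1: `a, b, c, d` pairwise different. `0 = o a b x = (1-τ) o a b c + τ o a b d`
with both values nonzero, so `o a b c * o a b d < 0` and similarly `o c d a * o c d b < 0`: `X`,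
contradiction. Case 2: the pairs share exactly one point, e.g. `a = c`, `b ≠ d` (four symmetric
cases): `0 = o a b x = τ o a b d` and `o a b d ≠ 0`, so `τ = 0`, `x = p c = p a`.
(`s(a,b) ≠ s(c,d)` and `a ≠ b`, `c ≠ d` exclude sharing both.)
-/

set_option autoImplicit false

namespace FPW

/-- orientation of three points of the plane -/
private def og (A B C : ℝ × ℝ) : ℝ :=
  (B.1 - A.1) * (C.2 - A.2) - (B.2 - A.2) * (C.1 - A.1)

private theorem og_comb {A B C D : ℝ × ℝ} {γ δ : ℝ} (h : γ + δ = 1) :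
    og A B (γ • C + δ • D) = γ * og A B C + δ * og A B D := by
  have h1 : γ = 1 - δ := by linarith
  subst h1
  simp only [og, Prod.fst_add, Prod.snd_add, Prod.smul_fst, Prod.smul_snd, smul_eq_mul]
  ring

private theorem og_line {A B : ℝ × ℝ} {γ δ : ℝ} (h : γ + δ = 1) :
    og A B (γ • A + δ • B) = 0 := by
  rw [og_comb h]
  simp only [og]
  ring

private theorem prod_neg {u v γ δ : ℝ} (hu : u ≠ 0) (hv : v ≠ 0) (hγ : 0 ≤ γ) (hδ : 0 ≤ δ)
    (h : γ + δ = 1) (h0 : γ * u + δ * v = 0) : u * v < 0 := by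
  rcases lt_or_gt_of_ne hu with h1 | h1 <;> rcases lt_or_gt_of_ne hv with h2 | h2
  · exfalso
    rcases hγ.eq_or_lt with h3 | h3
    · have h4 : δ = 1 := by linarith
      rw [← h3, h4] at h0
      linarith
    · nlinarith [mul_pos_of_neg_of_neg h1 h2, mul_neg_of_pos_of_neg h3 h1,
        mul_nonpos_of_nonneg_of_nonpos hδ h2.le]
  · exact mul_neg_of_neg_of_pos h1 h2
  · exact mul_neg_of_pos_of_neg h1 h2
  · exfalso
    rcases hγ.eq_or_lt with h3 | h3
    · have h4 : δ = 1 := by linarith
      rw [← h3, h4] at h0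
      linarith
    · nlinarith [mul_pos h3 h1, mul_nonneg hδ h2.le]

private theorem comb_eq {A B : ℝ × ℝ} {γ δ : ℝ} (h : γ + δ = 1) (hδ : δ = 0) :
    γ • A + δ • B = A := by
  have h1 : γ = 1 := by linarith
  rw [hδ, h1, zero_smul, one_smul, add_zero]

private theorem comb_eq' {A B : ℝ × ℝ} {γ δ : ℝ} (h : γ + δ = 1) (hγ : γ = 0) :
    γ • A + δ • B = B := by
  have h1 : δ = 1 := by linarith
  rw [hγ, h1, zero_smul, one_smul, zero_add]

private theorem eq_of_comb {A B : ℝ × ℝ} {t : ℝ} (ht : t ≠ 0)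
    (h : (1 - t) • A + t • B = A) : A = B := by
  have h1 := congrArg Prod.fst h
  have h2 := congrArg Prod.snd h
  simp only [Prod.fst_add, Prod.snd_add, Prod.smul_fst, Prod.smul_snd, smul_eq_mul] at h1 h2
  refine Prod.ext ?_ ?_
  · refine mul_left_cancel₀ ht ?_
    linarith
  · refine mul_left_cancel₀ ht ?_
    linarith

private theorem eq_of_comb' {A B : ℝ × ℝ} {t : ℝ} (ht : 1 - t ≠ 0)
    (h : (1 - t) • A + t • B = B) : A = B := by
  have h1 := congrArg Prod.fst h
  have h2 := congrArg Prod.snd h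
  simp only [Prod.fst_add, Prod.snd_add, Prod.smul_fst, Prod.smul_snd, smul_eq_mul] at h1 h2
  refine Prod.ext ?_ ?_
  · refine mul_left_cancel₀ ht ?_
    linarith
  · refine mul_left_cancel₀ ht ?_
    linarith

theorem gp_of {n : ℕ} {p : Fin n → ℝ × ℝ} (hi : Function.Injective p)
    (hc : ∀ i j k : Fin n, i ≠ j → j ≠ k → i ≠ k →
      ¬ Collinear ℝ ({p i, p j, p k} : Set (ℝ × ℝ))) : GP p := by
  refine ⟨hi, fun a b c hab hbc hac h0 => hc a b c hab hbc hac ?_⟩
  have hne : p a ≠ p b := fun h => hab (hi h)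
  unfold o at h0
  rw [collinear_iff_of_mem (p₀ := p a) (by simp)]
  refine ⟨p b - p a, ?_⟩
  intro q hq
  simp only [Set.mem_insert_iff, Set.mem_singleton_iff] at hq
  rcases hq with rfl | rfl | rfl
  · exact ⟨0, by rw [zero_smul, zero_vadd]⟩
  · exact ⟨1, by rw [one_smul, vadd_eq_add, sub_add_cancel]⟩
  · by_cases h1 : (p b).1 = (p a).1
    · have h2 : (p b).2 - (p a).2 ≠ 0 := by
        intro h3
        exact hne (Prod.ext h1.symm (by linarith))
      refine ⟨((p c).2 - (p a).2) / ((p b).2 - (p a).2), ?_⟩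
      have h3 : (p c).1 = (p a).1 := by
        rw [h1] at h0
        have h4 : ((p b).2 - (p a).2) * ((p c).1 - (p a).1) = 0 := by linarith
        rcases mul_eq_zero.1 h4 with h5 | h5
        · exact absurd h5 h2
        · linarith
      refine Prod.ext ?_ ?_
      · simp only [vadd_eq_add, Prod.fst_add, Prod.smul_fst, Prod.fst_sub, smul_eq_mul]
        rw [h1, h3]
        ring
      · simp only [vadd_eq_add, Prod.snd_add, Prod.smul_snd, Prod.snd_sub, smul_eq_mul]
        field_simp
        ring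
    · have h2 : (p b).1 - (p a).1 ≠ 0 := sub_ne_zero.2 h1
      refine ⟨((p c).1 - (p a).1) / ((p b).1 - (p a).1), ?_⟩
      refine Prod.ext ?_ ?_
      · simp only [vadd_eq_add, Prod.fst_add, Prod.smul_fst, Prod.fst_sub, smul_eq_mul]
        field_simp
        ring
      · simp only [vadd_eq_add, Prod.snd_add, Prod.smul_snd, Prod.snd_sub, smul_eq_mul]
        have h3 : (p c).2 - (p a).2 = ((p c).1 - (p a).1) / ((p b).1 - (p a).1) *
            ((p b).2 - (p a).2) := by
          rw [div_mul_eq_mul_div, eq_div_iff h2]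
          linarith
        linarith

theorem seg_iff {n : ℕ} {p : Fin n → ℝ × ℝ} (hgp : GP p) {a b c d : Fin n} (hab : a ≠ b)
    (hcd : c ≠ d) (hne : s(a, b) ≠ s(c, d)) :
    (∀ x : ℝ × ℝ, x ∈ segment ℝ (p a) (p b) → x ∈ segment ℝ (p c) (p d) →
      (x = p a ∨ x = p b) ∧ (x = p c ∨ x = p d)) ↔ ¬ X p a b c d := by
  have ho : ∀ i j k : Fin n, o p i j k = og (p i) (p j) (p k) := fun _ _ _ => rfl
  constructor
  · intro hl hX
    obtain ⟨h1, h2⟩ := hX
    have hne1 : o p a b c - o p a b d ≠ 0 := by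
      intro h0
      have : o p a b c = o p a b d := by linarith
      rw [this] at h1
      nlinarith [mul_self_nonneg (o p a b d)]
    have hne2 : o p c d a - o p c d b ≠ 0 := by
      intro h0
      have : o p c d a = o p c d b := by linarith
      rw [this] at h2
      nlinarith [mul_self_nonneg (o p c d b)]
    have key : ∀ s r : ℝ, s * r < 0 → 0 < s / (s - r) ∧ s / (s - r) < 1 := by
      intro s r hsr
      rcases mul_neg_iff.1 hsr with ⟨hs, hr⟩ | ⟨hs, hr⟩
      · have : 0 < s - r := by linarith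
        exact ⟨div_pos hs this, by rw [div_lt_one this]; linarith⟩
      · have : s - r < 0 := by linarith
        exact ⟨div_pos_of_neg_of_neg hs this, by rw [div_lt_one_of_neg this]; linarith⟩
    obtain ⟨k1, k2⟩ := key _ _ h1
    obtain ⟨k3, k4⟩ := key _ _ h2
    obtain ⟨t, ht⟩ : ∃ t, t = o p c d a / (o p c d a - o p c d b) := ⟨_, rfl⟩
    obtain ⟨τ, hτ⟩ : ∃ τ, τ = o p a b c / (o p a b c - o p a b d) := ⟨_, rfl⟩
    have hx : (1 - t) • p a + t • p b = (1 - τ) • p c + τ • p d := by
      rw [ht, hτ]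
      refine Prod.ext ?_ ?_
      · simp only [Prod.fst_add, Prod.smul_fst, smul_eq_mul]
        field_simp
        unfold o
        ring
      · simp only [Prod.snd_add, Prod.smul_snd, smul_eq_mul]
        field_simp
        unfold o
        ring
    rw [← ht] at k3 k4
    rw [← hτ] at k1 k2
    have h3 := (hl ((1 - t) • p a + t • p b)
      ⟨1 - t, t, by linarith, k3.le, by ring, rfl⟩
      ⟨1 - τ, τ, by linarith, k1.le, by ring, hx.symm⟩).1
    rcases h3 with h3 | h3
    · exact hab (hgp.inj (eq_of_comb k3.ne' h3))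
    · exact hab (hgp.inj (eq_of_comb' (by linarith) h3))
  · intro hX x hx1 hx2
    obtain ⟨α, β, hα, hβ, hαβ, rfl⟩ := hx1
    obtain ⟨γ, δ, hγ, hδ, hγδ, hxx⟩ := hx2
    have e1 : γ * o p a b c + δ * o p a b d = 0 := by
      rw [ho, ho, ← og_comb hγδ, hxx, og_line hαβ]
    have e2 : α * o p c d a + β * o p c d b = 0 := by
      rw [ho, ho, ← og_comb hαβ, ← hxx, og_line hγδ]
    by_cases hac : a = c
    · have hbd : b ≠ d := fun h => hne (by rw [hac, h])
      have h1 : δ = 0 := by
        rw [← hac, o_self2, mul_zero, zero_add] at e1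
        exact (mul_eq_zero.1 e1).resolve_right (hgp.ne a b d hab hbd (by rw [hac]; exact hcd))
      have h2 : γ • p c + δ • p d = p c := comb_eq hγδ h1
      rw [← hxx, h2]
      exact ⟨Or.inl (by rw [hac]), Or.inl rfl⟩
    by_cases had : a = d
    · have hbc : b ≠ c := fun h => hne (by rw [had, h, Sym2.eq_swap])
      have h1 : γ = 0 := by
        rw [← had, o_self2, mul_zero, add_zero] at e1
        exact (mul_eq_zero.1 e1).resolve_right (hgp.ne a b c hab hbc hac)
      have h2 : γ • p c + δ • p d = p d := comb_eq' hγδ h1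
      rw [← hxx, h2]
      exact ⟨Or.inl (by rw [had]), Or.inr rfl⟩
    by_cases hbc : b = c
    · have h1 : δ = 0 := by
        rw [← hbc, o_self3, mul_zero, zero_add] at e1
        exact (mul_eq_zero.1 e1).resolve_right
          (hgp.ne a b d hab (by rw [hbc]; exact hcd) had)
      have h2 : γ • p c + δ • p d = p c := comb_eq hγδ h1
      rw [← hxx, h2]
      exact ⟨Or.inr (by rw [hbc]), Or.inl rfl⟩
    by_cases hbd : b = d
    · have h1 : γ = 0 := by
        rw [← hbd, o_self3, mul_zero, add_zero] at e1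
        exact (mul_eq_zero.1 e1).resolve_right (hgp.ne a b c hab hbc hac)
      have h2 : γ • p c + δ • p d = p d := comb_eq' hγδ h1
      rw [← hxx, h2]
      exact ⟨Or.inr (by rw [hbd]), Or.inr rfl⟩
    exfalso
    apply hX
    exact ⟨prod_neg (hgp.ne a b c hab hbc hac) (hgp.ne a b d hab hbd had) hγ hδ hγδ e1,
      prod_neg (hgp.ne c d a hcd (Ne.symm had) (Ne.symm hac))
        (hgp.ne c d b hcd (Ne.symm hbd) (Ne.symm hbc)) hα hβ hαβ e2⟩

end FPW
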