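import Pool.Agent.Lib.MP_deef39_co_PW.RotB

/-! # PW module HEnd: every vertex becomes an end

`U p`: a rotation at the end, or reversal of the list. `NO` is the empty set of obstacles.

`hend`. Induction on the length of `A₀`, where `l = A₀ ++ x :: B₀`. If `A₀ = []`:
`l.reverse = B₀.reverse ++ [x]`. Otherwise consider the world with path `x :: B₀`, ghosts
`G = {g | g ∈ A₀}`, obstacles `O = Ed (A₀ ++ [x])`: `Wd` (by `ed_mid`, `EO (x :: B₀) O` and
`Ed (A₀ ++ x :: B₀)` are equivalent; an edge of `A₀ ++ [x]` has an end point in `A₀` because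
`ed_ne`). By `htg`: `Reach p O (x :: B₀) (A ++ [z])`, `z` sees `g ∈ A₀` with respect to
`EO (A ++ [z]) O`. The head is kept (`reach_head`), so `A ++ [z] = x :: B'`; every step
`x :: B₁ → x :: B₂` (`RotL v z'`) of this `Reach` gives the step
`A₀ ++ x :: B₁ → A₀ ++ x :: B₂` (`RotL v z'` with the prefix `A₀ ++ _`) with respect to `NO`, as
`Ed (A₀ ++ x :: B₁)` is `Ed (A₀ ++ [x])` together with `Ed (x :: B₁)`. So
`Reach p NO l (A₀ ++ x :: B')`, and its last entry `z` sees `g` with respect to
`Ed (A₀ ++ x :: B')`. Write `A₀ = A₁ ++ g :: A₂`. If `B' = []` then `z = x`, and `l' = A₀ ++ [x]` has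
the required form already. Otherwise `B' = B'' ++ [z]` and rotation at `g` gives
`A₁ ++ g :: (A₂ ++ x :: B'' ++ [z]).reverse = (A₁ ++ g :: z :: B''.reverse) ++ x :: A₂.reverse`.
(Write it as `A₁ ++ g :: z :: (A₂ ++ x :: B'').reverse`.) Its reversal is
`A₂ ++ x :: (A₁ ++ g :: z :: B''.reverse).reverse`, and `A₂.length < A₀.length`: induction
(the new list is plane and without duplicates by `plane_reach`, `reach_perm`, `ed_reverse`).
-/

set_option autoImplicit false

namespace FPW

variable {α : Type*} {p : α → ℝ × ℝ}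

/-- no obstacles -/
def NO (_ _ : α) : Prop := False

/-- rotation at the end or reversal -/
def U (p : α → ℝ × ℝ) (l l' : List α) : Prop := Rot p NO l l' ∨ l' = l.reverse

theorem eo_no {l : List α} {x y : α} : EO l NO x y ↔ Ed l x y := by
  unfold EO NO
  simp

theorem plane_no {l : List α} : Plane p (EO l NO) ↔ Plane p (Ed l) := by
  constructor
  · exact fun h => Plane_mono (fun a b hab => eo_no.2 hab) h
  · exact fun h => Plane_mono (fun a b hab => eo_no.1 hab) h

private theorem hend_step_plane {l l' : List α} (hp : Plane p (Ed l)) (h : U p l l') :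
    Plane p (Ed l') := by
  rcases h with h | h
  · exact plane_no.1 (rot_plane (plane_no.2 hp) h)
  · rw [h]
    exact Plane_mono (fun a b hab => ed_reverse.1 hab) hp

theorem u_plane {l l' : List α} (hp : Plane p (Ed l)) (h : Relation.ReflTransGen (U p) l l') :
    Plane p (Ed l') := by
  induction h with
  | refl => exact hp
  | tail _ h2 ih => exact hend_step_plane ih h2

theorem u_perm {l l' : List α} (h : Relation.ReflTransGen (U p) l l') : l'.Perm l := by
  induction h with
  | refl => exact List.Perm.refl _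
  | tail _ h2 ih =>
    rcases h2 with h2 | h2
    · obtain ⟨v, z, h3, _⟩ := h2
      exact (rotL_perm h3).trans ih
    · rw [h2]
      exact (List.reverse_perm _).trans ih

/-- the relation is symmetric on plane paths -/
theorem u_symm {l l' : List α} (hp : Plane p (Ed l)) (h : Relation.ReflTransGen (U p) l l') :
    Relation.ReflTransGen (U p) l' l := by
  induction h with
  | refl => exact Relation.ReflTransGen.refl
  | tail h1 h2 ih =>
    have hp1 := u_plane hp h1
    refine Relation.ReflTransGen.head ?_ ih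
    rcases h2 with h2 | h2
    · exact Or.inl (rot_symm (plane_no.2 hp1) h2)
    · right
      rw [h2, List.reverse_reverse]

private theorem hend_lift {x : α} {A₀ B₁ m : List α}
    (h : Reach p (Ed (A₀ ++ [x])) (x :: B₁) m) :
    ∃ B₂, m = x :: B₂ ∧ Relation.ReflTransGen (U p) (A₀ ++ x :: B₁) (A₀ ++ x :: B₂) := by
  unfold Reach at h
  induction h with
  | refl => exact ⟨B₁, rfl, Relation.ReflTransGen.refl⟩
  | @tail m₁ m' _ h2 ih =>
    obtain ⟨B₂, rfl, h3⟩ := ih
    obtain ⟨v, z, h4, h5⟩ := h2
    have hh := rotL_head h4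
    rw [List.head?_cons] at hh
    obtain ⟨A, B, h6, h7⟩ := h4
    have hm' : ∃ B₃, m' = x :: B₃ := by
      cases m' with
      | nil => simp at hh
      | cons a B₃ =>
        rw [List.head?_cons] at hh
        exact ⟨B₃, by rw [Option.some.inj hh]⟩
    obtain ⟨B₃, rfl⟩ := hm'
    refine ⟨B₃, rfl, h3.tail (Or.inl ⟨v, z, ⟨A₀ ++ A, B, ?_, ?_⟩, ?_⟩)⟩
    · rw [h6, List.append_assoc]
    · rw [h7, List.append_assoc]
    · refine Vis_mono ?_ h5
      intro a b hab
      rcases ed_mid.1 (eo_no.1 hab) with h8 | h8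
      · exact Or.inr h8
      · exact Or.inl h8

private theorem hend_aux (htg : ∀ (l : List α) (G : Set α) (O : α → α → Prop), Wd p l G O →
      G.Nonempty → Goal p l G O) {x : α} (n : ℕ) :
    ∀ A₀ B₀ : List α, A₀.length ≤ n → (A₀ ++ x :: B₀).Nodup → Plane p (Ed (A₀ ++ x :: B₀)) →
      ∃ Q, Relation.ReflTransGen (U p) (A₀ ++ x :: B₀) (Q ++ [x]) := by
  induction n with
  | zero =>
    intro A₀ B₀ h0 _ _
    have hA : A₀ = [] := List.length_eq_zero_iff.1 (Nat.le_zero.1 h0)
    subst hA
    refine ⟨B₀.reverse, Relation.ReflTransGen.single (Or.inr ?_)⟩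
    simp
  | succ n ih =>
    intro A₀ B₀ hlen hn hp
    by_cases hA : A₀ = []
    · subst hA
      refine ⟨B₀.reverse, Relation.ReflTransGen.single (Or.inr ?_)⟩
      simp
    have hn1 : (A₀ ++ [x]).Nodup := by
      refine hn.sublist ?_
      exact List.Sublist.append (List.Sublist.refl _) (List.Sublist.cons_cons _ (List.nil_sublist _))
    have hdis : ∀ y ∈ x :: B₀, y ∉ A₀ := by
      intro y hy hy'
      exact (List.nodup_append.1 hn).2.2 y hy' y hy rfl
    have hw : Wd p (x :: B₀) {g | g ∈ A₀} (Ed (A₀ ++ [x])) := by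
      refine ⟨(List.nodup_append.1 hn).2.1, List.cons_ne_nil _ _, hdis, ?_, ?_, ?_, ?_, ?_⟩
      · exact fun a b h => ed_symm h
      · intro a b h
        have h1 := ed_mem h
        have h2 := ed_mem' h
        have h3 := ed_ne hn1 h
        rcases List.mem_append.1 h1 with h4 | h4
        · exact Or.inl h4
        · rcases List.mem_append.1 h2 with h5 | h5
          · exact Or.inr h5
          · exact (h3 ((List.mem_singleton.1 h4).trans (List.mem_singleton.1 h5).symm)).elim
      · intro a b h
        rcases List.mem_append.1 (ed_mem h) with h4 | h4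
        · exact Or.inr h4
        · left
          rw [List.mem_singleton.1 h4]
          exact List.mem_cons_self
      · exact fun a b h => ed_ne hn1 h
      · refine Plane_mono ?_ hp
        rintro a b (h | h)
        · exact ed_mid.2 (Or.inr h)
        · exact ed_mid.2 (Or.inl h)
    have hG : ({g | g ∈ A₀} : Set α).Nonempty := by
      obtain ⟨a, ha⟩ := List.exists_mem_of_ne_nil _ hA
      exact ⟨a, ha⟩
    obtain ⟨A, z, g, h1, h2, h3⟩ := htg _ _ _ hw hG
    obtain ⟨B', h4, h5⟩ := hend_lift h1
    rcases List.eq_nil_or_concat B' with h6 | ⟨B'', z', h6⟩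
    · subst h6
      exact ⟨A₀, h5⟩
    rw [List.concat_eq_append] at h6
    subst h6
    have hz : z' = z := by
      have h7 : (A ++ [z]).getLast? = (x :: (B'' ++ [z'])).getLast? := by rw [h4]
      rw [← List.cons_append, List.getLast?_append, List.getLast?_append] at h7
      simpa using h7.symm
    subst hz
    obtain ⟨A₁, A₂, h8⟩ := List.append_of_mem (show g ∈ A₀ from h2)
    have hrot : U p (A₀ ++ x :: (B'' ++ [z']))
        (A₁ ++ g :: z' :: (A₂ ++ x :: B'').reverse) := by
      refine Or.inl ⟨g, z', ⟨A₁, A₂ ++ x :: B'', ?_, rfl⟩, ?_⟩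
      · rw [h8]
        simp
      · refine Vis_mono ?_ h3
        intro a b hab
        rw [h4]
        rcases ed_mid.1 (eo_no.1 hab) with h9 | h9
        · exact Or.inr h9
        · exact Or.inl h9
    have hrev : U p (A₁ ++ g :: z' :: (A₂ ++ x :: B'').reverse)
        (A₂ ++ x :: (B'' ++ z' :: g :: A₁.reverse)) := by
      right
      simp
    have htot : Relation.ReflTransGen (U p) (A₀ ++ x :: B₀)
        (A₂ ++ x :: (B'' ++ z' :: g :: A₁.reverse)) := (h5.tail hrot).tail hrev
    obtain ⟨Q, hQ⟩ := ih A₂ (B'' ++ z' :: g :: A₁.reverse) (by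
      rw [h8, List.length_append, List.length_cons] at hlen
      omega) ((u_perm htot).nodup_iff.2 hn) (u_plane hp htot)
    exact ⟨Q, htot.trans hQ⟩

theorem hend (htg : ∀ (l : List α) (G : Set α) (O : α → α → Prop), Wd p l G O → G.Nonempty →
      Goal p l G O)
    {l : List α} {x : α} (hn : l.Nodup) (hp : Plane p (Ed l)) (hx : x ∈ l) :
    ∃ Q, Relation.ReflTransGen (U p) l (Q ++ [x]) := by
  obtain ⟨A₀, B₀, rfl⟩ := List.append_of_mem hx
  exact hend_aux htg A₀.length A₀ B₀ le_rfl hn hp

end FPW
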