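import Pool.Agent.Lib.MP_deef39_co_PW.Lst

/-! # PW module InsP: insertion of a vertex into an edge of a path

All elementary list lemmas; split `Q` and use `ed_mid`, `ed_cons2`, `ed_split`.

* `par`: `Q = A ++ v :: (B ++ [z])`, `Q' = A ++ v :: z :: B.reverse`. The edge `c d` of `Q` lies in
  `A ++ [v]` (then insert there: `A` is replaced by `A'` in both lists, first alternative; if the
  edge is the last edge `a v` of `A ++ [v]`, then `A' = A ++ [y]`), or in `B ++ [z]` (then `B` is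
  replaced by `B'` with `y` inserted, or by `B ++ [y]` if the edge is the last one; first
  alternative), or it is the edge joining `v` to the first entry `e` of `B ++ [z]`: then `m =
  A ++ v :: ((y :: B) ++ [z])` and rotation gives `A ++ v :: z :: B.reverse ++ [y] = Q' ++ [y]`,
  and `e` is the last entry of `Q'` (second alternative; if `B = []` then `e = z`, `Q = Q'`).
  The hypothesis `Q.Nodup` may be used if convenient.
-/

set_option autoImplicit false

namespace FPW

variable {α : Type*}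

private theorem insP_uniq {Q A B A' B' : List α} {x : α} (hn : Q.Nodup) (h : Q = A ++ x :: B)
    (h' : Q = A' ++ x :: B') : A = A' ∧ B = B' := by
  induction A generalizing A' Q with
  | nil =>
    cases A' with
    | nil =>
      rw [h] at h'
      exact ⟨rfl, (List.cons.inj h').2⟩
    | cons a A' =>
      exfalso
      subst h
      rw [List.nil_append, List.cons_append] at h'
      obtain ⟨h1, h2⟩ := List.cons.inj h'
      rw [List.nil_append] at hn
      exact (List.nodup_cons.1 hn).1 (h2 ▸ by simp)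
  | cons b A ih =>
    cases A' with
    | nil =>
      exfalso
      subst h
      rw [List.nil_append, List.cons_append] at h'
      obtain ⟨h1, h2⟩ := List.cons.inj h'
      rw [List.cons_append] at hn
      exact (List.nodup_cons.1 hn).1 (h1 ▸ by simp)
    | cons a A' =>
      subst h
      rw [List.cons_append] at h' hn
      rw [List.cons_append] at h'
      obtain ⟨h1, h2⟩ := List.cons.inj h'
      obtain ⟨h3, h4⟩ := ih (List.nodup_cons.1 hn).2 rfl h2
      exact ⟨by rw [h1, h3], h4⟩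

theorem ins_exists {Q : List α} {c d : α} (y : α) (h : Ed Q c d) : ∃ m, Ins y c d Q m := by
  obtain ⟨A, B, h1 | h1⟩ := ed_split h
  · exact ⟨_, A, B, Or.inl ⟨h1, rfl⟩⟩
  · exact ⟨_, A, B, Or.inr ⟨h1, rfl⟩⟩

theorem ins_comm {y c d : α} {Q m : List α} (h : Ins y c d Q m) : Ins y d c Q m := by
  obtain ⟨A, B, h⟩ := h
  exact ⟨A, B, h.symm⟩

theorem ins_edge {y c d : α} {Q m : List α} (h : Ins y c d Q m) : Ed Q c d := by
  obtain ⟨A, B, ⟨rfl, _⟩ | ⟨rfl, _⟩⟩ := h
  · exact ed_of_split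
  · exact ed_of_split'

private theorem insP_ed {y s t : α} {A B : List α} {a b : α} (hab : Ed (A ++ s :: y :: t :: B) a b) :
    Ed (A ++ s :: t :: B) a b ∨ (a = y ∧ (b = s ∨ b = t)) ∨ (b = y ∧ (a = s ∨ a = t)) := by
  rw [ed_mid, ed_cons2, ed_cons2] at hab
  rw [ed_mid, ed_cons2]
  tauto

theorem ins_ed {y c d : α} {Q m : List α} (h : Ins y c d Q m) {a b : α} (hab : Ed m a b) :
    Ed Q a b ∨ (a = y ∧ (b = c ∨ b = d)) ∨ (b = y ∧ (a = c ∨ a = d)) := by
  obtain ⟨A, B, ⟨rfl, rfl⟩ | ⟨rfl, rfl⟩⟩ := h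
  · exact insP_ed hab
  · have := insP_ed hab
    tauto

private theorem insP_last {y s t : α} {A B : List α} :
    (A ++ s :: y :: t :: B).getLast? = (A ++ s :: t :: B).getLast? := by
  have h1 : A ++ s :: y :: t :: B = (A ++ [s, y]) ++ t :: B := by simp
  have h2 : A ++ s :: t :: B = (A ++ [s]) ++ t :: B := by simp
  rw [h1, h2]
  cases hB : (t :: B).getLast? with
  | none =>
    rw [List.getLast?_eq_none_iff] at hB
    cases hB
  | some w => rw [List.getLast?_append, hB, List.getLast?_append (l := A ++ [s]), hB]; rfl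

theorem ins_last {y c d : α} {A m : List α} {z : α} (h : Ins y c d (A ++ [z]) m) :
    ∃ B, m = B ++ [z] := by
  have h0 : m.getLast? = some z := by
    obtain ⟨A0, B0, ⟨h1, rfl⟩ | ⟨h1, rfl⟩⟩ := h
    · rw [insP_last, ← h1]
      simp
    · rw [insP_last, ← h1]
      simp
  exact List.getLast?_eq_some_iff.1 h0

private theorem insP_perm {y s t : α} {A B : List α} :
    (A ++ s :: y :: t :: B).Perm (y :: (A ++ s :: t :: B)) := by
  have h1 : A ++ s :: y :: t :: B = (A ++ [s]) ++ y :: (t :: B) := by simp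
  have h2 : A ++ s :: t :: B = (A ++ [s]) ++ (t :: B) := by simp
  rw [h1, h2]
  exact List.perm_middle

theorem ins_perm {y c d : α} {Q m : List α} (h : Ins y c d Q m) : m.Perm (y :: Q) := by
  obtain ⟨A, B, ⟨rfl, rfl⟩ | ⟨rfl, rfl⟩⟩ := h
  · exact insP_perm
  · exact insP_perm

theorem ins_head {y c d : α} {Q m : List α} (h : Ins y c d Q m) : m.head? = Q.head? := by
  obtain ⟨A, B, ⟨rfl, rfl⟩ | ⟨rfl, rfl⟩⟩ := h
  · cases A <;> rfl
  · cases A <;> rfl

theorem ins_reverse {y c d : α} {Q m : List α} (h : Ins y c d Q m) :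
    Ins y c d Q.reverse m.reverse := by
  obtain ⟨A, B, ⟨rfl, rfl⟩ | ⟨rfl, rfl⟩⟩ := h
  · exact ⟨B.reverse, A.reverse, Or.inr ⟨by simp, by simp⟩⟩
  · exact ⟨B.reverse, A.reverse, Or.inl ⟨by simp, by simp⟩⟩

private theorem insP_unique_same {y s t : α} {Q A B A' B' : List α} (hn : Q.Nodup)
    (h : Q = A ++ s :: t :: B) (h' : Q = A' ++ s :: t :: B') :
    A ++ s :: y :: t :: B = A' ++ s :: y :: t :: B' := by
  obtain ⟨h1, h2⟩ := insP_uniq hn h h'
  rw [h1, (List.cons.inj h2).2]

private theorem insP_unique_opp {s t : α} {Q A B A' B' : List α} (hn : Q.Nodup)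
    (h : Q = A ++ s :: t :: B) (h' : Q = A' ++ t :: s :: B') : False := by
  have h3 : Q = (A' ++ [t]) ++ s :: B' := by rw [h']; simp
  obtain ⟨h1, h2⟩ := insP_uniq hn h h3
  rw [h, h1] at hn
  have h4 : t ∈ A' ++ [t] := by simp
  exact (List.disjoint_of_nodup_append hn) h4 (by simp)

/-- insertion into the same edge gives the same list -/
theorem ins_unique {y c d c' d' : α} {Q m m' : List α} (hn : Q.Nodup) (h : Ins y c d Q m)
    (h' : Ins y c' d' Q m') (he : (c = c' ∧ d = d') ∨ (c = d' ∧ d = c')) : m = m' := by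
  have h'' : Ins y c d Q m' := by
    rcases he with ⟨rfl, rfl⟩ | ⟨rfl, rfl⟩
    · exact h'
    · exact ins_comm h'
  obtain ⟨A, B, ⟨h1, rfl⟩ | ⟨h1, rfl⟩⟩ := h
  · obtain ⟨A', B', ⟨h2, rfl⟩ | ⟨h2, rfl⟩⟩ := h''
    · exact insP_unique_same hn h1 h2
    · exact (insP_unique_opp hn h1 h2).elim
  · obtain ⟨A', B', ⟨h2, rfl⟩ | ⟨h2, rfl⟩⟩ := h''
    · exact (insP_unique_opp hn h1 h2).elim
    · exact insP_unique_same hn h1 h2

private theorem insP_par {v z y s t : α} {A B A0 B0 : List α}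
    (h : A ++ v :: (B ++ [z]) = A0 ++ s :: t :: B0) :
    (∃ m', Ins y s t (A ++ v :: z :: B.reverse) m' ∧ RotL v z (A0 ++ s :: y :: t :: B0) m') ∨
      (RotL v z (A0 ++ s :: y :: t :: B0) ((A ++ v :: z :: B.reverse) ++ [y]) ∧
        ∃ A1 e, A ++ v :: z :: B.reverse = A1 ++ [e] ∧ s = v ∧ t = e) := by
  have hmid : A = A0 → s = v → B ++ [z] = t :: B0 →
      (RotL v z (A0 ++ s :: y :: t :: B0) ((A ++ v :: z :: B.reverse) ++ [y]) ∧
        ∃ A1 e, A ++ v :: z :: B.reverse = A1 ++ [e] ∧ s = v ∧ t = e) := by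
    rintro rfl rfl h1
    refine ⟨⟨A, y :: B, ?_, ?_⟩, ?_⟩
    · rw [List.cons_append, h1]
    · simp
    · cases B with
      | nil =>
        rw [List.nil_append] at h1
        obtain ⟨h2, h3⟩ := List.cons.inj h1
        exact ⟨A ++ [s], z, by simp, rfl, h2.symm⟩
      | cons b B =>
        rw [List.cons_append] at h1
        obtain ⟨h2, h3⟩ := List.cons.inj h1
        exact ⟨A ++ s :: z :: B.reverse, b, by simp, rfl, h2.symm⟩
  rcases List.append_eq_append_iff.1 h with ⟨a', h1, h2⟩ | ⟨c', h1, h2⟩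
  · cases a' with
    | nil =>
      rw [List.nil_append] at h2
      obtain ⟨h3, h4⟩ := List.cons.inj h2
      exact Or.inr (hmid (by rw [h1]; simp) h3.symm h4)
    | cons w a' =>
      rw [List.cons_append] at h2
      obtain ⟨rfl, h4⟩ := List.cons.inj h2
      left
      rcases List.eq_nil_or_concat B0 with rfl | ⟨B1, b, rfl⟩
      · have h5 : B ++ [z] = (a' ++ [s]) ++ [t] := by rw [h4]; simp
        obtain ⟨h6, h7⟩ := List.append_inj' h5 rfl
        have h8 : z = t := (List.cons.inj h7).1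
        subst h8
        subst h6
        refine ⟨A ++ v :: z :: (a' ++ [s, y]).reverse,
          ⟨A ++ [v], a'.reverse, Or.inr ⟨by simp, by simp⟩⟩, ⟨A, a' ++ [s, y], ?_, rfl⟩⟩
        rw [h1]
        simp
      · rw [List.concat_eq_append] at h4 ⊢
        have h5 : B ++ [z] = (a' ++ s :: t :: B1) ++ [b] := by rw [h4]; simp
        obtain ⟨h6, h7⟩ := List.append_inj' h5 rfl
        have h8 : z = b := (List.cons.inj h7).1
        subst h8
        subst h6
        refine ⟨A ++ v :: z :: (a' ++ s :: y :: t :: B1).reverse,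
          ⟨A ++ v :: z :: B1.reverse, a'.reverse, Or.inr ⟨by simp, by simp⟩⟩,
          ⟨A, a' ++ s :: y :: t :: B1, ?_, rfl⟩⟩
        rw [h1]
        simp
  · cases c' with
    | nil =>
      rw [List.nil_append] at h2
      obtain ⟨h3, h4⟩ := List.cons.inj h2
      exact Or.inr (hmid (by rw [h1]; simp) h3 h4.symm)
    | cons w c' =>
      rw [List.cons_append] at h2
      obtain ⟨rfl, h4⟩ := List.cons.inj h2
      left
      cases c' with
      | nil =>
        rw [List.nil_append] at h4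
        obtain ⟨rfl, h5⟩ := List.cons.inj h4
        subst h5
        subst h1
        exact ⟨(A0 ++ [s, y]) ++ t :: z :: B.reverse,
          ⟨A0, z :: B.reverse, Or.inl ⟨by simp, by simp⟩⟩, ⟨A0 ++ [s, y], B, by simp, rfl⟩⟩
      | cons w' c' =>
        rw [List.cons_append] at h4
        obtain ⟨rfl, h5⟩ := List.cons.inj h4
        subst h5
        subst h1
        exact ⟨(A0 ++ s :: y :: t :: c') ++ v :: z :: B.reverse,
          ⟨A0, c' ++ v :: z :: B.reverse, Or.inl ⟨by simp, by simp⟩⟩,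
          ⟨A0 ++ s :: y :: t :: c', B, by simp, rfl⟩⟩

/-- a rotation of `Q` lifts to a rotation of the insertion `m` -/
theorem par {v z y c d : α} {Q Q' m : List α} (hn : Q.Nodup) (h : RotL v z Q Q')
    (hi : Ins y c d Q m) :
    (∃ m', Ins y c d Q' m' ∧ RotL v z m m') ∨
      (RotL v z m (Q' ++ [y]) ∧ ∃ A e, Q' = A ++ [e] ∧ ((c = v ∧ d = e) ∨ (c = e ∧ d = v))) := by
  obtain ⟨A, B, rfl, rfl⟩ := h
  obtain ⟨A0, B0, ⟨h1, rfl⟩ | ⟨h1, rfl⟩⟩ := hi
  · rcases insP_par (y := y) h1 with ⟨m', h2, h3⟩ | ⟨h2, A1, e, h3, h4, h5⟩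
    · exact Or.inl ⟨m', h2, h3⟩
    · exact Or.inr ⟨h2, A1, e, h3, Or.inl ⟨h4, h5⟩⟩
  · rcases insP_par (y := y) h1 with ⟨m', h2, h3⟩ | ⟨h2, A1, e, h3, h4, h5⟩
    · exact Or.inl ⟨m', ins_comm h2, h3⟩
    · exact Or.inr ⟨h2, A1, e, h3, Or.inr ⟨h5, h4⟩⟩

end FPW
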