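import Mathlib

/-!
# Plane spanning paths: definitions

`p : α → ℝ × ℝ` is a finite family of points. `o` orientation, `X` proper crossing of two segments,
`Vis p E x y` : the segment `xy` is crossed by no segment of `E`, `Ed l` : consecutive entries of
the list `l`, rotations of a path with fixed head, worlds with ghosts and obstacles.
-/

set_option autoImplicit false

namespace FPW

variable {α : Type*}

/-- orientation of the triple `p a, p b, p c` -/
def o (p : α → ℝ × ℝ) (a b c : α) : ℝ :=
  ((p b).1 - (p a).1) * ((p c).2 - (p a).2) - ((p b).2 - (p a).2) * ((p c).1 - (p a).1)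

/-- general position -/
structure GP (p : α → ℝ × ℝ) : Prop where
  inj : Function.Injective p
  ne : ∀ a b c : α, a ≠ b → b ≠ c → a ≠ c → o p a b c ≠ 0

/-- the segments `ab` and `cd` cross properly -/
def X (p : α → ℝ × ℝ) (a b c d : α) : Prop :=
  o p a b c * o p a b d < 0 ∧ o p c d a * o p c d b < 0

/-- `x` lies strictly inside the triangle `abc` -/
def InTri (p : α → ℝ × ℝ) (a b c x : α) : Prop :=
  (0 < o p a b x ∧ 0 < o p b c x ∧ 0 < o p c a x) ∨
    (o p a b x < 0 ∧ o p b c x < 0 ∧ o p c a x < 0)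

/-- `y` is a pinwheel centre of `T`: there are cyclically indexed points `u i`, `w i` of `T` such
that the segments `u i, w i` are pairwise non-crossing, do not cross the segments `y, u i`, are
oriented in the same way as seen from `y`, and `u (i+1)` lies inside the triangle
`y, u i, w i`. -/
def Centre (p : α → ℝ × ℝ) (T : Set α) (y : α) : Prop :=
  ∃ (k : ℕ) (u w : ℕ → α), 0 < k ∧ u k = u 0 ∧
    (∀ i < k, u i ∈ T ∧ w i ∈ T ∧ InTri p y (u i) (w i) (u (i + 1))) ∧
    (∀ i < k, ∀ j < k, ¬ X p (u i) (w i) (u j) (w j) ∧ ¬ X p y (u i) (u j) (w j)) ∧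
    ((∀ i < k, 0 < o p y (u i) (w i)) ∨ (∀ i < k, o p y (u i) (w i) < 0))

/-- no two segments of `E` cross -/
def Plane (p : α → ℝ × ℝ) (E : α → α → Prop) : Prop :=
  ∀ a b c d, E a b → E c d → ¬ X p a b c d

/-- `x` sees `y`: no segment of `E` crosses the segment `xy` -/
def Vis (p : α → ℝ × ℝ) (E : α → α → Prop) (x y : α) : Prop :=
  ∀ c d, E c d → ¬ X p x y c d

/-- `x, y` are consecutive in the list (in one of the two orders) -/
def Ed : List α → α → α → Prop
  | a :: b :: l, x, y => (x = a ∧ y = b) ∨ (x = b ∧ y = a) ∨ Ed (b :: l) x y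
  | [_], _, _ => False
  | [], _, _ => False

/-- edges of the path `l` together with the obstacles `O` -/
def EO (l : List α) (O : α → α → Prop) (x y : α) : Prop := Ed l x y ∨ O x y

/-- the rotation of a path at `v`: the end `z` is joined to `v`; the new end is the successor
of `v` -/
def RotL (v z : α) (l l' : List α) : Prop :=
  ∃ A B : List α, l = A ++ v :: (B ++ [z]) ∧ l' = A ++ v :: z :: B.reverse

/-- a plane rotation (with obstacles `O`) -/
def Rot (p : α → ℝ × ℝ) (O : α → α → Prop) (l l' : List α) : Prop :=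
  ∃ v z, RotL v z l l' ∧ Vis p (EO l O) z v

/-- sequences of plane rotations -/
def Reach (p : α → ℝ × ℝ) (O : α → α → Prop) : List α → List α → Prop :=
  Relation.ReflTransGen (Rot p O)

/-- a world: path `l`, ghosts `G`, obstacles `O` (each incident with a ghost) -/
structure Wd (p : α → ℝ × ℝ) (l : List α) (G : Set α) (O : α → α → Prop) : Prop where
  nodup : l.Nodup
  ne : l ≠ []
  disj : ∀ x ∈ l, x ∉ G
  symm : ∀ a b, O a b → O b a
  gh : ∀ a b, O a b → a ∈ G ∨ b ∈ G
  mem : ∀ a b, O a b → a ∈ l ∨ a ∈ G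
  irr : ∀ a b, O a b → a ≠ b
  plane : Plane p (EO l O)

/-- some reachable end sees a ghost -/
def Goal (p : α → ℝ × ℝ) (l : List α) (G : Set α) (O : α → α → Prop) : Prop :=
  ∃ A z g, Reach p O l (A ++ [z]) ∧ g ∈ G ∧ Vis p (EO (A ++ [z]) O) z g

/-- `m` is `Q` with `y` inserted between the consecutive vertices `c, d` -/
def Ins (y c d : α) (Q m : List α) : Prop :=
  ∃ A B : List α, (Q = A ++ c :: d :: B ∧ m = A ++ c :: y :: d :: B) ∨
    (Q = A ++ d :: c :: B ∧ m = A ++ d :: y :: c :: B)

/-- `m` is a lift of `Q` with respect to `y` -/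
def LiftP (p : α → ℝ × ℝ) (O : α → α → Prop) (y : α) (Q m : List α) : Prop :=
  (∃ A z, Q = A ++ [z] ∧ m = Q ++ [y] ∧ Vis p (EO Q O) z y) ∨
    (∃ c d, Ins y c d Q m ∧ Vis p (EO Q O) y c ∧ Vis p (EO Q O) y d)

open Classical in
/-- number of vertices of the path, other than the head, without obstacle -/
noncomputable def Fc (l : List α) (O : α → α → Prop) : ℕ :=
  (l.tail.filter (fun y => decide (∀ b, ¬ O y b))).length

/-- cross product of `r` with `b - a` -/
def cr (r a b : ℝ × ℝ) : ℝ := r.1 * (b.2 - a.2) - r.2 * (b.1 - a.1)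

/-- mirror image of the point family -/
def mir (p : α → ℝ × ℝ) : α → ℝ × ℝ := fun a => ((p a).2, (p a).1)

/-! ### orientations -/

section
variable (p : α → ℝ × ℝ) (a b c d : α)

theorem o_rot : o p b c a = o p a b c := by unfold o; ring
theorem o_rot' : o p c a b = o p a b c := by unfold o; ring
theorem o_swap : o p b a c = - o p a b c := by unfold o; ring
theorem o_swap' : o p a c b = - o p a b c := by unfold o; ring
theorem o_swap'' : o p c b a = - o p a b c := by unfold o; ring
@[simp] theorem o_self1 : o p a a b = 0 := by unfold o; ring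
@[simp] theorem o_self2 : o p a b a = 0 := by unfold o; ring
@[simp] theorem o_self3 : o p a b b = 0 := by unfold o; ring
theorem o_add : o p a b c = o p a b d + o p b c d + o p c a d := by unfold o; ring

theorem o_eq_cr : o p a b c = cr ((p b).1 - (p a).1, (p b).2 - (p a).2) (p a) (p c) := by
  unfold o cr; ring

theorem o_mir : o (mir p) a b c = - o p a b c := by unfold o mir; ring
end

/-! ### crossings -/

section
variable {p : α → ℝ × ℝ} {a b c d : α}

theorem X_sw1 : X p a b c d ↔ X p b a c d := by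
  unfold X
  rw [o_swap p a b c, o_swap p a b d, mul_comm (o p c d b)]
  simp

theorem X_sw2 : X p a b c d ↔ X p a b d c := by
  unfold X
  rw [o_swap p c d a, o_swap p c d b, mul_comm (o p a b d)]
  simp

theorem X_comm : X p a b c d ↔ X p c d a b := by
  unfold X; exact And.comm

theorem X_mir : X (mir p) a b c d ↔ X p a b c d := by
  unfold X; simp only [o_mir]; simp

theorem X_ne (h : X p a b c d) : a ≠ b ∧ c ≠ d ∧ a ≠ c ∧ a ≠ d ∧ b ≠ c ∧ b ≠ d := by
  obtain ⟨h1, h2⟩ := h
  refine ⟨?_, ?_, ?_, ?_, ?_, ?_⟩ <;> rintro rfl <;> simp at h1 h2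

theorem not_X_of_eq1 : ¬ X p a b a d := fun h => (X_ne h).2.2.1 rfl
theorem not_X_of_eq2 : ¬ X p a b c a := fun h => (X_ne h).2.2.2.1 rfl
theorem not_X_of_eq3 : ¬ X p a b b d := fun h => (X_ne h).2.2.2.2.1 rfl
theorem not_X_of_eq4 : ¬ X p a b c b := fun h => (X_ne h).2.2.2.2.2 rfl

theorem InTri_mir {x : α} : InTri (mir p) a b c x ↔ InTri p a b c x := by
  unfold InTri; simp only [o_mir]
  constructor
  · rintro (⟨h1, h2, h3⟩ | ⟨h1, h2, h3⟩)
    · right; exact ⟨by linarith, by linarith, by linarith⟩
    · left; exact ⟨by linarith, by linarith, by linarith⟩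
  · rintro (⟨h1, h2, h3⟩ | ⟨h1, h2, h3⟩)
    · right; exact ⟨by linarith, by linarith, by linarith⟩
    · left; exact ⟨by linarith, by linarith, by linarith⟩

theorem InTri_pos {x : α} (h : InTri p a b c x) (h0 : 0 < o p a b c) :
    0 < o p a b x ∧ 0 < o p b c x ∧ 0 < o p c a x := by
  rcases h with h | ⟨h1, h2, h3⟩
  · exact h
  · exfalso
    have := o_add p a b c x
    linarith

end

section
variable {p : α → ℝ × ℝ} {E E' : α → α → Prop}

theorem GP_mir (h : GP p) : GP (mir p) := by
  refine ⟨?_, ?_⟩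
  · intro a b hab
    apply h.inj
    simp only [mir, Prod.mk.injEq] at hab
    exact Prod.ext hab.2 hab.1
  · intro a b c h1 h2 h3
    rw [o_mir]
    exact neg_ne_zero.mpr (h.ne a b c h1 h2 h3)

theorem Plane_mir : Plane (mir p) E ↔ Plane p E := by
  unfold Plane; simp only [X_mir]

theorem Vis_mir {x y : α} : Vis (mir p) E x y ↔ Vis p E x y := by
  unfold Vis; simp only [X_mir]

theorem Centre_mir {T : Set α} {y : α} : Centre (mir p) T y ↔ Centre p T y := by
  unfold Centre
  simp only [X_mir, InTri_mir, o_mir, neg_pos, Left.neg_neg_iff]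
  constructor
  · rintro ⟨k, u, w, h1, h2, h3, h4, h5⟩
    exact ⟨k, u, w, h1, h2, h3, h4, h5.symm⟩
  · rintro ⟨k, u, w, h1, h2, h3, h4, h5⟩
    exact ⟨k, u, w, h1, h2, h3, h4, h5.symm⟩

theorem Centre_mono {T T' : Set α} {y : α} (h : T ⊆ T') (hc : Centre p T y) : Centre p T' y := by
  obtain ⟨k, u, w, h1, h2, h3, h4, h5⟩ := hc
  exact ⟨k, u, w, h1, h2, fun i hi => ⟨h (h3 i hi).1, h (h3 i hi).2.1, (h3 i hi).2.2⟩, h4, h5⟩

theorem Vis_comm {x y : α} : Vis p E x y ↔ Vis p E y x := by
  unfold Vis
  exact ⟨fun h c d hcd hX => h c d hcd (X_sw1.1 hX), fun h c d hcd hX => h c d hcd (X_sw1.1 hX)⟩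

theorem Vis_mono {x y : α} (h : ∀ a b, E' a b → E a b) (hv : Vis p E x y) : Vis p E' x y :=
  fun c d hcd => hv c d (h c d hcd)

theorem Plane_mono (h : ∀ a b, E' a b → E a b) (hv : Plane p E) : Plane p E' :=
  fun a b c d hab hcd => hv a b c d (h a b hab) (h c d hcd)

theorem Vis_of_edge (hp : Plane p E) {x y : α} (h : E x y) : Vis p E x y :=
  fun c d hcd => hp x y c d h hcd

theorem Vis_self {x : α} : Vis p E x x := fun _ _ _ hX => (X_ne hX).1 rfl

end

/-! ### barycentric identity and crossing point -/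

section
variable (p : α → ℝ × ℝ)

/-- `o e f` is affine: barycentric expansion with respect to the triangle `a, b, c` -/
theorem o_bary (a b c e f x : α) :
    o p a b c * o p e f x = o p b c x * o p e f a + o p c a x * o p e f b +
      o p a b x * o p e f c := by
  unfold o; ring

/-- products of cross products (Plücker): `o y e q` in the coordinates of the triangle
`y, u, w` -/
theorem o_det (y u w e q : α) :
    o p y u w * o p y e q = o p w y e * o p y u q - o p y u e * o p w y q := by
  unfold o; ring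

end

section
variable {p : α → ℝ × ℝ} {a b c d : α}

/-- the crossing point of two crossing segments -/
theorem X_param (h : X p a b c d) : ∃ t τ : ℝ, 0 < t ∧ t < 1 ∧ 0 < τ ∧ τ < 1 ∧
    ∀ u v : α, (1 - t) * o p u v a + t * o p u v b = (1 - τ) * o p u v c + τ * o p u v d := by
  obtain ⟨h1, h2⟩ := h
  have hne1 : o p a b c - o p a b d ≠ 0 := by
    intro h0
    have : o p a b c = o p a b d := by linarith
    rw [this] at h1
    nlinarith [mul_self_nonneg (o p a b d)]
  have hne2 : o p c d a - o p c d b ≠ 0 := by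
    intro h0
    have : o p c d a = o p c d b := by linarith
    rw [this] at h2
    nlinarith [mul_self_nonneg (o p c d b)]
  have key : ∀ s r : ℝ, s * r < 0 → 0 < s / (s - r) ∧ s / (s - r) < 1 := by
    intro s r hsr
    rcases mul_neg_iff.1 hsr with ⟨hs, hr⟩ | ⟨hs, hr⟩
    · have : 0 < s - r := by linarith
      exact ⟨div_pos hs this, by rw [div_lt_one this]; linarith⟩
    · have : s - r < 0 := by linarith
      exact ⟨div_pos_of_neg_of_neg hs this, by rw [div_lt_one_of_neg this]; linarith⟩
  obtain ⟨k1, k2⟩ := key _ _ h1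
  obtain ⟨k3, k4⟩ := key _ _ h2
  refine ⟨o p c d a / (o p c d a - o p c d b), o p a b c / (o p a b c - o p a b d),
    k3, k4, k1, k2, ?_⟩
  intro u v
  field_simp
  unfold o
  ring

end

end FPW
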