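import Pool.Agent.Lib.MP_deef39_co_PW.Defs

/-! # PW module CLem: a pinwheel centre is surrounded

`clem`. Let `u, w, k` be the pinwheel around `y`, say `0 < o y (u i) (w i)` for all `i < k` (the
other case via `mir`: `Centre_mir`, `InTri_mir`, `cr (-r.2) (-r.1)` for the mirrored points is
`cr r`; or repeat with signs). By `InTri_pos`, `0 < o y (u i) (u (i+1))` for `i < k`. Suppose that
`0 ≤ φ(t) := cr r (p y) (p t)` for all points `t = u (i+1)`, `i < k` (they satisfy the first two
conditions of the conclusion); as `u k = u 0` this holds for all `u i`, `i ≤ k`. Put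
`ψ(t) := r.1 * ((p t).1 - (p y).1) + r.2 * ((p t).2 - (p y).2)`. Identity (ring):
`(r.1^2 + r.2^2) * o y a b = ψ(a) φ(b) - φ(a) ψ(b)`; so
`ψ(u i) φ(u (i+1)) - φ(u i) ψ(u (i+1)) > 0` for `i < k`.
* No `φ(u i)` is zero: if `φ(u i) = 0` with `i < k`, then `ψ(u i) φ(u (i+1)) > 0`, so `ψ(u i) > 0`;
  and for the predecessor (`i - 1`, or `k - 1` if `i = 0`, as `u k = u 0`):
  `- φ(u (i-1)) ψ(u i) > 0`, so `ψ(u i) < 0`: contradiction.
* So all `φ(u i) > 0` and `ψ(u i) / φ(u i) > ψ(u (i+1)) / φ(u (i+1))` for `i < k`; the chain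
  `0, 1, …, k` with `u k = u 0`, `k > 0` gives a contradiction.

`clem_side`: in particular for every `r ≠ 0` there is a point of `T` with `0 < cr r (p y) (p t)`
(apply `clem` to `-r`).
-/

set_option autoImplicit false

namespace FPW

variable {α : Type*} {p : α → ℝ × ℝ}

private theorem clem_seq {k : ℕ} (hk : 0 < k) (φ ψ : ℕ → ℝ) (h1 : φ k = φ 0) (h2 : ψ k = ψ 0)
    (h3 : ∀ i ≤ k, 0 ≤ φ i) (h4 : ∀ i < k, 0 < ψ i * φ (i + 1) - φ i * ψ (i + 1)) : False := by
  have hpos : ∀ i ≤ k, 0 < φ i := by
    have key : ∀ j < k, 0 < φ (j + 1) := by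
      intro j hj
      rcases (h3 (j + 1) hj).lt_or_eq with h | h
      · exact h
      · exfalso
        have h5 := h4 j hj
        rw [← h] at h5
        have h6 : ψ (j + 1) < 0 := by
          by_contra h7
          push Not at h7
          have := mul_nonneg (h3 j hj.le) h7
          linarith
        have h8 : 0 < ψ (j + 1) := by
          rcases Nat.lt_or_ge (j + 1) k with h9 | h9
          · have h10 := h4 (j + 1) h9
            rw [← h] at h10
            by_contra h11
            push Not at h11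
            have := mul_nonneg (neg_nonneg.2 h11) (h3 (j + 1 + 1) h9)
            linarith
          · have h12 : j + 1 = k := by omega
            have h10 := h4 0 hk
            rw [h12, h1] at h
            rw [h12, h2]
            rw [← h] at h10
            by_contra h11
            push Not at h11
            have := mul_nonneg (neg_nonneg.2 h11) (h3 (0 + 1) hk)
            linarith
        linarith
    intro i hi
    rcases i with _ | i
    · have := key (k - 1) (by omega)
      rw [show k - 1 + 1 = k by omega, h1] at this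
      exact this
    · exact key i hi
  have hρ : ∀ i < k, ψ (i + 1) / φ (i + 1) < ψ i / φ i := by
    intro i hi
    rw [div_lt_div_iff₀ (hpos (i + 1) hi) (hpos i hi.le)]
    have := h4 i hi
    linarith
  have hlt : ∀ i, i < k → ψ (i + 1) / φ (i + 1) < ψ 0 / φ 0 := by
    intro i
    induction i with
    | zero => exact fun h => hρ 0 h
    | succ n ih => exact fun h => (hρ (n + 1) h).trans (ih (by omega))
  have := hlt (k - 1) (by omega)
  rw [show k - 1 + 1 = k by omega, h1, h2] at this
  exact lt_irrefl _ this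

theorem clem {T : Set α} {y : α} (h : Centre p T y) (r : ℝ × ℝ) (hr : r ≠ 0) :
    ∃ t ∈ T, (∃ a ∈ T, ∃ b ∈ T, InTri p y a b t) ∧ cr r (p y) (p t) < 0 := by
  obtain ⟨k, u, w, hk, huk, hT, _, hor⟩ := h
  by_contra hno
  push Not at hno
  have hr2 : 0 < r.1 ^ 2 + r.2 ^ 2 := by
    have h0 : r.1 ≠ 0 ∨ r.2 ≠ 0 := by
      by_contra hc
      push Not at hc
      exact hr (Prod.ext hc.1 hc.2)
    rcases h0 with h0 | h0
    · have h1 : 0 < r.1 ^ 2 := by positivity
      nlinarith [sq_nonneg r.2]
    · have h1 : 0 < r.2 ^ 2 := by positivity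
      nlinarith [sq_nonneg r.1]
  have hmem : ∀ i < k, u (i + 1) ∈ T := by
    intro i hi
    rcases Nat.lt_or_ge (i + 1) k with h9 | h9
    · exact (hT (i + 1) h9).1
    · rw [show i + 1 = k by omega, huk]
      exact (hT 0 hk).1
  have hφ1 : ∀ i < k, 0 ≤ cr r (p y) (p (u (i + 1))) := fun i hi =>
    hno _ (hmem i hi) ⟨u i, (hT i hi).1, w i, (hT i hi).2.1, (hT i hi).2.2⟩
  have hφ : ∀ i ≤ k, 0 ≤ cr r (p y) (p (u i)) := by
    intro i hi
    rcases i with _ | i
    · have := hφ1 (k - 1) (by omega)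
      rw [show k - 1 + 1 = k by omega, huk] at this
      exact this
    · exact hφ1 i hi
  have hid : ∀ a b, (r.1 ^ 2 + r.2 ^ 2) * o p y a b =
      (r.1 * ((p a).1 - (p y).1) + r.2 * ((p a).2 - (p y).2)) * cr r (p y) (p b) -
        cr r (p y) (p a) * (r.1 * ((p b).1 - (p y).1) + r.2 * ((p b).2 - (p y).2)) := by
    intro a b
    unfold o cr
    ring
  rcases hor with hor | hor
  · refine clem_seq hk (fun i => cr r (p y) (p (u i)))
      (fun i => r.1 * ((p (u i)).1 - (p y).1) + r.2 * ((p (u i)).2 - (p y).2))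
      (by simp only [huk]) (by simp only [huk]) hφ ?_
    intro i hi
    have h1 := mul_pos hr2 (InTri_pos (hT i hi).2.2 (hor i hi)).1
    rw [hid] at h1
    exact h1
  · refine clem_seq hk (fun i => cr r (p y) (p (u i)))
      (fun i => -(r.1 * ((p (u i)).1 - (p y).1) + r.2 * ((p (u i)).2 - (p y).2)))
      (by simp only [huk]) (by simp only [huk]) hφ ?_
    intro i hi
    have h2 : o p y (u i) (u (i + 1)) < 0 := by
      rcases (hT i hi).2.2 with ⟨h3, h4, h5⟩ | ⟨h3, _, _⟩
      · have h6 := o_add p y (u i) (w i) (u (i + 1))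
        have h7 := hor i hi
        linarith
      · exact h3
    have h1 := mul_pos_of_neg_of_neg (neg_lt_zero.2 hr2) h2
    rw [neg_mul, hid] at h1
    change 0 < -(r.1 * ((p (u i)).1 - (p y).1) + r.2 * ((p (u i)).2 - (p y).2)) *
      cr r (p y) (p (u (i + 1))) - cr r (p y) (p (u i)) *
      -(r.1 * ((p (u (i + 1))).1 - (p y).1) + r.2 * ((p (u (i + 1))).2 - (p y).2))
    linarith

theorem clem_side {T : Set α} {y : α} (h : Centre p T y) (r : ℝ × ℝ) (hr : r ≠ 0) :
    ∃ t ∈ T, 0 < cr r (p y) (p t) := by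
  obtain ⟨t, ht, _, h1⟩ := clem h (-r) (neg_ne_zero.2 hr)
  refine ⟨t, ht, ?_⟩
  have h2 : cr (-r) (p y) (p t) = -cr r (p y) (p t) := by
    unfold cr
    simp only [Prod.fst_neg, Prod.snd_neg]
    ring
  rw [h2] at h1
  linarith

end FPW
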