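import Pool.Agent.Lib.MP_deef39_co_PW.WLem

/-! # PW module NLem: an edge with both ends visible, if `y` is not a pinwheel centre

`V` is a set of points, `y ∉ V`, `E` a plane symmetric set of edges on `V`.

`nstep_core`. Suppose no edge has both ends visible from `y` (hypothesis `hno`), and every visible
vertex has an edge. Let `u ∈ V` be visible with an edge `u w'`, `0 < o p y u w'`. Let
`N = {b | E u b ∧ 0 < o p y u b}` (nonempty, finite). By `first_exists` applied to `mir p`, apex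
`u`, ray through `y` (for `b ∈ N`: `0 < o (mir p) u y b`), there is `w ∈ N` with `o p u w b < 0`
for all `b ∈ N`, `b ≠ w`. Let `Z = {x ∈ V | InTri p y u w x}`.

Claim: if `q = w` or `InTri p y u w q`, and an edge `c d` of `E` crosses `y q`, then
`c ∈ Z ∧ 0 < o p y c q` or `d ∈ Z ∧ 0 < o p y d q`. Proof: if `c, d ≠ u` this is `g1b` (`y` sees
`u`; `u w` is an edge of the plane set `E`). If `c = u` (the case `d = u` is symmetric):
`X p y q u d` and `0 < o p y u q`; from the crossing (`X_param`: with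
`(1-t) o y u y + t o y u q = (1-τ) o y u u + τ o y u d`) we get `0 < o p y u d`, so `d ∈ N`; `d = w`
or `o p u w d < 0`; but `X_param` with `(u, w)`: `(1-t) o u w y + t o u w q = τ o u w d`, the left
hand side is positive (`o u w y = o y u w > 0`, `o u w q ≥ 0`), the right side is `≤ 0`:
contradiction.

Now `w` is not visible (`hno`, as `u` is visible), so some edge `c d` crosses `y w`, and the claim
for `q = w` shows that `Z` is nonempty. By `first_exists` (apex `y`, ray through `u`) there is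
`q ∈ Z` with `0 < o p y q x` for all other `x ∈ Z`. By the claim `q` is visible from `y` (an edge
crossing `y q` would give `x ∈ Z` with `0 < o p y x q`, contradiction). By `hinc` there is an edge
`q b`; `b` is not visible. `o p y q b ≠ 0` (`q, b, y` distinct). If `o p y q b < 0`: `b ≠ u` (as `u`
is visible, `b` is not), so by `g1c` (`y u` not crossed by `q b` as `u` is visible; `u w`, `q b`
both in the plane set `E`) `b ∈ Z` and `0 < o p y b q`: contradiction to the choice of `q`. So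
`0 < o p y q b`.

`nlem_pos`. Iterate `nstep_core`: on the finite type `α` the sequence `u₀, u₁, …` (with `w_i`),
defined by choice on the subtype of the visible `u ∈ V` having an edge `u w'` with
`0 < o p y u w'`, repeats: `u_i = u_j`, `i < j`. The shifted sequence is a pinwheel with
`k = j - i`: `Centre p V y` (`E` is plane; the `u`'s are visible). (The `w_i` must be a function of
`u_i`; choose `w` and `q` as functions on the subtype.)

`nlem`. By contradiction assume no edge has both ends visible. `V` nonempty, so by `vis_exists` some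
`u ∈ V` is visible; it has an edge `u w`, `o p y u w ≠ 0`. If positive use `nlem_pos`; if negative
use `nlem_pos` for `mir p` (`GP_mir, Plane_mir, Vis_mir, Centre_mir, o_mir`).
-/

set_option autoImplicit false

namespace FPW

variable {α : Type*} {p : α → ℝ × ℝ}

/-- an edge crossing `y q`, where `q = w` or `q` lies in the triangle, has an end in the triangle
before `q` -/
private theorem nlem_claim (hgp : GP p) {V : Set α} {y : α}
    {E : α → α → Prop} (hs : ∀ a b, E a b → E b a) (hp : Plane p E)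
    (hE : ∀ a b, E a b → a ∈ V ∧ a ≠ b) {u w : α} (hv : Vis p E y u) (hw : E u w)
    (hpos : 0 < o p y u w) (hmin : ∀ b, E u b → 0 < o p y u b → b ≠ w → o p u w b < 0)
    {q c d : α} (hq : q = w ∨ InTri p y u w q) (hcd : E c d) (hX : X p y q c d) :
    (c ∈ V ∧ InTri p y u w c ∧ 0 < o p y c q) ∨ (d ∈ V ∧ InTri p y u w d ∧ 0 < o p y d q) := by
  have hyuq : 0 < o p y u q := by
    rcases hq with rfl | hq
    · exact hpos
    · exact (InTri_pos hq hpos).1
  have huwq : 0 ≤ o p u w q := by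
    rcases hq with rfl | hq
    · simp
    · exact (InTri_pos hq hpos).2.1.le
  have hkey : ∀ d, E u d → X p y q u d → False := by
    intro d hud hX
    obtain ⟨t, τ, ht0, ht1, hτ0, hτ1, h⟩ := X_param hX
    have h1 := h y u
    have h2 := h u w
    simp only [o_self2, o_self3, mul_zero, zero_add] at h1 h2
    have h3 : 0 < τ * o p y u d := by rw [← h1]; exact mul_pos ht0 hyuq
    have h4 : 0 < o p y u d := (mul_pos_iff_of_pos_left hτ0).1 h3
    have h5 : o p u w d ≤ 0 := by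
      by_cases hdw : d = w
      · rw [hdw]; simp
      · exact (hmin d hud h4 hdw).le
    have h6 : 0 < o p u w y := by rw [o_rot p y u w]; exact hpos
    have h7 : 0 < (1 - t) * o p u w y := mul_pos (by linarith) h6
    have h8 : 0 ≤ t * o p u w q := mul_nonneg ht0.le huwq
    have h9 : τ * o p u w d ≤ 0 := mul_nonpos_of_nonneg_of_nonpos hτ0.le h5
    linarith
  by_cases hc : c = u
  · subst hc
    exact (hkey d hcd hX).elim
  by_cases hd : d = u
  · subst hd
    exact (hkey c (hs _ _ hcd) (X_sw2.1 hX)).elim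
  rcases g1b hgp hpos hq hX hc hd (hv c d hcd) (hp u w c d hw hcd) with ⟨h1, h2⟩ | ⟨h1, h2⟩
  · exact Or.inl ⟨(hE c d hcd).1, h1, h2⟩
  · exact Or.inr ⟨(hE d c (hs _ _ hcd)).1, h1, h2⟩

theorem nstep_core [Finite α] (hgp : GP p) {V : Set α} {y : α} (hyV : y ∉ V)
    {E : α → α → Prop} (hs : ∀ a b, E a b → E b a) (hp : Plane p E)
    (hE : ∀ a b, E a b → a ∈ V ∧ a ≠ b)
    (hinc : ∀ u ∈ V, Vis p E y u → ∃ w, E u w)
    (hno : ∀ c d, E c d → Vis p E y c → ¬ Vis p E y d)
    {u : α} (hu : u ∈ V) (hv : Vis p E y u) (hw : ∃ w, E u w ∧ 0 < o p y u w) :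
    ∃ w q, E u w ∧ 0 < o p y u w ∧ InTri p y u w q ∧ q ∈ V ∧ Vis p E y q ∧
      ∃ b, E q b ∧ 0 < o p y q b := by
  obtain ⟨w, ⟨hwE, hwpos⟩, hwmin⟩ := first_exists (GP_mir hgp) (z := u) (r := y)
    (Z := {b | E u b ∧ 0 < o p y u b}) hw (fun x hx => by
      rw [o_mir, o_swap]
      simpa using hx.2)
  have hmin : ∀ b, E u b → 0 < o p y u b → b ≠ w → o p u w b < 0 := by
    intro b h1 h2 h3
    have h4 := hwmin b ⟨h1, h2⟩ h3
    rw [o_mir] at h4
    linarith
  have hclaim : ∀ q c d : α, (q = w ∨ InTri p y u w q) → E c d → X p y q c d →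
      (c ∈ V ∧ InTri p y u w c ∧ 0 < o p y c q) ∨ (d ∈ V ∧ InTri p y u w d ∧ 0 < o p y d q) :=
    fun q c d hq hcd hX => nlem_claim hgp hs hp hE hv hwE hwpos hmin hq hcd hX
  have hZne : {x | x ∈ V ∧ InTri p y u w x}.Nonempty := by
    have h1 : ¬ Vis p E y w := hno u w hwE hv
    unfold Vis at h1
    push Not at h1
    obtain ⟨c, d, hcd, hX⟩ := h1
    rcases hclaim w c d (Or.inl rfl) hcd hX with ⟨h1, h2, _⟩ | ⟨h1, h2, _⟩
    · exact ⟨c, h1, h2⟩
    · exact ⟨d, h1, h2⟩
  obtain ⟨q, ⟨hqV, hqT⟩, hqmin⟩ := first_exists hgp (z := y) (r := u)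
    (Z := {x | x ∈ V ∧ InTri p y u w x}) hZne (fun x hx => (InTri_pos hx.2 hwpos).1)
  have hfirst : ∀ x, x ∈ V → InTri p y u w x → ¬ 0 < o p y x q := by
    intro x h1 h2 h3
    have hne : x ≠ q := by
      rintro rfl
      simp at h3
    have h4 := hqmin x ⟨h1, h2⟩ hne
    rw [o_swap'] at h4
    linarith
  have hqv : Vis p E y q := by
    intro c d hcd hX
    rcases hclaim q c d (Or.inr hqT) hcd hX with ⟨h1, h2, h3⟩ | ⟨h1, h2, h3⟩
    · exact hfirst c h1 h2 h3
    · exact hfirst d h1 h2 h3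
  obtain ⟨b, hb⟩ := hinc q hqV hqv
  refine ⟨w, q, hwE, hwpos, hqT, hqV, hqv, b, hb, ?_⟩
  have hbV : b ∈ V := (hE b q (hs _ _ hb)).1
  have hne : o p y q b ≠ 0 := by
    refine hgp.ne y q b ?_ (hE q b hb).2 ?_
    · rintro rfl
      exact hyV hqV
    · rintro rfl
      exact hyV hbV
  by_contra hcon
  have hneg : o p y q b < 0 := lt_of_le_of_ne (not_lt.1 hcon) hne
  have hbu : b ≠ u := by
    rintro rfl
    exact hno q b hb hqv hv
  obtain ⟨h1, h2⟩ := g1c hgp hwpos hqT hneg hbu (hv q b hb) (hp u w q b hwE hb)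
  exact hfirst b hbV h1 h2

theorem nlem_pos [Finite α] (hgp : GP p) {V : Set α} {y : α} (hyV : y ∉ V)
    {E : α → α → Prop} (hs : ∀ a b, E a b → E b a) (hp : Plane p E)
    (hE : ∀ a b, E a b → a ∈ V ∧ a ≠ b)
    (hinc : ∀ u ∈ V, Vis p E y u → ∃ w, E u w)
    (hno : ∀ c d, E c d → Vis p E y c → ¬ Vis p E y d)
    {u : α} (hu : u ∈ V) (hv : Vis p E y u) (hw : ∃ w, E u w ∧ 0 < o p y u w) :
    Centre p V y := by
  have hstep : ∀ s : {u : α // u ∈ V ∧ Vis p E y u ∧ ∃ w, E u w ∧ 0 < o p y u w},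
      ∃ w q, E s.1 w ∧ 0 < o p y s.1 w ∧ InTri p y s.1 w q ∧ q ∈ V ∧ Vis p E y q ∧
        ∃ b, E q b ∧ 0 < o p y q b :=
    fun s => nstep_core hgp hyV hs hp hE hinc hno s.2.1 s.2.2.1 s.2.2.2
  choose W Q h1 h2 h3 h4 h5 h6 using hstep
  obtain ⟨f, hf0⟩ : ∃ f : ℕ → {u : α // u ∈ V ∧ Vis p E y u ∧ ∃ w, E u w ∧ 0 < o p y u w},
      ∀ n, (f (n + 1)).1 = Q (f n) :=
    ⟨fun n => Nat.rec ⟨u, hu, hv, hw⟩ (fun _ s => ⟨Q s, h4 s, h5 s, h6 s⟩) n, fun n => rfl⟩
  obtain ⟨i, j, hij, hfij⟩ : ∃ i j : ℕ, i < j ∧ f i = f j := by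
    obtain ⟨i, j, hne, heq⟩ := Finite.exists_ne_map_eq_of_infinite f
    rcases lt_or_gt_of_ne hne with h | h
    · exact ⟨i, j, h, heq⟩
    · exact ⟨j, i, h, heq.symm⟩
  refine ⟨j - i, fun n => (f (i + n)).1, fun n => W (f (i + n)), by omega, ?_, ?_, ?_, Or.inl ?_⟩
  · change (f (i + (j - i))).1 = (f (i + 0)).1
    rw [Nat.add_sub_cancel' hij.le, Nat.add_zero, hfij]
  · intro n _
    refine ⟨(f (i + n)).2.1, (hE _ _ (hs _ _ (h1 (f (i + n))))).1, ?_⟩
    change InTri p y (f (i + n)).1 (W (f (i + n))) (f (i + n + 1)).1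
    rw [hf0]
    exact h3 _
  · intro n _ m _
    exact ⟨hp _ _ _ _ (h1 _) (h1 _), (f (i + n)).2.2.1 _ _ (h1 _)⟩
  · intro n _
    exact h2 _

theorem nlem [Finite α] (hgp : GP p) {V : Set α} (hne : V.Nonempty) {y : α} (hyV : y ∉ V)
    {E : α → α → Prop} (hs : ∀ a b, E a b → E b a) (hp : Plane p E)
    (hE : ∀ a b, E a b → a ∈ V ∧ a ≠ b)
    (hinc : ∀ u ∈ V, Vis p E y u → ∃ w, E u w)
    (hC : ¬ Centre p V y) : ∃ c d, E c d ∧ Vis p E y c ∧ Vis p E y d := by
  by_contra hcon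
  have hno : ∀ c d, E c d → Vis p E y c → ¬ Vis p E y d :=
    fun c d h1 h2 h3 => hcon ⟨c, d, h1, h2, h3⟩
  obtain ⟨u, hu, hv⟩ := vis_exists hgp hne hyV hs hp (fun a b h => (hE a b h).1)
  obtain ⟨w, hw⟩ := hinc u hu hv
  have hwV : w ∈ V := (hE w u (hs _ _ hw)).1
  have h0 : o p y u w ≠ 0 := by
    refine hgp.ne y u w ?_ (hE u w hw).2 ?_
    · rintro rfl
      exact hyV hu
    · rintro rfl
      exact hyV hwV
  rcases lt_or_gt_of_ne h0 with h | h
  · refine hC (Centre_mir.1 (nlem_pos (GP_mir hgp) hyV hs (Plane_mir.2 hp) hE ?_ ?_ hu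
      (Vis_mir.2 hv) ⟨w, hw, ?_⟩))
    · intro v h1 h2
      exact hinc v h1 (Vis_mir.1 h2)
    · intro c d h1 h2 h3
      exact hno c d h1 (Vis_mir.1 h2) (Vis_mir.1 h3)
    · rw [o_mir]
      linarith
  · exact hC (nlem_pos hgp hyV hs hp hE hinc hno hu hv ⟨w, hw, h⟩)

end FPW
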