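import Pool.Agent.Lib.MP_deef39_co_PW.MLem
import Pool.Agent.Lib.MP_deef39_co_PW.NLem

/-! # PW module NStep: a rotation lifts if `y` is not a pinwheel centre

`Q₀ → Q₁`: pivot `v`, end `z`, `Q₀ = A ++ v :: (B ++ [z])`, `Q₁ = A ++ v :: z :: B.reverse`, and `z`
sees `v` with respect to `EO Q₀ O`. Let `E a b := EO Q₀ O a b ∨ (a = v ∧ b = z) ∨ (a = z ∧ b = v)`.
`E` is symmetric and plane, its edges have end points in `V := {x | x ∈ Q₀ ∨ x ∈ G}` and `a ≠ b`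
(for `v ≠ z` use `Q₀.Nodup`), `y ∉ V`. Every `u ∈ V` which `y` sees with respect to `E` lies in `Q₀`
(otherwise `u ∈ G` contradicts `hgv`, as `E ⊇ EO Q₀ O`), and has an edge by `ed_exists`. So `nlem`
(with `hC` and `Centre_mono`) gives an edge `c d` of `E` with `y` seeing `c` and `d` with respect to
`E`; both lie in `Q₀`, so by `hw.gh` (and `hgv`) `c d` is not an obstacle.
* `Ed Q₀ c d`: `m₀` := insertion of `y` (`ins_exists`), a lift of `Q₀`. `par`: (i) `m₁` insertion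
  into `c d` in `Q₁`, `RotL v z m₀ m₁`; it is a lift of `Q₁` because `EO Q₁ O ⊆ E` (`rotL_ed`);
  (ii) `RotL v z m₀ (Q₁ ++ [y])`, `Q₁ = A' ++ [e]` with `e ∈ {c, d}`: again a lift of `Q₁`.
  `Vis p (EO m₀ O) z v`: by `ins_ed` the edges of `m₀` are edges of `Q₀` (not crossing `z v`) or
  `y c`, `y d`, which do not cross `z v` as `v z ∈ E` and `y` sees `c, d` with respect to `E`.
* `{c, d} = {v, z}`: `m₀ := Q₀ ++ [y]`, a lift (`y` sees `z`). Rotation at `v` with end `y`: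
  `Q₀ ++ [y] = A ++ v :: ((B ++ [z]) ++ [y]) → A ++ v :: y :: (B ++ [z]).reverse =
  A ++ v :: y :: z :: B.reverse =: m₁`, the insertion of `y` into `v z` in `Q₁`, a lift of `Q₁`.
  It is allowed: `y` sees `v` with respect to `E`, and the additional edge `z y` of `Q₀ ++ [y]`
  shares `y`.
-/

set_option autoImplicit false

namespace FPW

variable {α : Type*} {p : α → ℝ × ℝ}

theorem nstep [Finite α] (hgp : GP p) {G : Set α} {O : α → α → Prop} {y : α}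
    {Q₀ Q₁ : List α} (hw : Wd p Q₀ G O) (hyQ : y ∉ Q₀) (hyG : y ∉ G) (hlen : 2 ≤ Q₀.length)
    (hgv : ∀ g ∈ G, ¬ Vis p (EO Q₀ O) y g)
    {T : Set α} (hT : ∀ x, x ∈ Q₀ ∨ x ∈ G → x ∈ T) (hC : ¬ Centre p T y)
    (hrot : Rot p O Q₀ Q₁) :
    ∃ m₀ m₁, LiftP p O y Q₀ m₀ ∧ LiftP p O y Q₁ m₁ ∧ Rot p O m₀ m₁ := by
  obtain ⟨v, z, hR, hvis⟩ := hrot
  have hR' := hR
  obtain ⟨A, B, hQ0, hQ1⟩ := hR
  have hvz : v ≠ z := by
    intro h
    have hn := hw.nodup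
    rw [hQ0, List.nodup_append] at hn
    have h2 := hn.2.1
    rw [List.nodup_cons] at h2
    exact h2.1 (by rw [h]; simp)
  have hvQ : v ∈ Q₀ := by rw [hQ0]; simp
  have hzQ : z ∈ Q₀ := by rw [hQ0]; simp
  let E : α → α → Prop := fun a b => EO Q₀ O a b ∨ (a = v ∧ b = z) ∨ (a = z ∧ b = v)
  have hEO : ∀ a b, EO Q₀ O a b → E a b := fun a b h => Or.inl h
  have hEs : ∀ a b, E a b → E b a := by
    intro a b h
    rcases h with h | ⟨h1, h2⟩ | ⟨h1, h2⟩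
    · rcases h with h | h
      · exact Or.inl (Or.inl (ed_symm h))
      · exact Or.inl (Or.inr (hw.symm _ _ h))
    · exact Or.inr (Or.inr ⟨h2, h1⟩)
    · exact Or.inr (Or.inl ⟨h2, h1⟩)
  have hEp : Plane p E := by
    intro a b c d hab hcd hX
    rcases hab with hab | ⟨h1, h2⟩ | ⟨h1, h2⟩
    · rcases hcd with hcd | ⟨h3, h4⟩ | ⟨h3, h4⟩
      · exact hw.plane a b c d hab hcd hX
      · subst h3; subst h4
        exact hvis a b hab (X_comm.1 (X_sw2.1 hX))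
      · subst h3; subst h4
        exact hvis a b hab (X_comm.1 hX)
    · subst h1; subst h2
      rcases hcd with hcd | ⟨h3, h4⟩ | ⟨h3, h4⟩
      · exact hvis c d hcd (X_sw1.1 hX)
      · subst h3; subst h4; exact not_X_of_eq1 hX
      · subst h3; subst h4; exact not_X_of_eq2 hX
    · subst h1; subst h2
      rcases hcd with hcd | ⟨h3, h4⟩ | ⟨h3, h4⟩
      · exact hvis c d hcd hX
      · subst h3; subst h4; exact not_X_of_eq2 hX
      · subst h3; subst h4; exact not_X_of_eq1 hX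
  have hEV : ∀ a b, E a b → a ∈ {x | x ∈ Q₀ ∨ x ∈ G} ∧ a ≠ b := by
    intro a b h
    rcases h with h | ⟨h1, h2⟩ | ⟨h1, h2⟩
    · rcases h with h | h
      · exact ⟨Or.inl (ed_mem h), ed_ne hw.nodup h⟩
      · exact ⟨hw.mem _ _ h, hw.irr _ _ h⟩
    · rw [h1, h2]; exact ⟨Or.inl hvQ, hvz⟩
    · rw [h1, h2]; exact ⟨Or.inl hzQ, hvz.symm⟩
  have hyV : y ∉ {x | x ∈ Q₀ ∨ x ∈ G} := by
    rintro (h | h)
    · exact hyQ h
    · exact hyG h
  have hG' : ∀ g ∈ G, ¬ Vis p E y g := fun g hg hv => hgv g hg (Vis_mono hEO hv)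
  have hinc : ∀ u ∈ {x | x ∈ Q₀ ∨ x ∈ G}, Vis p E y u → ∃ w, E u w := by
    intro u hu hv
    rcases hu with hu | hu
    · obtain ⟨w, hw'⟩ := ed_exists hu hlen
      exact ⟨w, Or.inl (Or.inl hw')⟩
    · exact absurd hv (hG' u hu)
  have hC' : ¬ Centre p {x | x ∈ Q₀ ∨ x ∈ G} y := fun h => hC (Centre_mono (fun x hx => hT x hx) h)
  obtain ⟨c, d, hcd, hvc, hvd⟩ := nlem hgp ⟨v, Or.inl hvQ⟩ hyV hEs hEp hEV hinc hC'
  have hQ1E : ∀ a b, EO Q₁ O a b → E a b := by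
    intro a b h
    rcases h with h | h
    · rcases rotL_ed hR' h with h | h | h
      · exact Or.inl (Or.inl h)
      · exact Or.inr (Or.inl h)
      · exact Or.inr (Or.inr h)
    · exact Or.inl (Or.inr h)
  have hmain : ∀ c d, Ed Q₀ c d → Vis p E y c → Vis p E y d →
      ∃ m₀ m₁, LiftP p O y Q₀ m₀ ∧ LiftP p O y Q₁ m₁ ∧ Rot p O m₀ m₁ := by
    intro c d hcd hvc hvd
    obtain ⟨m₀, hm₀⟩ := ins_exists y hcd
    have hvm : Vis p (EO m₀ O) z v := by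
      intro a b hab hX
      rcases hab with hab | hab
      · rcases ins_ed hm₀ hab with h | ⟨h1, h2⟩ | ⟨h1, h2⟩
        · exact hvis a b (Or.inl h) hX
        · subst h1
          rcases h2 with h2 | h2
          · subst h2; exact hvc z v (Or.inr (Or.inr ⟨rfl, rfl⟩)) (X_comm.1 hX)
          · subst h2; exact hvd z v (Or.inr (Or.inr ⟨rfl, rfl⟩)) (X_comm.1 hX)
        · subst h1
          rcases h2 with h2 | h2
          · subst h2; exact hvc z v (Or.inr (Or.inr ⟨rfl, rfl⟩)) (X_sw1.1 (X_comm.1 hX))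
          · subst h2; exact hvd z v (Or.inr (Or.inr ⟨rfl, rfl⟩)) (X_sw1.1 (X_comm.1 hX))
      · exact hvis a b (Or.inr hab) hX
    have hL0 : LiftP p O y Q₀ m₀ :=
      Or.inr ⟨c, d, hm₀, Vis_mono hEO hvc, Vis_mono hEO hvd⟩
    rcases par hw.nodup hR' hm₀ with ⟨m', hm', hRm⟩ | ⟨hRm, A', e, hQ', he⟩
    · exact ⟨m₀, m', hL0, Or.inr ⟨c, d, hm', Vis_mono hQ1E hvc, Vis_mono hQ1E hvd⟩,
        v, z, hRm, hvm⟩
    · refine ⟨m₀, Q₁ ++ [y], hL0, Or.inl ⟨A', e, hQ', rfl, ?_⟩, v, z, hRm, hvm⟩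
      rcases he with ⟨_, h2⟩ | ⟨h1, _⟩
      · rw [← h2]; exact Vis_comm.1 (Vis_mono hQ1E hvd)
      · rw [← h1]; exact Vis_comm.1 (Vis_mono hQ1E hvc)
  have hlast : Vis p E y v → Vis p E y z →
      ∃ m₀ m₁, LiftP p O y Q₀ m₀ ∧ LiftP p O y Q₁ m₁ ∧ Rot p O m₀ m₁ := by
    intro hv1 hv2
    have hQ0' : Q₀ = (A ++ v :: B) ++ [z] := by rw [hQ0]; simp
    refine ⟨Q₀ ++ [y], A ++ v :: y :: z :: B.reverse,
      Or.inl ⟨A ++ v :: B, z, hQ0', rfl, Vis_comm.1 (Vis_mono hEO hv2)⟩,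
      Or.inr ⟨v, z, ⟨A, B.reverse, Or.inl ⟨hQ1, rfl⟩⟩, Vis_mono hQ1E hv1, Vis_mono hQ1E hv2⟩,
      v, y, ⟨A, B ++ [z], ?_, ?_⟩, ?_⟩
    · rw [hQ0]; simp
    · simp
    · intro a b hab hX
      rcases hab with hab | hab
      · rw [hQ0', ed_snoc] at hab
        rcases hab with hab | ⟨h1, h2⟩ | ⟨h1, h2⟩
        · rw [← hQ0'] at hab
          exact hv1 a b (Or.inl (Or.inl hab)) hX
        · subst h1; subst h2; exact not_X_of_eq2 hX
        · subst h1; subst h2; exact not_X_of_eq1 hX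
      · exact hv1 a b (Or.inl (Or.inr hab)) hX
  rcases hcd with hcd | ⟨h1, h2⟩ | ⟨h1, h2⟩
  · rcases hcd with hcd | hcd
    · exact hmain c d hcd hvc hvd
    · exfalso
      rcases hw.gh c d hcd with h | h
      · exact hG' c h hvc
      · exact hG' d h hvd
  · subst h1; subst h2; exact hlast hvc hvd
  · subst h1; subst h2; exact hlast hvd hvc

end FPW
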