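import Pool.Agent.Lib.MP_deef39_co_PW.HEnd
import Pool.Agent.Lib.MP_deef39_co_PW.NStep
import Pool.Agent.Lib.MP_deef39_co_PW.CLem

/-! # PW module ConnU: connectivity of the plane paths on a point set under `U`

Induction on the length `n` of `l`. `n ≤ 1`: `l = l'`. `n = 2`: `l' = l` or `l' = l.reverse`.
`n ≥ 3`: choose `x ∈ l` with `(p x).1` maximal (`T = {t | t ∈ l}` finite, nonempty). `x` is not a
pinwheel centre of `T`: `clem` with `r = (0, 1)` would give `t ∈ T` with `cr r (p x) (p t) =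
(p x).1 - (p t).1 < 0`. By `hend`: `l ~ Q ++ [x]`, `l' ~ Q' ++ [x]` (`~` reachable by `U`,
symmetric on plane paths by `u_symm`); `Q, Q'` are permutations of each other, plane, without
duplicates, of length `n - 1 ≥ 2`: by induction `ReflTransGen (U p) Q Q'`.
Invariant for every `Q₀` with `ReflTransGen (U p) Q Q₀`:
`∃ m, LiftP p NO x Q₀ m ∧ ReflTransGen (U p) (Q ++ [x]) m`. Base: `Q ++ [x]` (`Q = A ++ [z]`,
`z x` is an edge of the plane path `Q ++ [x]`, so `z` sees `x`). Any two lifts `m, m'` of `Q₀` are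
connected: `mlem` with `G = ∅`, `O = NO` (`Wd p Q₀ ∅ NO`), where `hIH` is `htg`; `Goal p m ∅ NO` is
impossible. Step `Q₀ → Q₁`:
* rotation: `nstep` (`G = ∅`, `O = NO`, `T = {t | t ∈ l}`): lifts `m₀` of `Q₀`, `m₁` of `Q₁`,
  `Rot m₀ m₁`; `m ~ m₀`.
* reversal `Q₁ = Q₀.reverse`: `nlem` for `V = {t | t ∈ Q₀}`, `E = Ed Q₀` (every vertex has an edge,
  `ed_exists`; `Centre_mono`) gives an edge `c d` of `Q₀` with both ends visible from `x`; let
  `m₀` be the insertion of `x` there (`ins_exists`), `m ~ m₀`, and `m₀.reverse` is the insertion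
  into `Q₀.reverse` (`ins_reverse`), a lift of `Q₁` (`ed_reverse`).
At `Q₀ = Q'`: the lift `m` and the lift `Q' ++ [x]` are connected by `mlem`. So
`Q ++ [x] ~ Q' ++ [x]`.
-/

set_option autoImplicit false

namespace FPW

variable {α : Type*} {p : α → ℝ × ℝ}

private theorem cu_reach {l l' : List α} (h : Reach p NO l l') :
    Relation.ReflTransGen (U p) l l' := by
  induction h with
  | refl => exact Relation.ReflTransGen.refl
  | tail _ h2 ih => exact ih.tail (Or.inl h2)

private theorem cu_vis {l : List α} {x y : α} (h : Vis p (Ed l) x y) :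
    Vis p (EO l NO) x y :=
  Vis_mono (fun _ _ hab => eo_no.1 hab) h

private theorem cu_last {Q : List α} {x : α} (hne : Q ≠ []) (hp : Plane p (Ed (Q ++ [x]))) :
    LiftP p NO x Q (Q ++ [x]) := by
  rcases List.eq_nil_or_concat Q with rfl | ⟨A, z, rfl⟩
  · exact absurd rfl hne
  · rw [List.concat_eq_append] at hp ⊢
    refine Or.inl ⟨A, z, rfl, rfl, ?_⟩
    have hed : Ed ((A ++ [z]) ++ [x]) z x := by
      rw [ed_snoc]
      exact Or.inr (Or.inl ⟨rfl, rfl⟩)
    apply cu_vis
    refine Vis_mono ?_ (Vis_of_edge hp hed)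
    intro a b hab
    rw [ed_snoc]
    exact Or.inl hab

private theorem cu_wd {Q : List α} (hn : Q.Nodup) (hne : Q ≠ []) (hp : Plane p (Ed Q)) :
    Wd p Q ∅ NO where
  nodup := hn
  ne := hne
  disj := fun _ _ h => h.elim
  symm := fun _ _ h => h.elim
  gh := fun _ _ h => h.elim
  mem := fun _ _ h => h.elim
  irr := fun _ _ h => h.elim
  plane := plane_no.2 hp

private theorem cu_conn
    (htg : ∀ (l : List α) (G : Set α) (O : α → α → Prop), Wd p l G O → G.Nonempty →
      Goal p l G O)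
    {Q m m' : List α} {x : α} (hn : Q.Nodup) (hne : Q ≠ []) (hp : Plane p (Ed Q)) (hx : x ∉ Q)
    (h : LiftP p NO x Q m) (h' : LiftP p NO x Q m') : Relation.ReflTransGen (U p) m m' := by
  rcases mlem (cu_wd hn hne hp) hx (Set.notMem_empty x) (fun G' O' hw' hG' => htg Q G' O' hw' hG')
    h h' with h1 | ⟨_, _, g, _, hg, _⟩
  · exact cu_reach h1
  · exact hg.elim

private theorem cu_main [Finite α] (hgp : GP p)
    (htg : ∀ (l : List α) (G : Set α) (O : α → α → Prop), Wd p l G O → G.Nonempty →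
      Goal p l G O)
    {Q : List α} {x : α} {T : Set α} (hT : ∀ t ∈ Q, t ∈ T) (hC : ¬ Centre p T x)
    (hn : Q.Nodup) (h2 : 2 ≤ Q.length) (hx : x ∉ Q) (hp : Plane p (Ed (Q ++ [x])))
    (hpQ : Plane p (Ed Q)) {Q₀ : List α} (hQ : Relation.ReflTransGen (U p) Q Q₀) :
    ∃ m, LiftP p NO x Q₀ m ∧ Relation.ReflTransGen (U p) (Q ++ [x]) m := by
  have hne : Q ≠ [] := by
    rintro rfl
    simp at h2
  induction hQ with
  | refl => exact ⟨Q ++ [x], cu_last hne hp, Relation.ReflTransGen.refl⟩
  | @tail Q₀ Q₁ hQ₀ hstep ih =>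
    obtain ⟨m, hm, hqm⟩ := ih
    have hperm : Q₀.Perm Q := u_perm hQ₀
    have hn₀ : Q₀.Nodup := hperm.symm.nodup hn
    have hx₀ : x ∉ Q₀ := fun h => hx (hperm.mem_iff.1 h)
    have h2₀ : 2 ≤ Q₀.length := by rw [hperm.length_eq]; exact h2
    have hne₀ : Q₀ ≠ [] := by
      rintro rfl
      simp at h2₀
    have hp₀ : Plane p (Ed Q₀) := u_plane hpQ hQ₀
    rcases hstep with hrot | rfl
    · obtain ⟨m₀, m₁, h₀, h₁, hr⟩ := nstep hgp (cu_wd hn₀ hne₀ hp₀) hx₀ (Set.notMem_empty x) h2₀
        (fun g hg => hg.elim) (T := T)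
        (fun t ht => by
          rcases ht with ht | ht
          · exact hT t (hperm.mem_iff.1 ht)
          · exact ht.elim) hC hrot
      exact ⟨m₁, h₁, (hqm.trans (cu_conn htg hn₀ hne₀ hp₀ hx₀ hm h₀)).tail (Or.inl hr)⟩
    · have hVT : {t | t ∈ Q₀} ⊆ T := fun t ht => hT t (hperm.mem_iff.1 ht)
      obtain ⟨c, d, hcd, hc, hd⟩ := nlem hgp (V := {t | t ∈ Q₀}) (y := x) (E := Ed Q₀)
        (by
          obtain ⟨t, ht⟩ := List.exists_mem_of_ne_nil Q₀ hne₀
          exact ⟨t, ht⟩)
        hx₀ (fun a b h => ed_symm h) hp₀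
        (fun a b h => ⟨ed_mem h, ed_ne hn₀ h⟩)
        (fun u hu _ => ed_exists hu h2₀)
        (fun h => hC (Centre_mono hVT h))
      obtain ⟨m₀, hm₀⟩ := ins_exists x hcd
      have h₀ : LiftP p NO x Q₀ m₀ := Or.inr ⟨c, d, hm₀, cu_vis hc, cu_vis hd⟩
      have h₁ : LiftP p NO x Q₀.reverse m₀.reverse := by
        refine Or.inr ⟨c, d, ins_reverse hm₀, cu_vis ?_, cu_vis ?_⟩
        · exact Vis_mono (fun a b h => ed_reverse.1 h) hc
        · exact Vis_mono (fun a b h => ed_reverse.1 h) hd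
      exact ⟨m₀.reverse, h₁,
        (hqm.trans (cu_conn htg hn₀ hne₀ hp₀ hx₀ hm h₀)).tail (Or.inr rfl)⟩

theorem connU [Finite α] (hgp : GP p)
    (htg : ∀ (l : List α) (G : Set α) (O : α → α → Prop), Wd p l G O → G.Nonempty →
      Goal p l G O)
    {l l' : List α} (hn : l.Nodup) (hperm : l'.Perm l) (hp : Plane p (Ed l))
    (hp' : Plane p (Ed l')) : Relation.ReflTransGen (U p) l l' := by
  obtain ⟨n, hlen⟩ : ∃ n, l.length = n := ⟨_, rfl⟩
  induction n using Nat.strong_induction_on generalizing l l' with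
  | _ n ih =>
  subst hlen
  rcases Nat.lt_or_ge l.length 3 with hlt | hge
  · match l, hlt, hn, hperm with
    | [], _, _, hperm =>
      rw [List.perm_nil.1 hperm]
    | [a], _, _, hperm =>
      rw [List.perm_singleton.1 hperm]
    | [a, b], _, _, hperm =>
      have h2 : l'.length = 2 := hperm.length_eq
      match l', h2, hperm with
      | [c, d], _, hperm =>
        have hc : c = a ∨ c = b := by
          have : c ∈ [a, b] := hperm.mem_iff.1 (by simp)
          simpa using this
        rcases hc with rfl | rfl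
        · have h3 : [d].Perm [b] := (List.perm_cons c).1 hperm
          have h4 : [d] = [b] := List.perm_singleton.1 h3
          have h5 : d = b := by simpa using h4
          subst h5
          exact Relation.ReflTransGen.refl
        · have h3 : [c, d].Perm [c, a] := hperm.trans (List.Perm.swap c a [])
          have h4 : [d].Perm [a] := (List.perm_cons c).1 h3
          have h5 : d = a := by simpa using List.perm_singleton.1 h4
          subst h5
          exact Relation.ReflTransGen.single (Or.inr rfl)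
  · have hne : l ≠ [] := by
      rintro rfl
      simp at hge
    obtain ⟨x, hx, hmax⟩ : ∃ x ∈ l, ∀ t ∈ l, (p t).1 ≤ (p x).1 := by
      have hfin : ({t | t ∈ l} : Set α).Finite := Set.toFinite _
      obtain ⟨t₀, ht₀⟩ := List.exists_mem_of_ne_nil l hne
      obtain ⟨x, hx, hmx⟩ := Set.exists_max_image {t | t ∈ l} (fun t => (p t).1) hfin ⟨t₀, ht₀⟩
      exact ⟨x, hx, hmx⟩
    have hC : ¬ Centre p {t | t ∈ l} x := by
      intro h
      obtain ⟨t, ht, _, hcr⟩ := clem h (0, 1) (by simp)
      have h1 := hmax t ht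
      unfold cr at hcr
      simp only at hcr
      linarith
    have hx' : x ∈ l' := hperm.mem_iff.2 hx
    have hn' : l'.Nodup := hperm.symm.nodup hn
    obtain ⟨Q, hQ⟩ := hend htg hn hp hx
    obtain ⟨Q', hQ'⟩ := hend htg hn' hp' hx'
    have hq1 : (Q ++ [x]).Perm l := u_perm hQ
    have hq1' : (Q' ++ [x]).Perm l' := u_perm hQ'
    have hq2 : (Q' ++ [x]).Perm (Q ++ [x]) := (hq1'.trans hperm).trans hq1.symm
    have hq3 : Q'.Perm Q := (List.perm_append_right_iff [x]).1 hq2
    have hpx : Plane p (Ed (Q ++ [x])) := u_plane hp hQ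
    have hpx' : Plane p (Ed (Q' ++ [x])) := u_plane hp' hQ'
    have hnx : (Q ++ [x]).Nodup := hq1.symm.nodup hn
    have hnQ : Q.Nodup := (List.nodup_append.1 hnx).1
    have hxQ : x ∉ Q := by
      intro h
      exact (List.nodup_append.1 hnx).2.2 x h x (by simp) rfl
    have hlen : Q.length + 1 = l.length := by
      have := hq1.length_eq
      simpa using this
    have hpQ : ∀ {R : List α}, Plane p (Ed (R ++ [x])) → Plane p (Ed R) := by
      intro R hR
      refine Plane_mono ?_ hR
      intro a b hab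
      rcases List.eq_nil_or_concat R with rfl | ⟨A, z, rfl⟩
      · exact hab.elim
      · rw [List.concat_eq_append] at hab ⊢
        rw [ed_snoc]
        exact Or.inl hab
    have hQQ' : Relation.ReflTransGen (U p) Q Q' :=
      ih Q.length (by omega) hnQ hq3 (hpQ hpx) (hpQ hpx') rfl
    have hTQ : ∀ t ∈ Q, t ∈ {t | t ∈ l} := by
      intro t ht
      exact hq1.mem_iff.1 (by simp [ht])
    obtain ⟨m, hm, hqm⟩ := cu_main hgp htg hTQ hC hnQ (by omega) hxQ hpx (hpQ hpx) hQQ'
    have hnQ' : Q'.Nodup := hq3.symm.nodup hnQ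
    have hneQ' : Q' ≠ [] := by
      rintro rfl
      have := hq3.length_eq
      simp at this
      omega
    have hxQ' : x ∉ Q' := fun h => hxQ (hq3.mem_iff.1 h)
    have hfin : Relation.ReflTransGen (U p) m (Q' ++ [x]) :=
      cu_conn htg hnQ' hneQ' (hpQ hpx') hxQ' hm (cu_last hneQ' hpx')
    exact ((hQ.trans hqm).trans hfin).trans (u_symm hp' hQ')

end FPW
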