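import Pool.Agent.Lib.MP_deef39_co_PW.Defs

/-! # PW module VLem: visible points inside a triangle

`z` sees `u` and `v` (with respect to the plane set `E`, whose end points lie in `T`), and some
point `t ∈ T` lies strictly inside the triangle `z u v`. Then `z` sees a point of `T` strictly
inside this triangle.

By `mir` (or symmetry `InTri p z u v x ↔ InTri p z v u x`) assume `D := o z u v > 0`; then (by
`InTri_pos`) inside means `x0(x) := o u v x > 0`, `x1(x) := o v z x > 0`, `x2(x) := o z u x > 0`.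
Note `x0 + x1 + x2 = D` (`o_add`). Choose `q ∈ T` inside with `x0(q)` maximal (finite set). Suppose
an edge `c d ∈ E` crosses `z q`. `X_param`: `t, τ ∈ (0,1)`;
`x0(s) := (1-t) D + t x0(q) = (1-τ) x0(c) + τ x0(d)`, so `x0(s) > x0(q)` (as `x0(q) < D`), and one
of `c, d`, call it `e` (the other one `f`), has `x0(e) > x0(q) > 0`. Also
`x1(s) = t x1(q) > 0`, `x2(s) = t x2(q) > 0` are convex combinations of the values at `e`, `f`.
`e ∈ T`, so by maximality `e` is not inside: `x1(e) ≤ 0` or `x2(e) ≤ 0`; these are not zero, since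
`e ≠ z` (`X_ne`) and `e ≠ u, v` (`x0(u) = x0(v) = 0`) and general position. Put `K = o e f z`,
`U = o e f u`, `V = o e f v`; `K ≠ 0`, `K * o e f q < 0` (as `e f` crosses `z q`), and
`D * o e f x = x0(x) K + x1(x) U + x2(x) V` (`o_bary`). If `x2(e) < 0` then `x2(f) > 0`, and since
`z` sees `u`: `K * U ≥ 0`. If `x1(e) < 0` then `x1(f) > 0` and since `z` sees `v`: `K * V ≥ 0`.
* Both negative: `D * K * o e f q = x0(q) K² + x1(q) K U + x2(q) K V > 0`: contradiction.
* `x2(e) < 0 < x1(e)`: `0 = K * (x0(e) K + x1(e) U + x2(e) V)` with `x0(e) K² > 0`,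
  `x1(e) K U ≥ 0`, so `K V > 0`, and again `D * K * o e f q > 0`: contradiction.
* `x1(e) < 0 < x2(e)`: symmetric.
-/

set_option autoImplicit false

namespace FPW

variable {α : Type*} {p : α → ℝ × ℝ}

private theorem vlem_alg {D K U V Q q0 q1 q2 : ℝ} (hD : 0 < D) (hq0 : 0 < q0) (hq1 : 0 < q1)
    (hq2 : 0 < q2) (hKQ : K * Q < 0) (hb : D * Q = q0 * K + q1 * U + q2 * V)
    (hU : 0 ≤ K * U) (hV : 0 ≤ K * V) : False := by
  have hK : K ≠ 0 := by
    rintro rfl
    simp at hKQ
  have h1 : 0 < K * K := mul_self_pos.2 hK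
  have h2 : D * (K * Q) = q0 * (K * K) + q1 * (K * U) + q2 * (K * V) := by
    linear_combination K * hb
  have h3 : D * (K * Q) < 0 := mul_neg_of_pos_of_neg hD hKQ
  have h4 : 0 < q0 * (K * K) := mul_pos hq0 h1
  have h5 : 0 ≤ q1 * (K * U) := mul_nonneg hq1.le hU
  have h6 : 0 ≤ q2 * (K * V) := mul_nonneg hq2.le hV
  linarith

private theorem vlem_sg {l m a b : ℝ} (hl : 0 < l) (hm : 0 < m) (h : 0 < l * a + m * b)
    (ha : a < 0) : 0 < b := by
  by_contra hc
  push Not at hc
  have h1 : l * a < 0 := mul_neg_of_pos_of_neg hl ha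
  have h2 : m * b ≤ 0 := mul_nonpos_of_nonneg_of_nonpos hm.le hc
  linarith

private theorem vlem_core (hgp : GP p) {T : Set α} {z u v q : α} {E : α → α → Prop}
    (hE : ∀ a b, E a b → a ∈ T) (hu : Vis p E z u) (hv : Vis p E z v) (hD : 0 < o p z u v)
    (hq : InTri p z u v q)
    (hmax : ∀ x ∈ T, InTri p z u v x → o p u v x ≤ o p u v q) {e f : α} (hef : E e f)
    (hX : X p z q e f) (he : o p u v q < o p u v e) {l m : ℝ} (hl : 0 < l) (hm : 0 < m)
    (h1 : 0 < l * o p v z e + m * o p v z f) (h2 : 0 < l * o p z u e + m * o p z u f) :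
    False := by
  obtain ⟨q2, q0, q1⟩ := InTri_pos hq hD
  have hn := X_ne hX
  have e0 : 0 < o p u v e := q0.trans he
  have hzu : z ≠ u := by
    rintro rfl
    simp at hD
  have hzv : z ≠ v := by
    rintro rfl
    simp at hD
  have heu : u ≠ e := by
    rintro rfl
    simp at e0
  have hev : v ≠ e := by
    rintro rfl
    simp at e0
  have hx1 : o p v z e ≠ 0 := hgp.ne v z e hzv.symm hn.2.2.1 hev
  have hx2 : o p z u e ≠ 0 := hgp.ne z u e hzu heu hn.2.2.1
  have hKQ : o p e f z * o p e f q < 0 := hX.2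
  have hbq := o_bary p z u v e f q
  have hbe := o_bary p z u v e f e
  rw [o_self2, mul_zero] at hbe
  have hK : o p e f z ≠ 0 := by
    intro h0
    rw [h0, zero_mul] at hKQ
    exact lt_irrefl _ hKQ
  have hKK : 0 < o p e f z * o p e f z := mul_self_pos.2 hK
  have hmul : 0 = o p u v e * (o p e f z * o p e f z) + o p v z e * (o p e f z * o p e f u) +
      o p z u e * (o p e f z * o p e f v) := by
    linear_combination o p e f z * hbe
  have A : o p z u e < 0 → 0 ≤ o p e f z * o p e f u := by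
    intro g
    by_contra hc
    push Not at hc
    exact hu e f hef ⟨mul_neg_of_neg_of_pos g (vlem_sg hl hm h2 g), hc⟩
  have B : o p v z e < 0 → 0 ≤ o p e f z * o p e f v := by
    intro g
    by_contra hc
    push Not at hc
    refine hv e f hef ⟨?_, hc⟩
    rw [o_swap p v z e, o_swap p v z f, neg_mul_neg]
    exact mul_neg_of_neg_of_pos g (vlem_sg hl hm h1 g)
  have t1 := mul_pos e0 hKK
  rcases lt_or_gt_of_ne hx2 with g2 | g2
  · rcases lt_or_gt_of_ne hx1 with g1 | g1
    · exact vlem_alg hD q0 q1 q2 hKQ hbq (A g2) (B g1)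
    · refine vlem_alg hD q0 q1 q2 hKQ hbq (A g2) ?_
      by_contra hc
      push Not at hc
      have t2 := mul_nonneg (le_of_lt g1) (A g2)
      have t3 := mul_pos_of_neg_of_neg g2 hc
      linarith
  · rcases lt_or_gt_of_ne hx1 with g1 | g1
    · refine vlem_alg hD q0 q1 q2 hKQ hbq ?_ (B g1)
      by_contra hc
      push Not at hc
      have t2 := mul_nonneg (le_of_lt g2) (B g1)
      have t3 := mul_pos_of_neg_of_neg g1 hc
      linarith
    · have h5 := hmax e (hE e f hef) (Or.inl ⟨g2, e0, g1⟩)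
      linarith

private theorem vlem_pos [Finite α] (hgp : GP p) {T : Set α} {z u v : α} {E : α → α → Prop}
    (hs : ∀ a b, E a b → E b a) (hE : ∀ a b, E a b → a ∈ T)
    (hu : Vis p E z u) (hv : Vis p E z v) {t : α} (ht : t ∈ T) (hin : InTri p z u v t)
    (hD : 0 < o p z u v) : ∃ q ∈ T, Vis p E z q ∧ InTri p z u v q := by
  obtain ⟨q, ⟨hqT, hq⟩, hmax⟩ := Set.exists_max_image {x | x ∈ T ∧ InTri p z u v x}
    (fun x => o p u v x) (Set.toFinite _) ⟨t, ht, hin⟩
  have hmax' : ∀ x ∈ T, InTri p z u v x → o p u v x ≤ o p u v q :=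
    fun x hx hx' => hmax x ⟨hx, hx'⟩
  refine ⟨q, hqT, ?_, hq⟩
  intro c d hcd hX
  obtain ⟨q2, q0, q1⟩ := InTri_pos hq hD
  obtain ⟨s, r, s0, s1, r0, r1, hpr⟩ := X_param hX
  have w0 := hpr u v
  have w1 := hpr v z
  have w2 := hpr z u
  rw [o_rot p z u v] at w0
  rw [o_self3, mul_zero, zero_add] at w1
  rw [o_self2, mul_zero, zero_add] at w2
  have hadd := o_add p z u v q
  have k1 : 0 < (1 - s) * (o p z u v - o p u v q) := mul_pos (by linarith) (by linarith)
  have k2 : 0 < s * o p v z q := mul_pos s0 q1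
  have k3 : 0 < s * o p z u q := mul_pos s0 q2
  have r1' : 0 < 1 - r := by linarith
  by_cases hc : o p u v q < o p u v c
  · exact vlem_core hgp hE hu hv hD hq hmax' hcd hX hc r1' r0 (by linarith) (by linarith)
  · push Not at hc
    have hd : o p u v q < o p u v d := by
      by_contra hd
      push Not at hd
      have k4 : 0 ≤ (1 - r) * (o p u v q - o p u v c) := mul_nonneg r1'.le (by linarith)
      have k5 : 0 ≤ r * (o p u v q - o p u v d) := mul_nonneg r0.le (by linarith)
      nlinarith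
    exact vlem_core hgp hE hu hv hD hq hmax' (hs c d hcd) (X_sw2.1 hX) hd r0 r1'
      (by linarith) (by linarith)

theorem vlem [Finite α] (hgp : GP p) {T : Set α} {z u v : α} {E : α → α → Prop}
    (hs : ∀ a b, E a b → E b a) (hp : Plane p E) (hE : ∀ a b, E a b → a ∈ T)
    (hu : Vis p E z u) (hv : Vis p E z v) {t : α} (ht : t ∈ T) (hin : InTri p z u v t) :
    ∃ q ∈ T, Vis p E z q ∧ InTri p z u v q := by
  have hne : o p z u v ≠ 0 := by
    have hadd := o_add p z u v t
    rcases hin with ⟨h1, h2, h3⟩ | ⟨h1, h2, h3⟩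
    · exact ne_of_gt (by linarith)
    · exact ne_of_lt (by linarith)
  rcases lt_or_gt_of_ne hne with h | h
  · have h' : 0 < o (mir p) z u v := by
      rw [o_mir]
      linarith
    obtain ⟨q, hqT, hq1, hq2⟩ := vlem_pos (GP_mir hgp) hs hE (Vis_mir.2 hu) (Vis_mir.2 hv) ht
      (InTri_mir.2 hin) h'
    exact ⟨q, hqT, Vis_mir.1 hq1, InTri_mir.1 hq2⟩
  · exact vlem_pos hgp hs hE hu hv ht hin h

end FPW
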