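import Pool.Agent.Lib.MP_deef39_co_PW.WLem
import Pool.Agent.Lib.MP_deef39_co_PW.VLem

/-! # PW module LemE: a surrounded point which sees at most three points

`z` sees (in `T`, besides `z` itself) at most the points `a, b, c`, and every open half-plane with
`z` on the boundary contains a point of `T`.

Step 0: by `wlem` and `hside` every open half-plane `0 < cr r z ·` (`r ≠ 0`) contains a visible point
of `T`, which is `≠ z`, so one of `a, b, c`.
Step 1: none of `a, b, c` equals `z` and they are pairwise different. First: at least one point is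
`≠ z`; let e.g. `a ≠ z`; `r := p a - p z ≠ 0` (`hgp.inj`), `cr r z a = 0`; the half-planes for `r`
and `-r` contain one of `b, c` each, and not the same one (`cr (-r) = - cr r`), so `b, c ≠ z`,
`b ≠ c`, both visible, and `cr r z b`, `cr r z c` have opposite signs, `cr r z x = o z a x`.
The same for `b` in place of `a`: `a, c` are visible, `a ≠ c` and `o z b a`, `o z b c` have
opposite signs. Hence `o z a b`, `o z b c`, `o z c a` have the same sign, all three are visible,
and `InTri p a b c z` (`o p a b z = o p z a b` etc.: `o_rot`).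
Step 2: suppose `t ∈ T`, `t ≠ z`, `InTri p a b c t`. `t ≠ a, b, c` (`o_self`). By symmetry (mirror)
let `o z a b, o z b c, o z c a > 0`. The three rays from `z` through `a, b, c` divide the plane
into three open cones (general position: `o z a t ≠ 0` etc.): `t` is in one of them, e.g.
`0 < o z a t`, `0 < o z t b`: then `InTri p z a b t` (`0 < o a b t` from `InTri p a b c t` and
`o a b c > 0`). (If `o z a t > 0`: either `o z b t < 0`, done, or `o z b t > 0`, and then if
`o z c t < 0`: `t` in the cone `b c`; if `o z c t > 0`: by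
`o z b c • (a-z) + o z c a • (b-z) + o z a b • (c-z) = 0` (ring) the three numbers `o z a t`,
`o z b t`, `o z c t` satisfy `o z b c * o z a t + o z c a * o z b t + o z a b * o z c t = 0`,
so they are not all positive. Similarly not all negative. The other cases are cyclic.)
By `vlem` there is a visible point `q ∈ T` with `InTri p z a b q`, so `q ∈ {a, b, c}`, `q ≠ z`; but
`InTri p z a b a`, `InTri p z a b b` are impossible (`o_self`), and `InTri p z a b c` means
`0 < o z a c`, contradiction to `o z c a > 0`.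
-/

set_option autoImplicit false

namespace FPW

variable {α : Type*} {p : α → ℝ × ℝ}

private theorem lemE_aux1 {z x y w : α} {E : α → α → Prop} (hgp : GP p)
    (H : ∀ r : ℝ × ℝ, r ≠ 0 → ∃ u, (u = x ∨ u = y ∨ u = w) ∧ Vis p E z u ∧
      0 < cr r (p z) (p u)) (hx : x ≠ z) :
    Vis p E z y ∧ Vis p E z w ∧ y ≠ z ∧ w ≠ z ∧
      ((0 < o p z x y ∧ o p z x w < 0) ∨ (o p z x y < 0 ∧ 0 < o p z x w)) := by
  have hr : ((p x).1 - (p z).1, (p x).2 - (p z).2) ≠ 0 := by
    intro h
    rw [Prod.mk_eq_zero] at h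
    exact hx (hgp.inj (Prod.ext (by linarith [h.1]) (by linarith [h.2])))
  have hr' : (-((p x).1 - (p z).1), -((p x).2 - (p z).2)) ≠ 0 := by
    intro h
    rw [Prod.mk_eq_zero] at h
    exact hx (hgp.inj (Prod.ext (by linarith [h.1]) (by linarith [h.2])))
  obtain ⟨u, hu, hv, h1⟩ := H _ hr
  obtain ⟨u', hu', hv', h2⟩ := H _ hr'
  rw [← o_eq_cr] at h1
  have h3 : cr (-((p x).1 - (p z).1), -((p x).2 - (p z).2)) (p z) (p u') = - o p z x u' := by
    unfold cr o
    ring
  rw [h3, neg_pos] at h2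
  have hne : ∀ s, o p z x s ≠ 0 → s ≠ z := by
    rintro s hs rfl
    exact hs (o_self2 p s x)
  rcases hu with rfl | rfl | rfl
  · rw [o_self3] at h1
    exact absurd h1 (lt_irrefl _)
  · rcases hu' with rfl | rfl | rfl
    · rw [o_self3] at h2
      exact absurd h2 (lt_irrefl _)
    · exact absurd h1 (not_lt.2 h2.le)
    · exact ⟨hv, hv', hne _ h1.ne', hne _ h2.ne, Or.inl ⟨h1, h2⟩⟩
  · rcases hu' with rfl | rfl | rfl
    · rw [o_self3] at h2
      exact absurd h2 (lt_irrefl _)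
    · exact ⟨hv', hv, hne _ h2.ne, hne _ h1.ne', Or.inr ⟨h2, h1⟩⟩
    · exact absurd h1 (not_lt.2 h2.le)

private theorem lemE_aux3 [Finite α] (hgp : GP p) {T : Set α} {z a b c t : α}
    {E : α → α → Prop} (hs : ∀ a b, E a b → E b a) (hp : Plane p E) (hE : ∀ a b, E a b → a ∈ T)
    (h3 : 0 < o p z c a) (hD : 0 < o p a b c) (hva : Vis p E z a) (hvb : Vis p E z b)
    (hvis : ∀ t ∈ T, t ≠ z → Vis p E z t → t = a ∨ t = b ∨ t = c)
    (ht : t ∈ T) (hα : 0 < o p z a t) (hβ : o p z b t < 0) (hab : 0 < o p a b t) : False := by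
  have hin : InTri p z a b t := Or.inl ⟨hα, hab, by rw [o_swap]; linarith⟩
  obtain ⟨q, hq, hqv, hqi⟩ := vlem hgp hs hp hE hva hvb ht hin
  have hqz : q ≠ z := by
    rintro rfl
    rcases hqi with ⟨h, -, -⟩ | ⟨h, -, -⟩
    · rw [o_self2] at h
      exact lt_irrefl _ h
    · rw [o_self2] at h
      exact lt_irrefl _ h
  rcases hvis q hq hqz hqv with rfl | rfl | rfl
  · rcases hqi with ⟨h, -, -⟩ | ⟨h, -, -⟩
    · rw [o_self3] at h
      exact lt_irrefl _ h
    · rw [o_self3] at h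
      exact lt_irrefl _ h
  · rcases hqi with ⟨-, h, -⟩ | ⟨-, h, -⟩
    · rw [o_self3] at h
      exact lt_irrefl _ h
    · rw [o_self3] at h
      exact lt_irrefl _ h
  · rcases hqi with ⟨h, -, -⟩ | ⟨-, h, -⟩
    · rw [o_swap'] at h
      linarith
    · linarith

private theorem lemE_aux2 [Finite α] (hgp : GP p) {T : Set α} {z a b c t : α}
    {E : α → α → Prop} (hs : ∀ a b, E a b → E b a) (hp : Plane p E) (hE : ∀ a b, E a b → a ∈ T)
    (h1 : 0 < o p z a b) (h2 : 0 < o p z b c) (h3 : 0 < o p z c a)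
    (hva : Vis p E z a) (hvb : Vis p E z b) (hvc : Vis p E z c)
    (hvis : ∀ t ∈ T, t ≠ z → Vis p E z t → t = a ∨ t = b ∨ t = c)
    (ht : t ∈ T) (htz : t ≠ z) (hin : InTri p a b c t) : False := by
  have hD : 0 < o p a b c := by
    rw [o_add p a b c z, o_rot p z a b, o_rot p z b c, o_rot p z c a]
    linarith
  obtain ⟨k1, k2, k3⟩ := InTri_pos hin hD
  have hza : z ≠ a := by
    rintro rfl
    rw [o_self1] at h1
    exact lt_irrefl _ h1
  have hzb : z ≠ b := by
    rintro rfl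
    rw [o_self1] at h2
    exact lt_irrefl _ h2
  have hzc : z ≠ c := by
    rintro rfl
    rw [o_self1] at h3
    exact lt_irrefl _ h3
  have hat : a ≠ t := by
    rintro rfl
    rw [o_self2] at k1
    exact lt_irrefl _ k1
  have hbt : b ≠ t := by
    rintro rfl
    rw [o_self3] at k1
    exact lt_irrefl _ k1
  have hct : c ≠ t := by
    rintro rfl
    rw [o_self3] at k2
    exact lt_irrefl _ k2
  have n1 := hgp.ne z a t hza hat htz.symm
  have n2 := hgp.ne z b t hzb hbt htz.symm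
  have n3 := hgp.ne z c t hzc hct htz.symm
  have key : o p z b c * o p z a t + o p z c a * o p z b t + o p z a b * o p z c t = 0 := by
    unfold o
    ring
  have A := lemE_aux3 (t := t) hgp hs hp hE h3 hD hva hvb hvis ht
  have B := lemE_aux3 (t := t) (a := b) (b := c) (c := a) hgp hs hp hE h1
    (by rw [o_rot]; exact hD) hvb hvc (fun t h4 h5 h6 => by
      rcases hvis t h4 h5 h6 with h | h | h
      · exact Or.inr (Or.inr h)
      · exact Or.inl h
      · exact Or.inr (Or.inl h)) ht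
  have C := lemE_aux3 (t := t) (a := c) (b := a) (c := b) hgp hs hp hE h2
    (by rw [o_rot']; exact hD) hvc hva (fun t h4 h5 h6 => by
      rcases hvis t h4 h5 h6 with h | h | h
      · exact Or.inr (Or.inl h)
      · exact Or.inr (Or.inr h)
      · exact Or.inl h) ht
  rcases lt_or_gt_of_ne n1 with m1 | m1
  · rcases lt_or_gt_of_ne n3 with m3 | m3
    · rcases lt_or_gt_of_ne n2 with m2 | m2
      · nlinarith [mul_pos h2 (neg_pos.2 m1), mul_pos h3 (neg_pos.2 m2),
          mul_pos h1 (neg_pos.2 m3)]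
      · exact B m2 m3 k2
    · exact C m3 m1 k3
  · rcases lt_or_gt_of_ne n2 with m2 | m2
    · exact A m1 m2 k1
    · rcases lt_or_gt_of_ne n3 with m3 | m3
      · exact B m2 m3 k2
      · nlinarith [mul_pos h2 m1, mul_pos h3 m2, mul_pos h1 m3]

theorem lemE [Finite α] (hgp : GP p) {T : Set α} {z a b c : α} {E : α → α → Prop}
    (hs : ∀ a b, E a b → E b a) (hp : Plane p E) (hE : ∀ a b, E a b → a ∈ T)
    (hside : ∀ r : ℝ × ℝ, r ≠ 0 → ∃ t ∈ T, 0 < cr r (p z) (p t))
    (hvis : ∀ t ∈ T, t ≠ z → Vis p E z t → t = a ∨ t = b ∨ t = c) :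
    InTri p a b c z ∧ (Vis p E z a ∧ Vis p E z b ∧ Vis p E z c) ∧
      ∀ t ∈ T, t ≠ z → ¬ InTri p a b c t := by
  have H : ∀ r : ℝ × ℝ, r ≠ 0 → ∃ u, (u = a ∨ u = b ∨ u = c) ∧ Vis p E z u ∧
      0 < cr r (p z) (p u) := by
    intro r hr
    obtain ⟨t, ht, h1⟩ := hside r hr
    obtain ⟨q, hq, h2, h3⟩ := wlem hgp hs hp hE r ht h1
    refine ⟨q, hvis q hq ?_ h3, h3, h2⟩
    rintro rfl
    have : cr r (p q) (p q) = 0 := by
      unfold cr
      ring
    rw [this] at h2
    exact lt_irrefl _ h2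
  have Hb : ∀ r : ℝ × ℝ, r ≠ 0 → ∃ u, (u = b ∨ u = a ∨ u = c) ∧ Vis p E z u ∧
      0 < cr r (p z) (p u) := by
    intro r hr
    obtain ⟨u, h1, h2⟩ := H r hr
    refine ⟨u, ?_, h2⟩
    rcases h1 with h | h | h
    · exact Or.inr (Or.inl h)
    · exact Or.inl h
    · exact Or.inr (Or.inr h)
  have Hc : ∀ r : ℝ × ℝ, r ≠ 0 → ∃ u, (u = c ∨ u = a ∨ u = b) ∧ Vis p E z u ∧
      0 < cr r (p z) (p u) := by
    intro r hr
    obtain ⟨u, h1, h2⟩ := H r hr
    refine ⟨u, ?_, h2⟩
    rcases h1 with h | h | h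
    · exact Or.inr (Or.inl h)
    · exact Or.inr (Or.inr h)
    · exact Or.inl h
  have hne : a ≠ z ∧ b ≠ z := by
    obtain ⟨u, hu, -, h1⟩ := H (1, 0) (by
      intro h
      rw [Prod.mk_eq_zero] at h
      exact one_ne_zero h.1)
    have huz : u ≠ z := by
      rintro rfl
      have : cr (1, 0) (p u) (p u) = 0 := by
        unfold cr
        ring
      rw [this] at h1
      exact lt_irrefl _ h1
    rcases hu with rfl | rfl | rfl
    · exact ⟨huz, (lemE_aux1 hgp H huz).2.2.1⟩
    · exact ⟨(lemE_aux1 hgp Hb huz).2.2.1, huz⟩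
    · exact ⟨(lemE_aux1 hgp Hc huz).2.2.1, (lemE_aux1 hgp Hc huz).2.2.2.1⟩
  obtain ⟨hvb, hvc, -, -, s1⟩ := lemE_aux1 hgp H hne.1
  obtain ⟨hva, -, -, -, s2⟩ := lemE_aux1 hgp Hb hne.2
  rw [o_swap' p z c a] at s1
  rw [o_swap' p z a b] at s2
  have hsgn : (0 < o p z a b ∧ 0 < o p z b c ∧ 0 < o p z c a) ∨
      (o p z a b < 0 ∧ o p z b c < 0 ∧ o p z c a < 0) := by
    rcases s1 with ⟨h1, h2⟩ | ⟨h1, h2⟩
    · rcases s2 with ⟨h3, h4⟩ | ⟨h3, h4⟩
      · linarith
      · exact Or.inl ⟨h1, h4, by linarith⟩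
    · rcases s2 with ⟨h3, h4⟩ | ⟨h3, h4⟩
      · exact Or.inr ⟨h1, h4, by linarith⟩
      · linarith
  refine ⟨?_, ⟨hva, hvb, hvc⟩, ?_⟩
  · unfold InTri
    rw [o_rot p z a b, o_rot p z b c, o_rot p z c a]
    exact hsgn
  · intro t ht htz hin
    rcases hsgn with ⟨h1, h2, h3⟩ | ⟨h1, h2, h3⟩
    · exact lemE_aux2 hgp hs hp hE h1 h2 h3 hva hvb hvc hvis ht htz hin
    · exact lemE_aux2 (p := mir p) (GP_mir hgp) hs (Plane_mir.2 hp) hE
        (by rw [o_mir]; linarith) (by rw [o_mir]; linarith) (by rw [o_mir]; linarith)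
        (Vis_mir.2 hva) (Vis_mir.2 hvb) (Vis_mir.2 hvc)
        (fun t h4 h5 h6 => hvis t h4 h5 (Vis_mir.1 h6)) ht htz (InTri_mir.2 hin)

end FPW
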