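import Pool.Agent.Lib.MP_deef39_co_PW.Defs

/-! # PW module ThreeC: the walk through the states with three ends

`mutual_tri`: `x` inside `a c y` and `y` inside `a x c` is impossible: by `o_add`
`o a x c = o a x y + o x c y + o c a y` has the sign `ε` of the three equal signs for `y`, and
`o a c y = o a c x + o c y x + o y a x` has the sign `δ` of the three signs for `x`. The common
number `o a x y = o y a x` gives `ε = δ`; but `o a c x = - o a x c`: `δ = -ε`. Contradiction.

`three`. States `S p P q R r` stand for paths `A ++ p :: P ++ q :: R ++ [r]`.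
`X = []`: by `m2` from `S x [] y Y z`: `S x [] z Y.reverse y`, so `y` is inside `a, x, c` with
`c := (z :: Y.reverse).getLast _`. Then by `m1`: `S y Y z [] x`... (`[].reverse = []`,
`Y.reverse.reverse = Y`): `S y Y z [] x` where the triangle is `a, last (y :: Y), z`. If instead
we apply `m1` to the original state: `S z Y.reverse y [] x`, so `x` is inside
`a, last (z :: Y.reverse), last [y] = y`, i.e. `a, c, y`. `mutual_tri` with
`InTri a x c y`, `InTri a c y x`: contradiction.
`Y = []`: original state: `z` inside `a, b, y`, `b := last (x :: X)`; `m2`: `S x X z [] y`: `y` inside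
`a, b, z`. So with `mutual_tri` in the form (`a := a`, `c := b`, ...): `InTri a b y z` and
`InTri a b z y` are contradictory (same proof; use that `InTri p a b c x` is invariant under
permutations of `a, b, c`).
Both nonempty: apply `m2, m1, m2, m1, m2, m1, m2, m1`:
`(x,X,y,Y,z) → (x,X,z,Y',y) → (y,Y,z,X',x) → (y,Y,x,X,z) → (z,X',x,Y',y) → (z,X',y,Y,x) →
(x,Y',y,X,z) → (x,Y',z,X',y) → (y,X,z,Y,x)` (`'` = reverse). In the last state `x` is inside
`a, last X, last Y` (as `X, Y ≠ []`, `last (y :: X) = last X`), but in the first state no point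
other than `z` is inside `a, last (x :: X) = last X, last (y :: Y) = last Y`; `x ≠ z`.
-/

set_option autoImplicit false

namespace FPW

variable {α : Type*} {p : α → ℝ × ℝ}

theorem mutual_tri {a c x y : α} (h1 : InTri p a x c y) (h2 : InTri p a c y x) : False := by
  have e1 : o p y a x = o p a x y := o_rot' p a x y
  have e2 : o p a c x = - o p a x c := o_swap' p a x c
  have e3 := o_add p a x c y
  rcases h1 with ⟨h3, h4, h5⟩ | ⟨h3, h4, h5⟩
  · rcases h2 with ⟨h6, h7, h8⟩ | ⟨h6, h7, h8⟩
    · linarith
    · linarith
  · rcases h2 with ⟨h6, h7, h8⟩ | ⟨h6, h7, h8⟩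
    · linarith
    · linarith

private theorem threeC_perm {a b c x : α} (h : InTri p a b c x) : InTri p a c b x := by
  have e1 : o p a c x = - o p c a x := o_swap p c a x
  have e2 : o p c b x = - o p b c x := o_swap p b c x
  have e3 : o p b a x = - o p a b x := o_swap p a b x
  rcases h with ⟨h3, h4, h5⟩ | ⟨h3, h4, h5⟩
  · right
    exact ⟨by linarith, by linarith, by linarith⟩
  · left
    exact ⟨by linarith, by linarith, by linarith⟩

theorem three {T : Set α} {a : α} (S : α → List α → α → List α → α → Prop)
    (m1 : ∀ b P q R r, S b P q R r → S r R.reverse q P.reverse b)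
    (m2 : ∀ b P q R r, S b P q R r → S b P r R.reverse q)
    (tri : ∀ b P q R r, S b P q R r →
      InTri p a ((b :: P).getLast (List.cons_ne_nil _ _))
        ((q :: R).getLast (List.cons_ne_nil _ _)) r)
    (emp : ∀ b P q R r, S b P q R r → ∀ t ∈ T, t ≠ r →
      ¬ InTri p a ((b :: P).getLast (List.cons_ne_nil _ _))
        ((q :: R).getLast (List.cons_ne_nil _ _)) t)
    {x y z : α} {X Y : List α} (hxz : x ≠ z) (hxT : x ∈ T) (h : S x X y Y z) : False := by
  by_cases hX : X = []
  · subst hX
    have h1 := tri _ _ _ _ _ (m2 _ _ _ _ _ h)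
    have h2 := tri _ _ _ _ _ (m1 _ _ _ _ _ h)
    exact mutual_tri h1 h2
  · by_cases hY : Y = []
    · subst hY
      have h1 := tri _ _ _ _ _ (m2 _ _ _ _ _ h)
      have h2 := tri _ _ _ _ _ h
      exact mutual_tri (threeC_perm h1) h2
    · have h1 := m2 _ _ _ _ _ h
      have h2 := m1 _ _ _ _ _ h1
      have h3 := m2 _ _ _ _ _ h2
      have h4 := m1 _ _ _ _ _ h3
      have h5 := m2 _ _ _ _ _ h4
      have h6 := m1 _ _ _ _ _ h5
      have h7 := m2 _ _ _ _ _ h6
      have h8 := m1 _ _ _ _ _ h7
      simp only [List.reverse_reverse] at h8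
      have h9 := tri _ _ _ _ _ h8
      rw [List.getLast_cons hX, List.getLast_cons hY] at h9
      have h10 := emp _ _ _ _ _ h x hxT hxz
      rw [List.getLast_cons hX, List.getLast_cons hY] at h10
      exact h10 h9

end FPW
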