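import Pool.Agent.Lib.MP_deef39_co_PW.RotB
import Pool.Agent.Lib.MP_deef39_co_PW.LemE
import Pool.Agent.Lib.MP_deef39_co_PW.CLem
import Pool.Agent.Lib.MP_deef39_co_PW.ThreeC

/-! # PW module Ends3: at most three ends are impossible

`T = {x | x ∈ l ∨ x ∈ G}`. Every reachable path `l' = A ++ [z]` has the same vertices, `Wd p l' G O`
(`wd_reach`), `E := EO l' O` is symmetric, plane, with end points in `T`.

(1) `hside` for `z`: `clem_side` from `hcen`. Every visible `t ∈ T`, `t ≠ z` lies in `A` (not in `G`
by `hfail`).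
(2) Successors: if `A = A₁ ++ v :: B` and `z` sees `v`, then `l' = A₁ ++ v :: (B ++ [z])` rotates to
`A₁ ++ v :: z :: B.reverse`, whose last entry is the successor of `v` in `l'` (`z` if `B = []`, the
first entry of `B` otherwise); so this successor is the end of a reachable path, in `Z`.
(3) Decomposition: for every reachable `l' = A ++ [z]` there are `A₂ a x X y Y` with
`l' = A₂ ++ a :: (x :: X ++ y :: Y ++ [z])`, and `x, y, z ∈ Z` pairwise different. Proof: `z ∈ Z`.
If `A` contains no entry of `Z`: every visible `t` has successor `z` by (2), so `t` is the last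
entry `a` of `A` (`A ≠ []` by `hlen`): `lemE` with `a, a, a` gives `InTri p a a a z`,
impossible. So `A = A₁ ++ x :: X`, `x ∈ Z`. If `A₁`, `X` contain no entry of `Z`: the visible points
are among `last (x :: X)` (successor `z`) and, if `A₁ ≠ []`, `last A₁` (successor `x`): `lemE` with
`a = b` again impossible (`InTri p a a c z` is false by `o_self`). So there is a second
`y ∈ Z`, and after renaming `A = A₁ ++ x :: X ++ y :: Y`; as `l'` has no duplicates and
`Z.card ≤ 3`, `Z = {x, y, z}` and `A₁, X, Y` contain no entry of `Z`. The visible points are among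
`last A₁` (if `A₁ ≠ []`), `last (x :: X)`, `last (y :: Y)`; if `A₁ = []` `lemE` with `a = b` is a
contradiction. So `A₁ = A₂ ++ [a]`.
(4) Fix the prefix `A₁ = A₂ ++ [a]` of (3) for `l' = l` (some reachable path, e.g. `l` itself;
`l ≠ []` so `l = A ++ [z]`). Put `S b P q R r := Reach p O l (A₂ ++ a :: (b :: P ++ q :: R ++ [r])) ∧
b ∈ Z ∧ q ∈ Z ∧ r ∈ Z`. For such a state the list has no duplicates, so `Z = {b, q, r}`, and as in
(3) the visible points from `r` are among `a`, `last (b :: P)`, `last (q :: R)`; `lemE` gives `tri`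
and `emp` of `three`, and that these three points are visible, so the rotations
`m1` (pivot `a`: `A₂ ++ a :: (b :: P ++ q :: R ++ [r]) → A₂ ++ a :: r :: (b :: P ++ q :: R).reverse
= A₂ ++ a :: (r :: R.reverse ++ q :: P.reverse ++ [b])`) and
`m2` (pivot `last (b :: P)`: `→ A₂ ++ a :: (b :: P ++ r :: R.reverse ++ [q])`) are allowed.
`three` gives `False` (`x ≠ z` by `Nodup`, `x ∈ T`).
-/

set_option autoImplicit false

namespace FPW

variable {α : Type*} {p : α → ℝ × ℝ}

private theorem Ends3_split (Z : Finset α) (A : List α) :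
    (∀ t ∈ A, t ∉ Z) ∨ ∃ A₁ x X, A = A₁ ++ x :: X ∧ x ∈ Z ∧ ∀ t ∈ A₁, t ∉ Z := by
  induction A with
  | nil => exact Or.inl fun t ht => absurd ht List.not_mem_nil
  | cons a A ih =>
    by_cases ha : a ∈ Z
    · exact Or.inr ⟨[], a, A, rfl, ha, fun t ht => absurd ht List.not_mem_nil⟩
    · rcases ih with h | ⟨A₁, x, X, h1, h2, h3⟩
      · left
        intro t ht
        rcases List.mem_cons.1 ht with rfl | ht
        · exact ha
        · exact h t ht
      · right
        refine ⟨a :: A₁, x, X, by rw [h1]; rfl, h2, fun t ht => ?_⟩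
        rcases List.mem_cons.1 ht with rfl | ht
        · exact ha
        · exact h3 t ht

private theorem Ends3_last {P Q : List α} {t x : α} {X : List α} (h : P ++ [t] = Q ++ x :: X) :
    t = (x :: X).getLast (List.cons_ne_nil _ _) := by
  have h1 := congrArg List.getLast? h
  rw [List.getLast?_append, List.getLast?_append, List.getLast?_singleton,
    List.getLast?_eq_getLast_of_ne_nil (List.cons_ne_nil x X)] at h1
  exact Option.some.inj h1

private theorem Ends3_inj {P P' Q Q' : List α} {x : α} (hn : (P ++ x :: Q).Nodup)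
    (h : P ++ x :: Q = P' ++ x :: Q') : P' = P := by
  have h1 : x ∉ P := fun h2 => by
    rw [List.nodup_append] at hn
    exact hn.2.2 x h2 x (by simp) rfl
  have h2 : x ∉ Q := fun h2 => by
    rw [List.nodup_append] at hn
    exact (List.nodup_cons.1 hn.2.1).1 h2
  exact ((List.append_cons_inj_of_notMem h1 h2).1 h).1.symm

theorem ends_three [Finite α] (hgp : GP p) {l : List α} {G : Set α} {O : α → α → Prop}
    (hw : Wd p l G O) (hlen : 3 ≤ l.length) (Z : Finset α) (hZ : Z.card ≤ 3)
    (hfail : ∀ A z, Reach p O l (A ++ [z]) → ∀ g ∈ G, ¬ Vis p (EO (A ++ [z]) O) z g)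
    (hcen : ∀ A z, Reach p O l (A ++ [z]) → z ∈ Z ∧ Centre p {x | x ∈ l ∨ x ∈ G} z) :
    False := by
  classical
  obtain ⟨T, hT⟩ : ∃ T : Set α, T = {x | x ∈ l ∨ x ∈ G} := ⟨_, rfl⟩
  rw [← hT] at hcen
  have memT : ∀ x, x ∈ T ↔ x ∈ l ∨ x ∈ G := fun x => by rw [hT]; rfl
  have hlem : ∀ A z, Reach p O l (A ++ [z]) → ∀ a b c,
      (∀ t ∈ T, t ≠ z → Vis p (EO (A ++ [z]) O) z t → t = a ∨ t = b ∨ t = c) →
      InTri p a b c z ∧ (Vis p (EO (A ++ [z]) O) z a ∧ Vis p (EO (A ++ [z]) O) z b ∧
        Vis p (EO (A ++ [z]) O) z c) ∧ ∀ t ∈ T, t ≠ z → ¬ InTri p a b c t := by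
    intro A z hr a b c h
    have hw' := wd_reach hw hr
    refine lemE hgp ?_ hw'.plane ?_ (fun r hr0 => clem_side (hcen A z hr).2 r hr0) h
    · rintro x y (h1 | h1)
      · exact Or.inl (ed_symm h1)
      · exact Or.inr (hw'.symm x y h1)
    · rintro x y (h1 | h1)
      · exact (memT x).2 (Or.inl ((reach_perm hr).mem_iff.1 (ed_mem h1)))
      · rcases hw'.mem x y h1 with h2 | h2
        · exact (memT x).2 (Or.inl ((reach_perm hr).mem_iff.1 h2))
        · exact (memT x).2 (Or.inr h2)
  have hvis : ∀ A z, Reach p O l (A ++ [z]) → ∀ t ∈ T, t ≠ z →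
      Vis p (EO (A ++ [z]) O) z t → ∃ A₁ B, A = A₁ ++ t :: B ∧ ∀ b B', B = b :: B' → b ∈ Z := by
    intro A z hr t ht htz hv
    rcases (memT t).1 ht with h1 | h1
    · have h2 : t ∈ A ++ [z] := (reach_perm hr).mem_iff.2 h1
      have h3 : t ∈ A := by
        rcases List.mem_append.1 h2 with h3 | h3
        · exact h3
        · exact absurd (List.mem_singleton.1 h3) htz
      obtain ⟨A₁, B, h4⟩ := List.append_of_mem h3
      refine ⟨A₁, B, h4, ?_⟩
      rintro b B' rfl
      have h5 : Rot p O (A ++ [z]) ((A₁ ++ t :: z :: B'.reverse) ++ [b]) :=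
        ⟨t, z, ⟨A₁, b :: B', by rw [h4]; simp, by simp⟩, hv⟩
      exact (hcen _ b (hr.tail h5)).1
    · exact absurd hv (hfail A z hr t h1)
  have hdeg : ∀ A z, Reach p O l (A ++ [z]) → ∀ a c,
      (∀ t ∈ T, t ≠ z → Vis p (EO (A ++ [z]) O) z t → t = a ∨ t = c) → False := by
    intro A z hr a c h
    have h1 := (hlem A z hr a a c fun t h2 h3 h4 => by
      rcases h t h2 h3 h4 with h5 | h5
      · exact Or.inl h5
      · exact Or.inr (Or.inr h5)).1
    unfold InTri at h1
    simp at h1
  have hst : ∀ L₀ x X y Y z, Reach p O l ((L₀ ++ x :: X ++ y :: Y) ++ [z]) → x ∈ Z → y ∈ Z →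
      ∀ t ∈ T, t ≠ z → Vis p (EO ((L₀ ++ x :: X ++ y :: Y) ++ [z]) O) z t →
      (∃ L', L₀ = L' ++ [t]) ∨ t = (x :: X).getLast (List.cons_ne_nil _ _) ∨
        t = (y :: Y).getLast (List.cons_ne_nil _ _) := by
    intro L₀ x X y Y z hr hx hy t ht htz hv
    have hz : z ∈ Z := (hcen _ z hr).1
    have hn : ((L₀ ++ x :: X ++ y :: Y) ++ [z]).Nodup := (wd_reach hw hr).nodup
    have hnA : (L₀ ++ x :: X ++ y :: Y).Nodup := (List.nodup_append.1 hn).1
    obtain ⟨A₁, B, h1, h2⟩ := hvis _ z hr t ht htz hv
    cases B with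
    | nil => exact Or.inr (Or.inr (Ends3_last h1.symm))
    | cons b B' =>
      have hb := h2 b B' rfl
      have hbA : b ∈ L₀ ++ x :: X ++ y :: Y := by rw [h1]; simp
      have hbz : b ≠ z := fun h3 => (List.nodup_append.1 hn).2.2 b hbA z (by simp) h3
      have hxz : x ≠ z := (List.nodup_append.1 hn).2.2 x (by simp) z (by simp)
      have hyz : y ≠ z := (List.nodup_append.1 hn).2.2 y (by simp) z (by simp)
      have hxy : x ≠ y := (List.nodup_append.1 hnA).2.2 x (by simp) y (by simp)
      have hbxy : b = x ∨ b = y := by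
        by_contra hcon
        push Not at hcon
        have h3 : ({b, x, y, z} : Finset α) ⊆ Z := by
          intro w hw
          simp only [Finset.mem_insert, Finset.mem_singleton] at hw
          rcases hw with rfl | rfl | rfl | rfl
          · exact hb
          · exact hx
          · exact hy
          · exact hz
        have h4 : ({b, x, y, z} : Finset α).card = 4 := by
          rw [Finset.card_insert_of_notMem, Finset.card_insert_of_notMem,
            Finset.card_insert_of_notMem, Finset.card_singleton]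
          · simpa using hyz
          · simpa using ⟨hxy, hxz⟩
          · simpa using ⟨hcon.1, hcon.2, hbz⟩
        have h5 := Finset.card_le_card h3
        omega
      rcases hbxy with rfl | rfl
      · left
        refine ⟨A₁, ?_⟩
        have h3 : L₀ ++ b :: (X ++ y :: Y) = (A₁ ++ [t]) ++ b :: B' := by
          simpa using h1
        have h4 : (L₀ ++ b :: (X ++ y :: Y)).Nodup := by simpa using hnA
        exact (Ends3_inj h4 h3).symm
      · right; left
        have h3 : (L₀ ++ x :: X) ++ b :: Y = (A₁ ++ [t]) ++ b :: B' := by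
          simpa using h1
        exact Ends3_last (Ends3_inj hnA h3)
  -- the first state
  have hfirst : ∃ A₂ a x X y Y z, l = A₂ ++ a :: (x :: X ++ y :: Y ++ [z]) ∧ x ∈ Z ∧ y ∈ Z := by
    obtain ⟨A, z, hAz⟩ : ∃ A z, l = A ++ [z] := by
      rcases List.eq_nil_or_concat l with h | ⟨A, z, h⟩
      · exact absurd h hw.ne
      · exact ⟨A, z, by rw [h, List.concat_eq_append]⟩
    have hr : Reach p O l (A ++ [z]) := by rw [← hAz]; exact Relation.ReflTransGen.refl
    have hlA : 2 ≤ A.length := by
      rw [hAz, List.length_append, List.length_singleton] at hlen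
      omega
    rcases Ends3_split Z A with h0 | ⟨A₁, x, X, h1, hx, hA₁⟩
    · exfalso
      obtain ⟨A', a, hA'⟩ : ∃ A' a, A = A' ++ [a] := by
        rcases List.eq_nil_or_concat A with h | ⟨A', a, h⟩
        · rw [h] at hlA; simp at hlA
        · exact ⟨A', a, by rw [h, List.concat_eq_append]⟩
      refine hdeg A z hr a a fun t ht htz hv => Or.inl ?_
      obtain ⟨B₁, B, h2, h3⟩ := hvis A z hr t ht htz hv
      cases B with
      | nil =>
        have h4 := Ends3_last (h2.symm.trans hA')
        simpa using h4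
      | cons b B' => exact absurd (h3 b B' rfl) (h0 b (by rw [h2]; simp))
    · rcases Ends3_split Z X with h0 | ⟨X₁, y, Y, h2, hy, hX₁⟩
      · exfalso
        have hn : (A₁ ++ x :: X).Nodup := by
          have h3 := hw.nodup
          rw [hAz, h1] at h3
          exact (List.nodup_append.1 h3).1
        have hv' : ∀ t ∈ T, t ≠ z → Vis p (EO (A ++ [z]) O) z t →
            (∃ L', A₁ = L' ++ [t]) ∨ t = (x :: X).getLast (List.cons_ne_nil _ _) := by
          intro t ht htz hv
          obtain ⟨B₁, B, h4, h5⟩ := hvis A z hr t ht htz hv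
          cases B with
          | nil => exact Or.inr (Ends3_last (h4.symm.trans h1))
          | cons b B' =>
            left
            have hb := h5 b B' rfl
            have hbA : b ∈ A₁ ++ x :: X := by rw [← h1, h4]; simp
            have hbx : b = x := by
              rcases List.mem_append.1 hbA with h6 | h6
              · exact absurd hb (hA₁ b h6)
              · rcases List.mem_cons.1 h6 with h7 | h7
                · exact h7
                · exact absurd hb (h0 b h7)
            subst hbx
            refine ⟨B₁, ?_⟩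
            have h6 : A₁ ++ b :: X = (B₁ ++ [t]) ++ b :: B' := by
              rw [← h1, h4]; simp
            exact (Ends3_inj hn h6).symm
        rcases List.eq_nil_or_concat A₁ with h3 | ⟨A₂, a, h3⟩
        · refine hdeg A z hr ((x :: X).getLast (List.cons_ne_nil _ _))
            ((x :: X).getLast (List.cons_ne_nil _ _)) fun t ht htz hv => ?_
          rcases hv' t ht htz hv with ⟨L', h4⟩ | h4
          · rw [h3] at h4
            simp at h4
          · exact Or.inl h4
        · rw [List.concat_eq_append] at h3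
          refine hdeg A z hr a ((x :: X).getLast (List.cons_ne_nil _ _)) fun t ht htz hv => ?_
          rcases hv' t ht htz hv with ⟨L', h4⟩ | h4
          · left
            have h5 := Ends3_last (h4.symm.trans h3)
            simpa using h5
          · exact Or.inr h4
      · rcases List.eq_nil_or_concat A₁ with h3 | ⟨A₂, a, h3⟩
        · exfalso
          have h4 : A ++ [z] = ([] ++ x :: X₁ ++ y :: Y) ++ [z] := by
            rw [h1, h2, h3]; simp
          have hr' := hr
          rw [h4] at hr'
          refine hdeg _ z hr' ((x :: X₁).getLast (List.cons_ne_nil _ _))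
            ((y :: Y).getLast (List.cons_ne_nil _ _)) fun t ht htz hv => ?_
          rcases hst [] x X₁ y Y z hr' hx hy t ht htz hv with ⟨L', h5⟩ | h5 | h5
          · simp at h5
          · exact Or.inl h5
          · exact Or.inr h5
        · rw [List.concat_eq_append] at h3
          exact ⟨A₂, a, x, X₁, y, Y, z, by rw [hAz, h1, h2, h3]; simp, hx, hy⟩
  obtain ⟨A₂, a, x, X, y, Y, z, hl, hx, hy⟩ := hfirst
  let S : α → List α → α → List α → α → Prop := fun b P q R r =>
    Reach p O l (A₂ ++ a :: (b :: P ++ q :: R ++ [r])) ∧ b ∈ Z ∧ q ∈ Z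
  have hform : ∀ (b : α) (P : List α) (q : α) (R : List α) (r : α),
      A₂ ++ a :: (b :: P ++ q :: R ++ [r]) = ((A₂ ++ [a]) ++ b :: P ++ q :: R) ++ [r] := by
    intro b P q R r; simp
  have key : ∀ b P q R r, S b P q R r →
      InTri p a ((b :: P).getLast (List.cons_ne_nil _ _))
        ((q :: R).getLast (List.cons_ne_nil _ _)) r ∧
      (Vis p (EO (A₂ ++ a :: (b :: P ++ q :: R ++ [r])) O) r a ∧
        Vis p (EO (A₂ ++ a :: (b :: P ++ q :: R ++ [r])) O) r
          ((b :: P).getLast (List.cons_ne_nil _ _)) ∧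
        Vis p (EO (A₂ ++ a :: (b :: P ++ q :: R ++ [r])) O) r
          ((q :: R).getLast (List.cons_ne_nil _ _))) ∧
      ∀ t ∈ T, t ≠ r → ¬ InTri p a ((b :: P).getLast (List.cons_ne_nil _ _))
        ((q :: R).getLast (List.cons_ne_nil _ _)) t := by
    rintro b P q R r ⟨h1, hb, hq⟩
    rw [hform] at h1 ⊢
    refine hlem _ r h1 _ _ _ fun t ht htr hv => ?_
    rcases hst _ b P q R r h1 hb hq t ht htr hv with ⟨L', h2⟩ | h2 | h2
    · left
      have h3 := Ends3_last h2.symm
      simpa using h3
    · exact Or.inr (Or.inl h2)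
    · exact Or.inr (Or.inr h2)
  have hend : ∀ b P q R r, S b P q R r → r ∈ Z := by
    rintro b P q R r ⟨h1, -, -⟩
    rw [hform] at h1
    exact (hcen _ r h1).1
  have m1 : ∀ b P q R r, S b P q R r → S r R.reverse q P.reverse b := by
    intro b P q R r h
    refine ⟨?_, hend b P q R r h, h.2.2⟩
    have h1 : Rot p O (A₂ ++ a :: (b :: P ++ q :: R ++ [r]))
        (A₂ ++ a :: (r :: R.reverse ++ q :: P.reverse ++ [b])) :=
      ⟨a, r, ⟨A₂, b :: P ++ q :: R, rfl, by simp⟩, (key b P q R r h).2.1.1⟩
    exact h.1.tail h1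
  have m2 : ∀ b P q R r, S b P q R r → S b P r R.reverse q := by
    intro b P q R r h
    refine ⟨?_, h.2.1, hend b P q R r h⟩
    have h1 : Rot p O (A₂ ++ a :: (b :: P ++ q :: R ++ [r]))
        (A₂ ++ a :: (b :: P ++ r :: R.reverse ++ [q])) := by
      refine ⟨_, r, ⟨A₂ ++ a :: (b :: P).dropLast, q :: R, ?_, ?_⟩, (key b P q R r h).2.1.2.1⟩
      · conv_lhs => rw [← List.dropLast_append_getLast (List.cons_ne_nil b P)]
        simp
      · conv_lhs => rw [← List.dropLast_append_getLast (List.cons_ne_nil b P)]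
        simp
    exact h.1.tail h1
  have h0 : S x X y Y z := ⟨by rw [← hl]; exact Relation.ReflTransGen.refl, hx, hy⟩
  have hxl : x ∈ l := by rw [hl]; simp
  have hxz : x ≠ z := by
    have h1 := hw.nodup
    rw [hl, hform] at h1
    exact (List.nodup_append.1 h1).2.2 x (by simp) z (by simp)
  exact three S m1 m2 (fun b P q R r h => (key b P q R r h).1)
    (fun b P q R r h => (key b P q R r h).2.2) hxz ((memT x).2 (Or.inl hxl)) h0

end FPW
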