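import Pool.Agent.Lib.MP_deef39_co_PW.CLem

/-! # PW module Lay: points of the first two convex layers are not pinwheel centres

`Ext p T y`: `y` is an extreme point of `T`.

`ext_sep`: if `Ext p T y`, there is `r ≠ 0` with `0 < cr r (p y) (p t)` for all `t ∈ T`, `t ≠ y`:
the set `p '' (T \ {y})` is finite, so its convex hull `K` is compact
(`Set.Finite.isCompact_convexHull`) and closed, convex; if it is empty take `r = (1, 0)`;
otherwise separate the point `p y` from `K` strictly (`geometric_hahn_banach_point_closed` or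
`geometric_hahn_banach_closed_point`): a continuous linear functional `f` on `ℝ × ℝ` with
`f (p y) < f x` for `x ∈ K`; `f (a, b) = f (1,0) a + f (0,1) b`, put `r = (f (0,1), - f (1,0))`:
`cr r (p y) (p t) = f (p t) - f (p y) > 0`; `r ≠ 0` since `f ≠ 0`.

`not_centre_of_ext`: otherwise `clem` for this `r` gives `t ∈ T` with `cr r (p y) (p t) < 0`; `t ≠ y`
(as `cr r (p y) (p y) = 0`), contradiction.

`not_centre_of_ext2`: `T₂ = {t | ¬ Ext p Set.univ t}`. `ext_sep` for `T₂`, then `clem` for
`T = Set.univ` gives `t` with `InTri p y a b t` and `cr r (p y) (p t) < 0`, `t ≠ y`. `t ∈ T₂`: `p t`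
is a convex combination of `p y, p a, p b` (coefficients `o a b t / D`, `o b y t / D`,
`o y a t / D` with `D = o y a b`), which are in `Set.univ \ {t}` (`t ≠ y, a, b` by `o_self`),
so `¬ Ext p Set.univ t`. Contradiction.
-/

set_option autoImplicit false

namespace FPW

variable {α : Type*} {p : α → ℝ × ℝ}

/-- `y` is an extreme point of `T` -/
def Ext (p : α → ℝ × ℝ) (T : Set α) (y : α) : Prop :=
  p y ∉ convexHull ℝ (p '' (T \ {y}))

private theorem cr_self (r a : ℝ × ℝ) : cr r a a = 0 := by
  unfold cr; ring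

theorem ext_sep [Finite α] {T : Set α} {y : α} (h : Ext p T y) :
    ∃ r : ℝ × ℝ, r ≠ 0 ∧ ∀ t ∈ T, t ≠ y → 0 < cr r (p y) (p t) := by
  rcases Set.eq_empty_or_nonempty (T \ {y}) with he | ⟨t0, ht0⟩
  · refine ⟨(1, 0), ?_, ?_⟩
    · intro h0
      have := congrArg Prod.fst h0
      simp at this
    · intro t ht hty
      exfalso
      have h1 : t ∈ T \ {y} := ⟨ht, hty⟩
      rw [he] at h1
      exact h1
  · have hfin : (p '' (T \ {y})).Finite := Set.toFinite _
    have hcl : IsClosed (convexHull ℝ (p '' (T \ {y}))) :=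
      (hfin.isCompact_convexHull (𝕜 := ℝ)).isClosed
    obtain ⟨f, u, hu, hf⟩ := geometric_hahn_banach_point_closed
      (convex_convexHull ℝ (p '' (T \ {y}))) hcl h
    have hlin : ∀ q : ℝ × ℝ, f q = q.1 * f (1, 0) + q.2 * f (0, 1) := by
      intro q
      have hq : q = q.1 • ((1, 0) : ℝ × ℝ) + q.2 • ((0, 1) : ℝ × ℝ) := by
        ext <;> simp
      conv_lhs => rw [hq]
      rw [map_add, map_smul, map_smul, smul_eq_mul, smul_eq_mul]
    have hcr : ∀ q, cr (f (0, 1), - f (1, 0)) (p y) q = f q - f (p y) := by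
      intro q
      rw [hlin q, hlin (p y)]
      unfold cr
      ring
    have hlt : ∀ t ∈ T, t ≠ y → f (p y) < f (p t) := by
      intro t ht hty
      exact hu.trans (hf _ (subset_convexHull ℝ _ ⟨t, ⟨ht, hty⟩, rfl⟩))
    refine ⟨(f (0, 1), - f (1, 0)), ?_, ?_⟩
    · intro h0
      have h1 := hlt t0 ht0.1 ht0.2
      have h2 := hcr (p t0)
      rw [h0] at h2
      have h3 : cr 0 (p y) (p t0) = 0 := by
        unfold cr
        simp
      rw [h3] at h2
      linarith
    · intro t ht hty
      rw [hcr]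
      exact sub_pos.2 (hlt t ht hty)

theorem not_centre_of_ext [Finite α] {T : Set α} {y : α} (h : Ext p T y) : ¬ Centre p T y := by
  intro hc
  obtain ⟨r, hr, hpos⟩ := ext_sep h
  obtain ⟨t, ht, _, h1⟩ := clem hc r hr
  by_cases hty : t = y
  · rw [hty, cr_self] at h1
    exact lt_irrefl _ h1
  · exact lt_asymm h1 (hpos t ht hty)

private theorem mem_hull_of_inTri {y a b t : α} (h : InTri p y a b t) :
    p t ∈ convexHull ℝ (p '' (Set.univ \ {t})) := by
  have hya : o p y a t ≠ 0 := by
    rcases h with ⟨h1, _, _⟩ | ⟨h1, _, _⟩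
    · exact h1.ne'
    · exact h1.ne
  have hab : o p a b t ≠ 0 := by
    rcases h with ⟨_, h1, _⟩ | ⟨_, h1, _⟩
    · exact h1.ne'
    · exact h1.ne
  have hyt : y ≠ t := by
    rintro rfl
    exact hya (o_self2 p y a)
  have hat : a ≠ t := by
    rintro rfl
    exact hya (o_self3 p y a)
  have hbt : b ≠ t := by
    rintro rfl
    exact hab (o_self3 p a b)
  have hD := o_add p y a b t
  have hmem : ∀ c, c ≠ t → p c ∈ convexHull ℝ (p '' (Set.univ \ {t})) := fun c hc =>
    subset_convexHull ℝ _ ⟨c, ⟨Set.mem_univ c, hc⟩, rfl⟩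
  have hpos : 0 < o p a b t / o p y a b ∧ 0 < o p b y t / o p y a b ∧
      0 < o p y a t / o p y a b := by
    rcases h with ⟨h1, h2, h3⟩ | ⟨h1, h2, h3⟩
    · have hD0 : 0 < o p y a b := by linarith
      exact ⟨div_pos h2 hD0, div_pos h3 hD0, div_pos h1 hD0⟩
    · have hD0 : o p y a b < 0 := by linarith
      exact ⟨div_pos_of_neg_of_neg h2 hD0, div_pos_of_neg_of_neg h3 hD0,
        div_pos_of_neg_of_neg h1 hD0⟩
  have hD0 : o p y a b ≠ 0 := by
    intro h0
    rw [h0] at hpos
    simp at hpos
  have hcomb := (convex_convexHull ℝ (p '' (Set.univ \ {t}))).sum_mem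
    (t := (Finset.univ : Finset (Fin 3)))
    (w := ![o p a b t / o p y a b, o p b y t / o p y a b, o p y a t / o p y a b])
    (z := ![p y, p a, p b])
    (by
      intro i _
      fin_cases i
      · exact hpos.1.le
      · exact hpos.2.1.le
      · exact hpos.2.2.le)
    (by
      rw [Fin.sum_univ_three]
      simp only [Matrix.cons_val_zero, Matrix.cons_val_one, Matrix.cons_val]
      rw [← add_div, ← add_div, div_eq_one_iff_eq hD0]
      linarith)
    (by
      intro i _
      fin_cases i
      · exact hmem y hyt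
      · exact hmem a hat
      · exact hmem b hbt)
  have heq : ∑ i, (![o p a b t / o p y a b, o p b y t / o p y a b, o p y a t / o p y a b] :
      Fin 3 → ℝ) i • (![p y, p a, p b] : Fin 3 → ℝ × ℝ) i = p t := by
    rw [Fin.sum_univ_three]
    simp only [Matrix.cons_val_zero, Matrix.cons_val_one, Matrix.cons_val]
    ext
    · simp only [Prod.fst_add, Prod.smul_fst, smul_eq_mul]
      field_simp
      unfold o
      ring
    · simp only [Prod.snd_add, Prod.smul_snd, smul_eq_mul]
      field_simp
      unfold o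
      ring
  rw [← heq]
  exact hcomb

theorem not_centre_of_ext2 [Finite α] {y : α} (h : Ext p {t | ¬ Ext p Set.univ t} y) :
    ¬ Centre p Set.univ y := by
  intro hc
  obtain ⟨r, hr, hpos⟩ := ext_sep h
  obtain ⟨t, _, ⟨a, _, b, _, hin⟩, h1⟩ := clem hc r hr
  by_cases hty : t = y
  · rw [hty, cr_self] at h1
    exact lt_irrefl _ h1
  · refine lt_asymm h1 (hpos t ?_ hty)
    intro hext
    exact hext (mem_hull_of_inTri hin)

end FPW
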