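import Pool.Agent.Lib.MP_deef39_co_PW.TG
import Pool.Agent.Lib.MP_deef39_co_PW.ConnU
import Pool.Agent.Lib.MP_deef39_co_PW.GrphL
import Pool.Agent.Lib.MP_deef39_co_PW.GrphS
import Pool.Agent.Lib.MP_deef39_co_PW.Seg
import Pool.Agent.Lib.MP_deef39_co_PW.Lay

/-! # PW module Final: assembly

`conn_graph`. `Z := {y | Centre p univ y}.toFinset` has at most three elements (`Set.ncard`,
finite type). `gp_of`. `P G`: `tree_list` gives `l` with `G.Adj x y ↔ Ed l x y`, so `G = gr l`
(`SimpleGraph.ext`), `l.Nodup`, all vertices in `l`; `Plane p (Ed l)`: for edges `a b`, `c d`: if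
`s(a,b) = s(c,d)` then `¬ X` by `X_ne`; otherwise `seg_iff`. Likewise `H = gr l'`;
`l'.Perm l` (both without duplicates containing all vertices). `connU` with `htg := tg hgp Z hZ _`
gives `ReflTransGen (U p) l l'`. By induction along it: for every reachable `l₁`:
`ReflTransGen R (gr l) (gr l₁)`, `R` the flip relation of the statement: reversal does not change
the graph (`gr_reverse`); a rotation step changes nothing or is a flip (`gr_rot`), and
`P (gr l₁)`, `P (gr l₂)` by `gr_tree`, `gr_deg`, `seg_iff` (`u_plane`, `u_perm`).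
-/

set_option autoImplicit false

namespace FPW

/-- the connectivity statement for the point family `p` -/
theorem conn_graph (n : ℕ) (p : Fin n → ℝ × ℝ) (hi : Function.Injective p)
    (hc : ∀ i j k : Fin n, i ≠ j → j ≠ k → i ≠ k →
      ¬ Collinear ℝ ({p i, p j, p k} : Set (ℝ × ℝ)))
    (hZ : {y : Fin n | Centre p Set.univ y}.ncard ≤ 3) :
    ∀ P : SimpleGraph (Fin n) → Prop,
      (∀ A : SimpleGraph (Fin n), P A ↔
        (A.IsTree ∧ (∀ v : Fin n, (A.neighborSet v).ncard ≤ 2) ∧
          ∀ a b c d : Fin n, A.Adj a b → A.Adj c d → s(a, b) ≠ s(c, d) →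
            ∀ x : ℝ × ℝ, x ∈ segment ℝ (p a) (p b) → x ∈ segment ℝ (p c) (p d) →
              (x = p a ∨ x = p b) ∧ (x = p c ∨ x = p d))) →
      ∀ G H : SimpleGraph (Fin n), P G → P H →
        Relation.ReflTransGen
          (fun A B : SimpleGraph (Fin n) =>
            P A ∧ P B ∧ (A.edgeSet \ B.edgeSet).ncard = 1 ∧
              (B.edgeSet \ A.edgeSet).ncard = 1)
          G H := by
  intro P hP G H hG hH
  have hgp : GP p := gp_of hi hc
  have hlist : ∀ A : SimpleGraph (Fin n), P A → ∃ l : List (Fin n),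
      l.Nodup ∧ (∀ v, v ∈ l) ∧ A = gr l ∧ Plane p (Ed l) := by
    intro A hA
    obtain ⟨h1, h2, h3⟩ := (hP A).1 hA
    obtain ⟨l, hl1, hl2, hl3⟩ := tree_list A h1 h2
    refine ⟨l, hl1, hl2, ?_, ?_⟩
    · ext x y
      rw [gr_adj hl1, hl3]
    · intro a b c d hab hcd hX
      have hne := X_ne hX
      by_cases hs : s(a, b) = s(c, d)
      · rcases Sym2.eq_iff.1 hs with ⟨h4, _⟩ | ⟨h4, _⟩
        · exact hne.2.2.1 h4
        · exact hne.2.2.2.1 h4
      · exact (seg_iff hgp hne.1 hne.2.1 hs).1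
          (h3 a b c d ((hl3 a b).2 hab) ((hl3 c d).2 hcd) hs) hX
  obtain ⟨v0⟩ := ((hP G).1 hG).1.connected.nonempty
  have hback : ∀ l : List (Fin n), l.Nodup → (∀ v, v ∈ l) → Plane p (Ed l) → P (gr l) := by
    intro l h1 h2 h3
    refine (hP _).2 ⟨gr_tree h1 (List.ne_nil_of_mem (h2 v0)) h2, gr_deg h1, ?_⟩
    intro a b c d hab hcd hs
    have h4 := (gr_adj h1).1 hab
    have h5 := (gr_adj h1).1 hcd
    exact (seg_iff hgp (ed_ne h1 h4) (ed_ne h1 h5) hs).2 (h3 a b c d h4 h5)
  obtain ⟨l, hl1, hl2, rfl, hl4⟩ := hlist G hG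
  obtain ⟨l', hl1', hl2', rfl, hl4'⟩ := hlist H hH
  have hperm : l'.Perm l :=
    (List.perm_ext_iff_of_nodup hl1' hl1).2 fun v => ⟨fun _ => hl2 v, fun _ => hl2' v⟩
  have hfin : {y : Fin n | Centre p Set.univ y}.Finite := Set.toFinite _
  have hcard : hfin.toFinset.card ≤ 3 := by
    rw [← Set.ncard_eq_toFinset_card _ hfin]
    exact hZ
  have hU : Relation.ReflTransGen (U p) l l' :=
    connU hgp (fun l G O hw hG => tg hgp hfin.toFinset hcard
      (fun y hy => (Set.Finite.mem_toFinset hfin).2 hy) hw hG) hl1 hperm hl4 hl4'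
  have hmain : ∀ l₁ : List (Fin n), Relation.ReflTransGen (U p) l l₁ →
      Relation.ReflTransGen
        (fun A B : SimpleGraph (Fin n) =>
          P A ∧ P B ∧ (A.edgeSet \ B.edgeSet).ncard = 1 ∧
            (B.edgeSet \ A.edgeSet).ncard = 1)
        (gr l) (gr l₁) := by
    intro l₁ h
    induction h with
    | refl => exact Relation.ReflTransGen.refl
    | @tail l₁ l₂ h1 h2 ih =>
      have hP' : ∀ m : List (Fin n), Relation.ReflTransGen (U p) l m → P (gr m) := by
        intro m hm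
        have h3 := u_perm hm
        exact hback m (h3.nodup_iff.2 hl1) (fun v => h3.mem_iff.2 (hl2 v)) (u_plane hl4 hm)
      have hn1 : l₁.Nodup := (u_perm h1).nodup_iff.2 hl1
      rcases h2 with h3 | h3
      · obtain ⟨v, z, h4, _⟩ := id h3
        rcases gr_rot hn1 h4 with h5 | h5
        · rw [h5]
          exact ih
        · exact ih.tail ⟨hP' l₁ h1, hP' l₂ (h1.tail (Or.inl h3)), h5.1, h5.2⟩
      · rw [h3, gr_reverse]
        exact ih
  exact hmain l' hU

end FPW
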