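import Pool.Agent.Lib.MP_deef39_co_PW.Defs

/-! # PW module First: the first point in angular order

`Z` lies in the open half-plane to the left of the line from `z` through `r`. Let, for a point `x`,
`S(x) = (p r - p z) · (p x - p z)` (scalar product) and `L(x) = o p z r x > 0` on `Z`. `Z` is
finite, so choose `q ∈ Z` maximising `S(x) / L(x)`. For `x ∈ Z`: the identity
`‖p r - p z‖² · o p z q x = S(q) L(x) - L(q) S(x)` (ring) and `S(q)/L(q) ≥ S(x)/L(x)` give
`‖p r - p z‖² · o p z q x ≥ 0`; `‖p r - p z‖² > 0` since `L(q) ≠ 0`. So `0 ≤ o p z q x`, and for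
`x ≠ q` it is `≠ 0` by general position (`z ≠ q`, `z ≠ x` since `L(q), L(x) > 0`).
-/

set_option autoImplicit false

namespace FPW

variable {α : Type*} {p : α → ℝ × ℝ}

theorem first_exists [Finite α] (hgp : GP p) {z r : α} {Z : Set α} (hne : Z.Nonempty)
    (hZ : ∀ x ∈ Z, 0 < o p z r x) : ∃ q ∈ Z, ∀ x ∈ Z, x ≠ q → 0 < o p z q x := by
  obtain ⟨q, hq, hmax⟩ := Set.exists_max_image Z
    (fun x => (((p r).1 - (p z).1) * ((p x).1 - (p z).1) +
      ((p r).2 - (p z).2) * ((p x).2 - (p z).2)) / o p z r x) (Set.toFinite Z) hne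
  refine ⟨q, hq, fun x hx hxq => ?_⟩
  have hLq := hZ q hq
  have hLx := hZ x hx
  have h1 := hmax x hx
  rw [div_le_div_iff₀ hLx hLq] at h1
  have hid : (((p r).1 - (p z).1) ^ 2 + ((p r).2 - (p z).2) ^ 2) * o p z q x =
      (((p r).1 - (p z).1) * ((p q).1 - (p z).1) +
        ((p r).2 - (p z).2) * ((p q).2 - (p z).2)) * o p z r x -
      (((p r).1 - (p z).1) * ((p x).1 - (p z).1) +
        ((p r).2 - (p z).2) * ((p x).2 - (p z).2)) * o p z r q := by
    unfold o; ring
  have hn : 0 < ((p r).1 - (p z).1) ^ 2 + ((p r).2 - (p z).2) ^ 2 := by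
    rcases (add_nonneg (sq_nonneg ((p r).1 - (p z).1))
      (sq_nonneg ((p r).2 - (p z).2))).lt_or_eq with h | h
    · exact h
    · exfalso
      have h2 : (p r).1 - (p z).1 = 0 := by
        have := sq_nonneg ((p r).1 - (p z).1)
        have := sq_nonneg ((p r).2 - (p z).2)
        exact pow_eq_zero_iff (two_ne_zero) |>.1 (by linarith)
      have h3 : (p r).2 - (p z).2 = 0 := by
        have := sq_nonneg ((p r).1 - (p z).1)
        have := sq_nonneg ((p r).2 - (p z).2)
        exact pow_eq_zero_iff (two_ne_zero) |>.1 (by linarith)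
      have : o p z r q = 0 := by
        unfold o; rw [h2, h3]; ring
      linarith
  have hzq : z ≠ q := by
    rintro rfl
    simp at hLq
  have hzx : z ≠ x := by
    rintro rfl
    simp at hLx
  have hne0 := hgp.ne z q x hzq (Ne.symm hxq) hzx
  have h0 : 0 ≤ o p z q x := by
    by_contra hc
    rw [not_le] at hc
    have := mul_neg_of_pos_of_neg hn hc
    linarith
  exact lt_of_le_of_ne h0 (Ne.symm hne0)

end FPW
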