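import Pool.Agent.Lib.MP_deef39_co_PW.Defs

/-! # PW module Tri: segments crossing a segment from the apex of a triangle

Barycentric coordinates with respect to the triangle `y, u, w`, `D = o y u w > 0`:
`x0(x) = o u w x`, `x1(x) = o w y x`, `x2(x) = o y u x`, with `x0 + x1 + x2 = D` (`o_add`).
`x0(y) = D, x1(y) = x2(y) = 0`. For a segment `e f` put `K = o e f y`, `U = o e f u`,
`W = o e f w`; `o_bary`: `D * o e f x = x0(x) K + x1(x) U + x2(x) W` for all `x`. Further
`U = K - x2(f) + x2(e)`, `W = K + x1(f) - x1(e)` and `D * o y e q = x1(e) x2(q) - x2(e) x1(q)`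
(all by `unfold o; ring`).

`g1b`. Let `e ∈ {c, d}` be the point with `0 < o y e q`, `f` the other one (`o y f q < 0`; the
product `o y q c * o y q d` is negative). Prove `InTri p y u w e`.
* `K * o e f q < 0` (from `X`) and `K = o e f q + o f y q + o y e q > o e f q`, so
  `o e f q < 0 < K`.
* `X_param`: `t, τ ∈ (0,1)`, `(1-t) x_i(y) + t x_i(q) = (1-τ) x_i(e) + τ x_i(f)` for `i = 0, 1, 2`
  (or with the roles of `e, f` exchanged). Call this value `x_i(s)`: `x0(s) > 0` (as `x0(q) ≥ 0`),
  `x1(s) = t x1(q) ≥ 0`, `x2(s) = t x2(q) > 0`.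
* `x2(e) ≠ 0` (general position; `e ≠ y` by `X_ne`, `e ≠ u`).
* Suppose `x2(e) < 0`. Then `x2(f) > 0`; as `y u` is not crossed by `e f`: `K * U ≥ 0`, so `U ≥ 0`,
  even `U > 0` (general position). `D * o e f q = x0(q) K + x1(q) U + x2(q) W < 0`, so `W < 0`.
  `W = K + x1(f) - x1(e) < 0` gives `x1(e) - x1(f) > K`, `U = K - x2(f) + x2(e) ≥ 0` gives
  `K ≥ x2(f) - x2(e)`; so `x1(e) + x2(e) > x1(f) + x2(f)`, i.e. `x0(e) < x0(f)`, and so `x0(f) > 0`.
  If `x0(e) ≥ 0`: `0 = D * o e f e = x0(e) K + x1(e) U + x2(e) W` with `x2(e) W > 0`, `x0(e) K ≥ 0`,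
  so `x1(e) < 0`, and `x1(f) < x1(e) < 0`, contradicting `x1(s) ≥ 0`. So `x0(e) < 0 < x0(f)` and
  `U * W < 0`: `e f` crosses `u w`, contradiction.
* So `x2(e) > 0`; from `x1(e) x2(q) > x2(e) x1(q) ≥ 0`: `x1(e) > 0`. Suppose `x0(e) ≤ 0`.
  `x0(e) = 0` means `e ∈ {u, w}` by general position, `e ≠ u`, and `e = w` has `x1(e) = 0`:
  impossible. So `x0(e) < 0`, `x0(f) > 0` (from `x0(s) > 0`), and as `u w` is not crossed:
  `U * W ≥ 0`. Since `x0(q) K + x1(q) U + x2(q) W < 0` one of `U, W` is negative, so both are `≤ 0`,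
  and `0 = x0(e) K + x1(e) U + x2(e) W < 0`: contradiction. So all three coordinates of `e` are
  positive.

`g1c`. Now `K = o q b y = o y q b < 0`, `U = o q b u`, `W = o q b w`, with `e = q`, `f = b`:
`x_i(q) > 0`.
* `b ≠ y`, so `x2(b) ≠ 0`. Suppose `x2(b) < 0`. `y u` is not crossed: `K * U ≥ 0`, so `U ≤ 0`, `U < 0`
  (general position: `u ≠ q, b`). `0 = x0(q) K + x1(q) U + x2(q) W` gives `W > 0`. `u w` is not
  crossed and `U * W < 0`: `x0(q) x0(b) ≥ 0`, `x0(b) ≥ 0`. `0 = x0(b) K + x1(b) U + x2(b) W` gives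
  `x1(b) U > 0`, `x1(b) < 0`. But `W = K + x1(b) - x1(q) < 0`: contradiction.
* So `x2(b) > 0`. `D * o y q b = x1(q) x2(b) - x2(q) x1(b) < 0` gives `x1(b) > 0`. Suppose
  `x0(b) ≤ 0`; `x0(b) = 0` means `b = w` (`b ≠ u`), but `x1(w) = 0`. So `x0(b) < 0`; `u w` is not
  crossed: `U * W ≥ 0`; `0 = x0(q) K + x1(q) U + x2(q) W` with `K < 0` shows that one of `U, W` is
  positive, so both are `≥ 0`; then `0 = x0(b) K + x1(b) U + x2(b) W > 0`: contradiction.
-/

set_option autoImplicit false

namespace FPW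

variable {α : Type*} {p : α → ℝ × ℝ}

/-- coordinates of `q` -/
private theorem tri_q {y u w q : α} (h : 0 < o p y u w) (hq : q = w ∨ InTri p y u w q) :
    0 ≤ o p u w q ∧ 0 ≤ o p w y q ∧ 0 < o p y u q := by
  rcases hq with rfl | hq
  · refine ⟨?_, ?_, h⟩
    · simp
    · simp
  · obtain ⟨h1, h2, h3⟩ := InTri_pos hq h
    exact ⟨h2.le, h3.le, h1⟩

private theorem tri_U (y u e f : α) :
    o p e f u = o p e f y - o p y u f + o p y u e := by
  unfold o; ring

private theorem tri_W (y w e f : α) :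
    o p e f w = o p e f y + o p w y f - o p w y e := by
  unfold o; ring

private theorem tri_core (hgp : GP p) {y u w q e f : α} (h : 0 < o p y u w)
    (hq : q = w ∨ InTri p y u w q) (hX : X p y q e f) (he : 0 < o p y e q) (hf : o p y f q < 0)
    (heu : e ≠ u) (hfu : f ≠ u) (h1 : ¬ X p y u e f) (h2 : ¬ X p u w e f) :
    InTri p y u w e := by
  obtain ⟨q0, q1, q2⟩ := tri_q h hq
  obtain ⟨-, hef, hye, hyf, hqe, hqf⟩ := X_ne hX
  have hyu : y ≠ u := by rintro rfl; simp at h
  have huw : u ≠ w := by rintro rfl; simp at h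
  have R1 := o_bary p y u w e f q
  have R2 := o_bary p y u w e f e
  have R4 := tri_U (p := p) y u e f
  have R5 := tri_W (p := p) y w e f
  have R6 := o_det p y u w e q
  have S1 := o_add p y u w e
  have S2 := o_add p y u w f
  have KA := o_add p e f y q
  have hfy : 0 < o p f y q := by rw [o_swap p y f q]; linarith
  have hX2 := hX.2
  have hKgt : o p e f q < o p e f y := by linarith
  have hK : 0 < o p e f y := by
    by_contra hK
    have hK' : o p e f y ≤ 0 := not_lt.mp hK
    have : o p e f q < 0 := lt_of_lt_of_le hKgt hK'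
    nlinarith
  have hQ : o p e f q < 0 := by
    by_contra hQ
    have hQ' : 0 ≤ o p e f q := not_lt.mp hQ
    nlinarith
  obtain ⟨t, τ, ht0, ht1, hτ0, hτ1, hP⟩ := X_param hX
  have P0 := hP u w
  have P1 := hP w y
  have P2 := hP y u
  rw [o_rot p y u w] at P0
  rw [o_self3 p w y] at P1
  rw [o_self2 p y u] at P2
  have hU0 : o p e f u ≠ 0 := hgp.ne e f u hef hfu heu
  have hx2e : o p y u e ≠ 0 := hgp.ne y u e hyu heu.symm hye
  have hs0 : 0 < (1 - τ) * o p u w e + τ * o p u w f := by
    rw [← P0]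
    have a1 : 0 < (1 - t) * o p y u w := mul_pos (by linarith) h
    have a2 : 0 ≤ t * o p u w q := mul_nonneg ht0.le q0
    linarith
  have hs1 : 0 ≤ (1 - τ) * o p w y e + τ * o p w y f := by
    rw [← P1]
    have a2 : 0 ≤ t * o p w y q := mul_nonneg ht0.le q1
    linarith
  have hs2 : 0 < (1 - τ) * o p y u e + τ * o p y u f := by
    rw [← P2]
    have a2 : 0 < t * o p y u q := mul_pos ht0 q2
    linarith
  have hτ1' : 0 < 1 - τ := by linarith
  have hD1 : o p y u w * o p e f q < 0 := mul_neg_of_pos_of_neg h hQ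
  rw [o_self2 p e f, mul_zero] at R2
  have h1' : o p y u e * o p y u f < 0 → 0 ≤ o p e f y * o p e f u := by
    intro hh
    by_contra hc
    exact h1 ⟨hh, not_le.mp hc⟩
  have h2' : o p u w e * o p u w f < 0 → 0 ≤ o p e f u * o p e f w := by
    intro hh
    by_contra hc
    exact h2 ⟨hh, not_le.mp hc⟩
  -- second coordinate
  have hx2 : 0 < o p y u e := by
    by_contra hneg
    have hx2n : o p y u e < 0 := lt_of_le_of_ne (not_lt.mp hneg) hx2e
    have hx2f : 0 < o p y u f := by
      by_contra hcf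
      have hcf' : o p y u f ≤ 0 := not_lt.mp hcf
      have a1 : (1 - τ) * o p y u e < 0 := mul_neg_of_pos_of_neg hτ1' hx2n
      have a2 : τ * o p y u f ≤ 0 := mul_nonpos_of_nonneg_of_nonpos hτ0.le hcf'
      linarith
    have hKU := h1' (mul_neg_of_neg_of_pos hx2n hx2f)
    have hU : 0 < o p e f u := by
      rcases lt_or_gt_of_ne hU0 with hh | hh
      · have := mul_neg_of_pos_of_neg hK hh
        linarith
      · exact hh
    have hW : o p e f w < 0 := by
      by_contra hc
      have hc' : 0 ≤ o p e f w := not_lt.mp hc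
      have a1 : 0 ≤ o p u w q * o p e f y := mul_nonneg q0 hK.le
      have a2 : 0 ≤ o p w y q * o p e f u := mul_nonneg q1 hU.le
      have a3 : 0 ≤ o p y u q * o p e f w := mul_nonneg q2.le hc'
      linarith
    have hx0f : 0 < o p u w f := by
      by_contra hc
      have hc' : o p u w f ≤ 0 := not_lt.mp hc
      have hx0e : o p u w e < 0 := by linarith
      have a1 : (1 - τ) * o p u w e < 0 := mul_neg_of_pos_of_neg hτ1' hx0e
      have a2 : τ * o p u w f ≤ 0 := mul_nonpos_of_nonneg_of_nonpos hτ0.le hc'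
      linarith
    have hx0e : o p u w e < 0 := by
      by_contra hc
      have hc' : 0 ≤ o p u w e := not_lt.mp hc
      have a1 : 0 ≤ o p u w e * o p e f y := mul_nonneg hc' hK.le
      have a3 : 0 < o p y u e * o p e f w := mul_pos_of_neg_of_neg hx2n hW
      have a2 : o p w y e * o p e f u < 0 := by linarith
      have hx1e : o p w y e < 0 := by
        by_contra hcc
        have := mul_nonneg (not_lt.mp hcc) hU.le
        linarith
      have hx1f : o p w y f < 0 := by linarith
      have b1 : (1 - τ) * o p w y e < 0 := mul_neg_of_pos_of_neg hτ1' hx1e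
      have b2 : τ * o p w y f < 0 := mul_neg_of_pos_of_neg hτ0 hx1f
      linarith
    have := h2' (mul_neg_of_neg_of_pos hx0e hx0f)
    have b3 := mul_neg_of_pos_of_neg hU hW
    linarith
  -- first coordinate
  have hx1 : 0 < o p w y e := by
    have a1 : 0 < o p y u w * o p y e q := mul_pos h he
    have a2 : 0 ≤ o p y u e * o p w y q := mul_nonneg hx2.le q1
    by_contra hc
    have a3 : o p w y e * o p y u q ≤ 0 :=
      mul_nonpos_of_nonpos_of_nonneg (not_lt.mp hc) q2.le
    linarith
  have hx0 : 0 < o p u w e := by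
    by_contra hc
    have hne : o p u w e ≠ 0 := by
      by_cases hew : e = w
      · subst hew
        simp at hx1
      · exact hgp.ne u w e huw (fun h' => hew h'.symm) heu.symm
    have hx0e : o p u w e < 0 := lt_of_le_of_ne (not_lt.mp hc) hne
    have hx0f : 0 < o p u w f := by
      by_contra hcf
      have hcf' : o p u w f ≤ 0 := not_lt.mp hcf
      have a1 : (1 - τ) * o p u w e < 0 := mul_neg_of_pos_of_neg hτ1' hx0e
      have a2 : τ * o p u w f ≤ 0 := mul_nonpos_of_nonneg_of_nonpos hτ0.le hcf'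
      linarith
    have hUW := h2' (mul_neg_of_neg_of_pos hx0e hx0f)
    have hUn : o p e f u ≤ 0 ∧ o p e f w ≤ 0 := by
      rcases lt_or_gt_of_ne hU0 with hh | hh
      · refine ⟨hh.le, ?_⟩
        by_contra hcc
        have := mul_neg_of_neg_of_pos hh (not_le.mp hcc)
        linarith
      · exfalso
        have hW : 0 ≤ o p e f w := by
          by_contra hcc
          have := mul_neg_of_pos_of_neg hh (not_le.mp hcc)
          linarith
        have a1 : 0 ≤ o p u w q * o p e f y := mul_nonneg q0 hK.le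
        have a2 : 0 ≤ o p w y q * o p e f u := mul_nonneg q1 hh.le
        have a3 : 0 ≤ o p y u q * o p e f w := mul_nonneg q2.le hW
        linarith
    have a1 : o p u w e * o p e f y < 0 := mul_neg_of_neg_of_pos hx0e hK
    have a2 : o p w y e * o p e f u ≤ 0 := mul_nonpos_of_nonneg_of_nonpos hx1.le hUn.1
    have a3 : o p y u e * o p e f w ≤ 0 := mul_nonpos_of_nonneg_of_nonpos hx2.le hUn.2
    linarith
  exact Or.inl ⟨hx2, hx0, hx1⟩

theorem g1b (hgp : GP p) {y u w q c d : α} (h : 0 < o p y u w)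
    (hq : q = w ∨ InTri p y u w q) (hX : X p y q c d) (hc : c ≠ u) (hd : d ≠ u)
    (h1 : ¬ X p y u c d) (h2 : ¬ X p u w c d) :
    (InTri p y u w c ∧ 0 < o p y c q) ∨ (InTri p y u w d ∧ 0 < o p y d q) := by
  have e1 : o p y q c = - o p y c q := o_swap' p y c q
  have e2 : o p y q d = - o p y d q := o_swap' p y d q
  have hX1 := hX.1
  rcases mul_neg_iff.1 hX1 with ⟨ha, hb⟩ | ⟨ha, hb⟩
  · right
    have hd' : 0 < o p y d q := by linarith
    have hc' : o p y c q < 0 := by linarith
    exact ⟨tri_core hgp h hq (X_sw2.1 hX) hd' hc' hd hc (fun h' => h1 (X_sw2.1 h'))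
      (fun h' => h2 (X_sw2.1 h')), hd'⟩
  · left
    have hc' : 0 < o p y c q := by linarith
    have hd' : o p y d q < 0 := by linarith
    exact ⟨tri_core hgp h hq hX hc' hd' hc hd h1 h2, hc'⟩

theorem g1c (hgp : GP p) {y u w q b : α} (h : 0 < o p y u w) (hq : InTri p y u w q)
    (hb : o p y q b < 0) (hbu : b ≠ u) (h1 : ¬ X p y u q b) (h2 : ¬ X p u w q b) :
    InTri p y u w b ∧ 0 < o p y b q := by
  have hbq : 0 < o p y b q := by
    rw [o_swap' p y q b]; linarith
  refine ⟨?_, hbq⟩
  obtain ⟨q2, q0, q1⟩ := InTri_pos hq h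
  have hyu : y ≠ u := by rintro rfl; simp at h
  have huw : u ≠ w := by rintro rfl; simp at h
  have hby : y ≠ b := by rintro rfl; simp at hb
  have hqb : q ≠ b := by rintro rfl; simp at hb
  have hqu : q ≠ u := by rintro rfl; simp at q2
  have R2 := o_bary p y u w q b q
  have R3 := o_bary p y u w q b b
  have R4 := tri_U (p := p) y u q b
  have R5 := tri_W (p := p) y w q b
  have R6 := o_det p y u w q b
  rw [o_self2 p q b, mul_zero] at R2
  rw [o_self3 p q b, mul_zero] at R3
  have hK : o p q b y < 0 := by rw [o_rot p y q b]; exact hb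
  have hU0 : o p q b u ≠ 0 := hgp.ne q b u hqb hbu hqu
  have hx2b : o p y u b ≠ 0 := hgp.ne y u b hyu hbu.symm hby
  have h1' : o p y u q * o p y u b < 0 → 0 ≤ o p q b y * o p q b u := by
    intro hh
    by_contra hc
    exact h1 ⟨hh, not_le.mp hc⟩
  have h2' : o p u w q * o p u w b < 0 → 0 ≤ o p q b u * o p q b w := by
    intro hh
    by_contra hc
    exact h2 ⟨hh, not_le.mp hc⟩
  have m0 : o p u w q * o p q b y < 0 := mul_neg_of_pos_of_neg q0 hK
  have hx2 : 0 < o p y u b := by
    by_contra hneg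
    have hx2n : o p y u b < 0 := lt_of_le_of_ne (not_lt.mp hneg) hx2b
    have hKU := h1' (mul_neg_of_pos_of_neg q2 hx2n)
    have hU : o p q b u < 0 := by
      rcases lt_or_gt_of_ne hU0 with hh | hh
      · exact hh
      · have := mul_neg_of_neg_of_pos hK hh
        linarith
    have m1 : o p w y q * o p q b u < 0 := mul_neg_of_pos_of_neg q1 hU
    have hW : 0 < o p q b w := by
      by_contra hc
      have := mul_nonpos_of_nonneg_of_nonpos q2.le (not_lt.mp hc)
      linarith
    have hx0 : 0 ≤ o p u w b := by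
      by_contra hc
      have := h2' (mul_neg_of_pos_of_neg q0 (not_le.mp hc))
      have := mul_neg_of_neg_of_pos hU hW
      linarith
    have a1 : o p u w b * o p q b y ≤ 0 := mul_nonpos_of_nonneg_of_nonpos hx0 hK.le
    have a3 : o p y u b * o p q b w < 0 := mul_neg_of_neg_of_pos hx2n hW
    have hx1 : o p w y b < 0 := by
      by_contra hc
      have := mul_nonpos_of_nonneg_of_nonpos (not_lt.mp hc) hU.le
      linarith
    linarith
  have hx1 : 0 < o p w y b := by
    have a1 : o p y u w * o p y q b < 0 := mul_neg_of_pos_of_neg h hb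
    have a2 : 0 < o p w y q * o p y u b := mul_pos q1 hx2
    by_contra hc
    have a3 : o p y u q * o p w y b ≤ 0 := mul_nonpos_of_nonneg_of_nonpos q2.le (not_lt.mp hc)
    linarith
  have hx0 : 0 < o p u w b := by
    by_contra hc
    have hne : o p u w b ≠ 0 := by
      by_cases hbw : b = w
      · subst hbw
        simp at hx1
      · exact hgp.ne u w b huw (fun h' => hbw h'.symm) hbu.symm
    have hx0b : o p u w b < 0 := lt_of_le_of_ne (not_lt.mp hc) hne
    have hUW := h2' (mul_neg_of_pos_of_neg q0 hx0b)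
    have hUn : 0 ≤ o p q b u ∧ 0 ≤ o p q b w := by
      rcases lt_or_gt_of_ne hU0 with hh | hh
      · exfalso
        have hW : o p q b w ≤ 0 := by
          by_contra hcc
          have := mul_neg_of_neg_of_pos hh (not_le.mp hcc)
          linarith
        have a2 : o p w y q * o p q b u ≤ 0 := mul_nonpos_of_nonneg_of_nonpos q1.le hh.le
        have a3 : o p y u q * o p q b w ≤ 0 := mul_nonpos_of_nonneg_of_nonpos q2.le hW
        linarith
      · refine ⟨hh.le, ?_⟩
        by_contra hcc
        have := mul_neg_of_pos_of_neg hh (not_le.mp hcc)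
        linarith
    have a1 : 0 < o p u w b * o p q b y := mul_pos_of_neg_of_neg hx0b hK
    have a2 : 0 ≤ o p w y b * o p q b u := mul_nonneg hx1.le hUn.1
    have a3 : 0 ≤ o p y u b * o p q b w := mul_nonneg hx2.le hUn.2
    linarith
  exact Or.inl ⟨hx2, hx0, hx1⟩

end FPW
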