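import Pool.Agent.Lib.MP_deef39_co_PW.Defs

/-! # PW module TriX: the key lemma for half-planes

`c d` crosses `z q₁`, `d` on the left of `z → q₁`. `q'` is `d` or lies in the open triangle
`z, (z q₁ ∩ c d), d`. A segment `c' d'` crossing `z q'`, but neither `z q₁` nor `c d`, has an end
point in this open triangle which comes before `q'` in the angular order.

Coordinates with respect to the triangle `z, q₁, d`, `D = o z q₁ d > 0`: `x0(x) = o q₁ d x`,
`x1(x) = o d z x`, `x2(x) = o z q₁ x`, `x0 + x1 + x2 = D`. `h(x) := o c d x`. For the segment `e f`: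
`K = o e f z`, `U = o e f q₁`, `W = o e f d`, `C = o e f c`; `o_bary`:
`D * o e f x = x0(x) K + x1(x) U + x2(x) W`. Also `W = K + x1(f) - x1(e)` (`unfold o; ring`),
`D * o z e q' = x1(e) x2(q') - x2(e) x1(q')`, `D * h(x) = x0(x) h(z) + x1(x) h(q₁)`.

(0) `o z q₁ c < 0 < o z q₁ d`; `h(z) = h(q₁) + o z q₁ d - o z q₁ c > h(q₁)` and `h(z) h(q₁) < 0`,
so `h(q₁) < 0 < h(z)`. Let `e ∈ {c', d'}` with `0 < o z e q'`, `f` the other one, `o z f q' < 0`.
`K = o e f q' + o f z q' + o z e q' > o e f q'` and `K * o e f q' < 0`: `o e f q' < 0 < K`.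
`x1(q') ≥ 0`, `x2(q') > 0`, `h(q') ≥ 0`, and `x0(q') ≥ 0` (`x0(q') h(z) = D h(q') - x1(q') h(q₁)`).
`X_param` for `X p z q' e f`: a point `s` (`t, τ ∈ (0,1)`) with `x1(s) = t x1(q') ≥ 0`,
`x2(s) = t x2(q') > 0`, `h(s) = (1-t) h(z) + t h(q') > 0`, and
`x_i(s) = (1-τ) x_i(e) + τ x_i(f)`, `h(s) = (1-τ) h(e) + τ h(f)`.
(All these are instances of the last part of `X_param`: `x1 = o d z ·`, `x2 = o z q₁ ·`,
`h = o c d ·`.)

(1) Suppose `x2(e) ≤ 0`. Then `x2(f) > 0`, so `f ≠ q₁`. If `x2(e) < 0`: `z q₁` is not crossed by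
`e f`, so `K * U ≥ 0`, `U ≥ 0`. If `x2(e) = 0` then `e = q₁` (`e ≠ z`), `U = 0`. So `U ≥ 0`.
`D * o e f q' = x0(q') K + x1(q') U + x2(q') W < 0` gives `W < 0`. So `x1(f) < x1(e) - K < x1(e)`.
`C > 0`: let `c d` and `z q₁` cross at `s₁` (`X_param`, `t₁, τ₁`):
`(1-t₁) K + t₁ U = (1-τ₁) C + τ₁ W` (instance `u = e`, `v = f`), the left side is positive and
`W < 0`, so `C > 0`. So `C * W < 0`. Claim `h(e) < 0`. Suppose `h(e) ≥ 0`:
`x0(e) h(z) + x1(e) h(q₁) ≥ 0`, and `0 = x0(e) K + x1(e) U + x2(e) W` with `x2(e) W ≥ 0`, so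
`x0(e) K + x1(e) U ≤ 0`. If `x1(e) ≥ 0` then `x0(e) ≥ 0` by the first, so `x0(e) = 0` by the second,
`x1(e) = 0` by the first (`h(q₁) < 0`), and `x2(e) = D > 0`: contradiction. If `x1(e) < 0` then
`x1(f) < 0` too and `x1(s) < 0`: contradiction. So `h(e) < 0`, `h(f) > 0` (as `h(s) > 0`), and `e f`
crosses `c d`: contradiction.

(2) So `x2(e) > 0`, and `x1(e) x2(q') > x2(e) x1(q') ≥ 0` gives `x1(e) > 0`, i.e. `0 < o z e d`.
Suppose `h(e) ≤ 0`. `h(e) = 0` means `e ∈ {c, d}` (general position), but `x2(c) < 0`, `x1(d) = 0`.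
So `h(e) < 0`, `h(f) > 0`, and as `c d` is not crossed: `C * W ≥ 0`. If `C, W ≥ 0` then `U ≥ 0`...:
use instead the triangle `z, c, d`, `D' = o z c d = h(z) > 0`, coordinates `y0(x) = h(x) = o c d x`,
`y1(x) = o d z x = x1(x)`, `y2(x) = o z c x`: `D' * o e f x = y0(x) K + y1(x) C + y2(x) W`. For
`x = q'`: `y0(q') ≥ 0`, `y1(q') ≥ 0`, `y2(q') > 0` (since `D * o z c x = x1(x) * o z c q₁ +
x2(x) * o z c d` (ring) with `o z c q₁ > 0`, `o z c d > 0`), and `o e f q' < 0`, so one of `C, W` is
negative, so both are `≤ 0`. For `x = e`: `y0(e) < 0`, `y1(e) > 0`, `y2(e) > 0`: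
`0 = y0(e) K + y1(e) C + y2(e) W < 0`, contradiction. So `h(e) > 0` and `e` satisfies all
claims.
-/

set_option autoImplicit false

namespace FPW

variable {α : Type*} {p : α → ℝ × ℝ}

private theorem trix_core (hgp : GP p) {z q₁ c d q' e f : α} (hX : X p z q₁ c d)
    (hd : 0 < o p z q₁ d)
    (hq' : q' = d ∨ (0 < o p z q₁ q' ∧ 0 < o p z q' d ∧ 0 < o p c d q'))
    (hX' : X p z q' e f) (h1 : ¬ X p z q₁ e f) (h2 : ¬ X p c d e f) (he : 0 < o p z e q') :
    0 < o p z q₁ e ∧ 0 < o p z e d ∧ 0 < o p c d e ∧ 0 < o p z e q' := by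
  have nX := X_ne hX
  have nX' := X_ne hX'
  -- signs of step (0)
  have hc : o p z q₁ c < 0 := by
    have := hX.1
    by_contra h0
    push Not at h0
    nlinarith
  have hzq : o p c d z = o p c d q₁ + o p z q₁ d - o p z q₁ c := by unfold o; ring
  have hhq : o p c d q₁ < 0 ∧ 0 < o p c d z := by
    have h := hX.2
    rcases mul_neg_iff.1 h with ⟨h3, h4⟩ | ⟨h3, h4⟩
    · exact ⟨h4, h3⟩
    · exfalso; linarith
  obtain ⟨hhq1, hhz⟩ := hhq
  have hzf : o p z f q' < 0 := by
    have h := hX'.1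
    rw [o_swap' p z e q', o_swap' p z f q'] at h
    by_contra h0
    push Not at h0
    nlinarith
  have hK : o p e f q' < 0 ∧ 0 < o p e f z := by
    have h := hX'.2
    have h3 := o_add p e f z q'
    have h4 : o p f z q' = - o p z f q' := o_swap p z f q'
    rcases mul_neg_iff.1 h with ⟨h5, h6⟩ | ⟨h5, h6⟩
    · exact ⟨h6, h5⟩
    · exfalso; linarith
  obtain ⟨hQ, hKz⟩ := hK
  -- coordinates of `q'`
  have hx1q : 0 ≤ o p d z q' := by
    rcases hq' with rfl | ⟨_, h3, _⟩
    · simp
    · rw [← o_rot p d z q'] at *; exact le_of_lt h3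
  have hx2q : 0 < o p z q₁ q' := by
    rcases hq' with rfl | ⟨h3, _, _⟩
    · exact hd
    · exact h3
  have hhq' : 0 ≤ o p c d q' := by
    rcases hq' with rfl | ⟨_, _, h3⟩
    · simp
    · exact le_of_lt h3
  have hH : ∀ x, o p z q₁ d * o p c d x = o p q₁ d x * o p c d z + o p d z x * o p c d q₁ := by
    intro x
    have := o_bary p z q₁ d c d x
    rw [this]; simp
  have hx0q : 0 ≤ o p q₁ d q' := by
    have h3 := hH q'
    by_contra h0
    push Not at h0
    nlinarith [mul_nonneg (le_of_lt hd) hhq', mul_nonneg hx1q (le_of_lt (neg_pos.2 hhq1)),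
      mul_pos (neg_pos.2 h0) hhz]
  have hsum : ∀ x, o p q₁ d x + o p d z x + o p z q₁ x = o p z q₁ d := by
    intro x; unfold o; ring
  have hBar : ∀ x, o p z q₁ d * o p e f x = o p q₁ d x * o p e f z + o p d z x * o p e f q₁ +
      o p z q₁ x * o p e f d := fun x => o_bary p z q₁ d e f x
  have hWK : o p e f d = o p e f z + o p d z f - o p d z e := by unfold o; ring
  obtain ⟨t, τ, ht0, ht1, hτ0, hτ1, hpar⟩ := X_param hX'
  have hs1 := hpar d z
  have hs2 := hpar z q₁
  have hsh := hpar c d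
  simp only [o_self2, o_self3, mul_zero, zero_add] at hs1 hs2
  -- `s1 : t * x1 q' = (1-τ) x1 e + τ x1 f`
  have hs1' : 0 ≤ (1 - τ) * o p d z e + τ * o p d z f := by
    rw [← hs1]; exact mul_nonneg (le_of_lt ht0) hx1q
  have hs2' : 0 < (1 - τ) * o p z q₁ e + τ * o p z q₁ f := by
    rw [← hs2]; exact mul_pos ht0 hx2q
  have hsh' : 0 < (1 - τ) * o p c d e + τ * o p c d f := by
    rw [← hsh]
    have : 0 < (1 - t) * o p c d z := mul_pos (by linarith) hhz
    have h4 : 0 ≤ t * o p c d q' := mul_nonneg (le_of_lt ht0) hhq'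
    linarith
  have hτ' : 0 < 1 - τ := by linarith
  have hef0 : o p e f e = 0 := by simp
  have hBe := hBar e
  rw [hef0, mul_zero] at hBe
  -- (1)
  have hx2e : 0 < o p z q₁ e := by
    by_contra h0
    push Not at h0
    have hx2f : 0 < o p z q₁ f := by
      by_contra h3
      push Not at h3
      nlinarith [mul_nonneg (le_of_lt hτ') (neg_nonneg.2 h0),
        mul_nonneg (le_of_lt hτ0) (neg_nonneg.2 h3)]
    have hU : 0 ≤ o p e f q₁ := by
      rcases h0.lt_or_eq with h3 | h3
      · by_contra h4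
        push Not at h4
        exact h1 ⟨mul_neg_of_neg_of_pos h3 hx2f, mul_neg_of_pos_of_neg hKz h4⟩
      · by_cases h4 : e = q₁
        · subst h4; simp
        · exfalso
          exact hgp.ne z q₁ e nX.1 (Ne.symm h4) nX'.2.2.1 h3
    have hW : o p e f d < 0 := by
      have h3 := hBar q'
      have h4 : o p z q₁ d * o p e f q' < 0 := mul_neg_of_pos_of_neg hd hQ
      by_contra h5
      push Not at h5
      have h6 := mul_nonneg hx0q (le_of_lt hKz)
      have h7 := mul_nonneg hx1q hU
      have h8 := mul_nonneg (le_of_lt hx2q) h5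
      linarith
    have hx1fe : o p d z f < o p d z e := by linarith
    obtain ⟨t₁, τ₁, ht₁0, ht₁1, hτ₁0, hτ₁1, hpar₁⟩ := X_param hX
    have hC : 0 < o p e f c := by
      have h3 := hpar₁ e f
      by_contra h4
      push Not at h4
      have h5 := mul_pos (by linarith : (0:ℝ) < 1 - t₁) hKz
      have h6 := mul_nonneg (le_of_lt ht₁0) hU
      have h7 := mul_nonneg (by linarith : (0:ℝ) ≤ 1 - τ₁) (neg_nonneg.2 h4)
      have h8 := mul_pos hτ₁0 (neg_pos.2 hW)
      linarith
    have hhe : o p c d e < 0 := by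
      by_contra h3
      push Not at h3
      have h4 := hH e
      have h5 : 0 ≤ o p z q₁ e * o p e f d := mul_nonneg_of_nonpos_of_nonpos h0 (le_of_lt hW)
      have h6 : 0 ≤ o p z q₁ d * o p c d e := mul_nonneg (le_of_lt hd) h3
      rcases le_or_gt 0 (o p d z e) with h7 | h7
      · have h8 : 0 ≤ o p q₁ d e := by
          by_contra h9
          push Not at h9
          have h10 := mul_pos (neg_pos.2 h9) hhz
          have h11 := mul_nonneg h7 (le_of_lt (neg_pos.2 hhq1))
          linarith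
        have h9 : o p q₁ d e * o p e f z ≤ 0 := by
          have := mul_nonneg h7 hU
          linarith
        have h10 : o p q₁ d e = 0 := by
          rcases h8.lt_or_eq with h11 | h11
          · exfalso
            have := mul_pos h11 hKz
            linarith
          · exact h11.symm
        have h11 : o p d z e = 0 := by
          rcases h7.lt_or_eq with h12 | h12
          · exfalso
            have := mul_pos h12 (neg_pos.2 hhq1)
            rw [h10] at h4
            linarith
          · exact h12.symm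
        have h12 := hsum e
        linarith
      · have h8 : o p d z f < 0 := by linarith
        have h9 := mul_pos hτ' (neg_pos.2 h7)
        have h10 := mul_pos hτ0 (neg_pos.2 h8)
        linarith
    have hhf : 0 < o p c d f := by
      by_contra h3
      push Not at h3
      have h4 := mul_pos hτ' (neg_pos.2 hhe)
      have h5 := mul_nonneg (le_of_lt hτ0) (neg_nonneg.2 h3)
      linarith
    exact h2 ⟨mul_neg_of_neg_of_pos hhe hhf, mul_neg_of_pos_of_neg hC hW⟩
  -- (2)
  have hdet := o_det p z q₁ d e q'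
  -- D * o z e q' = x1 e * x2 q' - x2 e * x1 q'
  have hx1e : 0 < o p d z e := by
    have h3 : 0 < o p z q₁ d * o p z e q' := mul_pos hd he
    rw [hdet] at h3
    have h4 : 0 ≤ o p z q₁ e * o p d z q' := mul_nonneg (le_of_lt hx2e) hx1q
    by_contra h5
    push Not at h5
    have h6 := mul_nonneg (neg_nonneg.2 h5) (le_of_lt hx2q)
    linarith
  have hhe : 0 < o p c d e := by
    by_contra h0
    push Not at h0
    have hne : o p c d e < 0 := by
      rcases h0.lt_or_eq with h3 | h3
      · exact h3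
      · exfalso
        have hec : e ≠ c := by
          rintro rfl
          linarith
        have hed : e ≠ d := by
          rintro rfl
          simp at hx1e
        exact hgp.ne c d e nX.2.1 (Ne.symm hed) (Ne.symm hec) h3
    have hhf : 0 < o p c d f := by
      by_contra h3
      push Not at h3
      have h4 := mul_pos hτ' (neg_pos.2 hne)
      have h5 := mul_nonneg (le_of_lt hτ0) (neg_nonneg.2 h3)
      linarith
    have hCW : 0 ≤ o p e f c * o p e f d := by
      by_contra h3
      push Not at h3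
      exact h2 ⟨mul_neg_of_neg_of_pos hne hhf, h3⟩
    have hBar' : ∀ x, o p z c d * o p e f x = o p c d x * o p e f z + o p d z x * o p e f c +
        o p z c x * o p e f d := fun x => o_bary p z c d e f x
    have hD' : o p z c d = o p c d z := by unfold o; ring
    have hy2 : ∀ x, o p z q₁ d * o p z c x = o p d z x * o p z c q₁ + o p z q₁ x * o p z c d := by
      intro x; unfold o; ring
    have hzcq : 0 < o p z c q₁ := by
      rw [o_swap' p z q₁ c]; linarith
    have hy2q : 0 < o p z c q' := by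
      have h3 := hy2 q'
      have h4 := mul_nonneg hx1q (le_of_lt hzcq)
      have h5 := mul_pos hx2q (by rw [hD']; exact hhz : 0 < o p z c d)
      by_contra h6
      push Not at h6
      have h7 := mul_nonneg (le_of_lt hd) (neg_nonneg.2 h6)
      linarith
    have hy2e : 0 < o p z c e := by
      have h3 := hy2 e
      have h4 := mul_nonneg (le_of_lt hx1e) (le_of_lt hzcq)
      have h5 := mul_pos hx2e (by rw [hD']; exact hhz : 0 < o p z c d)
      by_contra h6
      push Not at h6
      have h7 := mul_nonneg (le_of_lt hd) (neg_nonneg.2 h6)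
      linarith
    have hneg : o p e f c ≤ 0 ∧ o p e f d ≤ 0 := by
      have h3 := hBar' q'
      have h4 : o p z c d * o p e f q' < 0 := mul_neg_of_pos_of_neg (by rw [hD']; exact hhz) hQ
      rcases mul_nonneg_iff.1 hCW with ⟨h5, h6⟩ | ⟨h5, h6⟩
      · exfalso
        have h7 := mul_nonneg hhq' (le_of_lt hKz)
        have h8 := mul_nonneg hx1q h5
        have h9 := mul_nonneg (le_of_lt hy2q) h6
        linarith
      · exact ⟨h5, h6⟩
    have h3 := hBar' e
    rw [hef0, mul_zero] at h3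
    have h4 := mul_pos (neg_pos.2 hne) hKz
    have h5 := mul_nonneg (le_of_lt hx1e) (neg_nonneg.2 hneg.1)
    have h6 := mul_nonneg (le_of_lt hy2e) (neg_nonneg.2 hneg.2)
    linarith
  refine ⟨hx2e, ?_, hhe, he⟩
  rw [← o_rot p d z e] at *
  exact hx1e

theorem g1a (hgp : GP p) {z q₁ c d q' c' d' : α} (hX : X p z q₁ c d) (hd : 0 < o p z q₁ d)
    (hq' : q' = d ∨ (0 < o p z q₁ q' ∧ 0 < o p z q' d ∧ 0 < o p c d q'))
    (hX' : X p z q' c' d') (h1 : ¬ X p z q₁ c' d') (h2 : ¬ X p c d c' d') :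
    (0 < o p z q₁ c' ∧ 0 < o p z c' d ∧ 0 < o p c d c' ∧ 0 < o p z c' q') ∨
      (0 < o p z q₁ d' ∧ 0 < o p z d' d ∧ 0 < o p c d d' ∧ 0 < o p z d' q') := by
  have h := hX'.1
  rcases mul_neg_iff.1 h with ⟨h3, h4⟩ | ⟨h3, h4⟩
  · right
    refine trix_core hgp hX hd hq' (X_sw2.1 hX') (fun h5 => h1 (X_sw2.1 h5))
      (fun h5 => h2 (X_sw2.1 h5)) ?_
    rw [o_swap' p z q' d']; linarith
  · left
    refine trix_core hgp hX hd hq' hX' h1 h2 ?_
    rw [o_swap' p z q' c']; linarith

end FPW
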