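import Pool.Agent.Lib.MP_deef39_co_PW.First
import Pool.Agent.Lib.MP_deef39_co_PW.Tri
import Pool.Agent.Lib.MP_deef39_co_PW.TriX

/-! # PW module WLem: in every open half-plane containing a point there is a visible point

`wcore_step` (one orientation). `S` a finite set of pairs (edges), pairwise non-crossing, all end
points in `T`. Let `cd ∈ S`, `q₁ ∈ T` with `0 < cr r z q₁` and no pair of `S.erase (c,d)` (or no
pair other than `(c, d)`) crosses `z q₁`. Then some `q ∈ T`, `0 < cr r z q`, is crossed by no pair of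
`S`. Proof. If `(c, d)` does not cross `z q₁` take `q = q₁`. Otherwise `o z q₁ c`, `o z q₁ d` have
opposite signs. The crossing point lies on the open segment `z q₁`, so `cr r z ·` is positive
there, so one of `c, d` has `cr r z · > 0` (from the definition of `X`: a positive combination of
`p c - p z` and `p d - p z` is a positive multiple of `p q₁ - p z`; explicitly
`|o z q₁ c| (p d - p z) + |o z q₁ d| (p c - p z)` is a positive multiple of `p q₁ - p z`). By symmetry
(exchange `c, d`) let it be `d`: `0 < cr r z d`. If `0 < o z q₁ d` : `Z := {x ∈ T | x = d ∨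
(0 < o z q₁ x ∧ 0 < o z x d ∧ 0 < o c d x)}`, `d ∈ Z`. By `first_exists` (apex `z`, ray `q₁`) there
is `q' ∈ Z` with `0 < o z q' x` for all other `x ∈ Z`. `0 < cr r z q'`: clear for `q' = d`;
otherwise `q'` lies in the cone spanned by `q₁` and `d`
(`o z q₁ d • (p q' - p z) = o z q' d • (p q₁ - p z) + o z q₁ q' • (p d - p z)`, ring). If a pair
`(c', d') ∈ S` crosses `z q'`: it is not `(c, d)` (for `q' = d` shared end point; otherwise `c d`
crosses `z q₁` and `o c d z > 0` (see TriX (0)), `o c d q' > 0`: no crossing), so `g1a` gives a point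
of `Z` before `q'`: contradiction. If `o z q₁ d < 0`: apply this to `mir p` and
`r' = (-r.2, -r.1)` (`cr (-r.2, -r.1)` for the mirrored points equals `cr r`), or repeat the proof
with all signs changed.

`wcore`: induction on the finset `S` (`Finset.induction_on`): for `S = ∅` take `q₀`.

`wlem`: `S := ` all pairs `(a, b)` with `E a b` (`Finset.univ.filter`, classical,
`Fintype.ofFinite`).

`vis_exists`: `V` nonempty, `z ∉ V`: take `q₀ ∈ V`, `r := ` the vector with
`cr r (p z) (p q₀) = ‖p q₀ - p z‖² > 0`, e.g. `r = (δ.2, -δ.1)`, `δ = p q₀ - p z ≠ 0` by injectivity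
of `p`.
-/

set_option autoImplicit false

namespace FPW

variable {α : Type*} {p : α → ℝ × ℝ}

private theorem cr_mir (r : ℝ × ℝ) (a b : α) :
    cr (-r.2, -r.1) (mir p a) (mir p b) = cr r (p a) (p b) := by
  unfold cr mir
  ring

private theorem wstep [Finite α] (hgp : GP p) {T : Set α} {z : α} {E : α → α → Prop}
    (hs : ∀ a b, E a b → E b a) (hp : Plane p E) (hE : ∀ a b, E a b → a ∈ T) (r : ℝ × ℝ)
    {c d q₁ : α} (hcd : E c d) (hX : X p z q₁ c d) (hr : 0 < cr r (p z) (p q₁))
    (hdr : 0 < cr r (p z) (p d)) (hd : 0 < o p z q₁ d)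
    (hne : ∀ a b, E a b → ¬ X p z q₁ a b ∨ (a = c ∧ b = d) ∨ (a = d ∧ b = c)) :
    ∃ q ∈ T, 0 < cr r (p z) (p q) ∧ ∀ a b, E a b → ¬ X p z q a b := by
  have hz : 0 < o p c d z := by
    obtain ⟨h1, h2⟩ := hX
    have hc : o p z q₁ c < 0 := by
      by_contra h
      exact absurd h1 (not_lt.2 (mul_nonneg (not_lt.1 h) hd.le))
    have hid : o p c d z = o p c d q₁ + o p z q₁ d - o p z q₁ c := by
      unfold o
      ring
    by_contra h
    have h3 : o p c d q₁ < 0 := by linarith
    exact absurd h2 (not_lt.2 (mul_nonneg_of_nonpos_of_nonpos (not_lt.1 h) h3.le))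
  obtain ⟨q, hq, hmin⟩ := first_exists hgp (z := z) (r := q₁)
    (Z := {x | x ∈ T ∧ (x = d ∨ (0 < o p z q₁ x ∧ 0 < o p z x d ∧ 0 < o p c d x))})
    ⟨d, hE d c (hs c d hcd), Or.inl rfl⟩ (by
      rintro x ⟨-, rfl | h⟩
      · exact hd
      · exact h.1)
  refine ⟨q, hq.1, ?_, ?_⟩
  · rcases hq.2 with h | ⟨h1, h2, -⟩
    · rw [h]
      exact hdr
    · have hid : o p z q₁ d * cr r (p z) (p q) =
          o p z q d * cr r (p z) (p q₁) + o p z q₁ q * cr r (p z) (p d) := by
        unfold o cr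
        ring
      have h3 : 0 < o p z q₁ d * cr r (p z) (p q) := by
        rw [hid]
        exact add_pos (mul_pos h2 hr) (mul_pos h1 hdr)
      exact (pos_iff_pos_of_mul_pos h3).1 hd
  · intro c' d' hE' hX'
    have key : ∀ x, x ∈ T → 0 < o p z q₁ x → 0 < o p z x d → 0 < o p c d x →
        0 < o p z x q → False := by
      intro x hxT h1 h2 h3 h4
      by_cases hxq : x = q
      · rw [hxq, o_self3] at h4
        exact lt_irrefl _ h4
      · have := hmin x ⟨hxT, Or.inr ⟨h1, h2, h3⟩⟩ hxq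
        rw [o_swap'] at this
        linarith
    have hncd : ¬ X p z q c d := by
      intro hXX
      rcases hq.2 with h | ⟨-, -, h3⟩
      · exact (X_ne hXX).2.2.2.2.2 h
      · exact absurd hXX.2 (not_lt.2 (mul_pos hz h3).le)
    rcases hne c' d' hE' with h | ⟨rfl, rfl⟩ | ⟨rfl, rfl⟩
    · rcases g1a hgp hX hd hq.2 hX' h (hp c d c' d' hcd hE') with
        ⟨h1, h2, h3, h4⟩ | ⟨h1, h2, h3, h4⟩
      · exact key c' (hE c' d' hE') h1 h2 h3 h4
      · exact key d' (hE d' c' (hs _ _ hE')) h1 h2 h3 h4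
    · exact hncd hX'
    · exact hncd (X_sw2.1 hX')

private theorem wstep2 [Finite α] (hgp : GP p) {T : Set α} {z : α} {E : α → α → Prop}
    (hs : ∀ a b, E a b → E b a) (hp : Plane p E) (hE : ∀ a b, E a b → a ∈ T) (r : ℝ × ℝ)
    {c d q₁ : α} (hcd : E c d) (hX : X p z q₁ c d) (hr : 0 < cr r (p z) (p q₁))
    (hdr : 0 < cr r (p z) (p d))
    (hne : ∀ a b, E a b → ¬ X p z q₁ a b ∨ (a = c ∧ b = d) ∨ (a = d ∧ b = c)) :
    ∃ q ∈ T, 0 < cr r (p z) (p q) ∧ ∀ a b, E a b → ¬ X p z q a b := by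
  rcases lt_trichotomy 0 (o p z q₁ d) with h | h | h
  · exact wstep hgp hs hp hE r hcd hX hr hdr h hne
  · have h1 := hX.1
    rw [← h, mul_zero] at h1
    exact absurd h1 (lt_irrefl _)
  · obtain ⟨q, h1, h2, h3⟩ := wstep (p := mir p) (GP_mir hgp) (z := z) hs (Plane_mir.2 hp) hE
      (-r.2, -r.1) hcd (X_mir.2 hX) (by rw [cr_mir]; exact hr) (by rw [cr_mir]; exact hdr)
      (by rw [o_mir]; linarith) (by simpa only [X_mir] using hne)
    rw [cr_mir] at h2
    simp only [X_mir] at h3
    exact ⟨q, h1, h2, h3⟩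

private theorem wstep3 [Finite α] (hgp : GP p) {T : Set α} {z : α} {E : α → α → Prop}
    (hs : ∀ a b, E a b → E b a) (hp : Plane p E) (hE : ∀ a b, E a b → a ∈ T) (r : ℝ × ℝ)
    {c d q₁ : α} (hcd : E c d) (hX : X p z q₁ c d) (hr : 0 < cr r (p z) (p q₁))
    (hne : ∀ a b, E a b → ¬ X p z q₁ a b ∨ (a = c ∧ b = d) ∨ (a = d ∧ b = c)) :
    ∃ q ∈ T, 0 < cr r (p z) (p q) ∧ ∀ a b, E a b → ¬ X p z q a b := by
  have hor : 0 < cr r (p z) (p d) ∨ 0 < cr r (p z) (p c) := by
    by_contra hno
    push Not at hno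
    obtain ⟨hd0, hc0⟩ := hno
    have hid : o p z q₁ d * cr r (p z) (p c) - o p z q₁ c * cr r (p z) (p d) =
        o p z c d * cr r (p z) (p q₁) := by
      unfold o cr
      ring
    have hid2 : o p z c d = o p c d q₁ + o p z q₁ d - o p z q₁ c := by
      unfold o
      ring
    have hid3 : o p c d z = o p z c d := by
      unfold o
      ring
    obtain ⟨h1, h2⟩ := hX
    rcases mul_neg_iff.1 h1 with ⟨ha, hb⟩ | ⟨ha, hb⟩
    · have h3 : 0 ≤ o p z q₁ d * cr r (p z) (p c) - o p z q₁ c * cr r (p z) (p d) := by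
        have e1 := mul_nonneg_of_nonpos_of_nonpos hb.le hc0
        have e2 := mul_nonpos_of_nonneg_of_nonpos ha.le hd0
        linarith
      rw [hid] at h3
      have h4 : 0 ≤ o p z c d := by
        by_contra h
        exact absurd h3 (not_le.2 (mul_neg_of_neg_of_pos (not_le.1 h) hr))
      have h5 : 0 < o p c d q₁ := by linarith
      rw [hid3] at h2
      exact absurd h2 (not_lt.2 (mul_nonneg h4 h5.le))
    · have h3 : o p z q₁ d * cr r (p z) (p c) - o p z q₁ c * cr r (p z) (p d) ≤ 0 := by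
        have e1 := mul_nonpos_of_nonneg_of_nonpos hb.le hc0
        have e2 := mul_nonneg_of_nonpos_of_nonpos ha.le hd0
        linarith
      rw [hid] at h3
      have h4 : o p z c d ≤ 0 := by
        by_contra h
        exact absurd h3 (not_le.2 (mul_pos (not_le.1 h) hr))
      have h5 : o p c d q₁ < 0 := by linarith
      rw [hid3] at h2
      exact absurd h2 (not_lt.2 (mul_nonneg_of_nonpos_of_nonpos h4 h5.le))
  rcases hor with h | h
  · exact wstep2 hgp hs hp hE r hcd hX hr h hne
  · exact wstep2 hgp hs hp hE r (hs _ _ hcd) (X_sw2.1 hX) hr h (fun a b hab => by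
      rcases hne a b hab with h' | h' | h'
      · exact Or.inl h'
      · exact Or.inr (Or.inr h')
      · exact Or.inr (Or.inl h'))

theorem wcore [Finite α] (hgp : GP p) {T : Set α} {z : α} (S : Finset (α × α))
    (hS : ∀ e ∈ S, e.1 ∈ T ∧ e.2 ∈ T)
    (hpl : ∀ e ∈ S, ∀ f ∈ S, ¬ X p e.1 e.2 f.1 f.2) (r : ℝ × ℝ)
    {q₀ : α} (hq : q₀ ∈ T) (hr : 0 < cr r (p z) (p q₀)) :
    ∃ q ∈ T, 0 < cr r (p z) (p q) ∧ ∀ e ∈ S, ¬ X p z q e.1 e.2 := by
  classical
  induction S using Finset.induction_on with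
  | empty => exact ⟨q₀, hq, hr, fun e he => absurd he (Finset.notMem_empty e)⟩
  | insert e S he ih =>
    obtain ⟨q₁, hq₁, hr₁, hv⟩ := ih (fun f hf => hS f (Finset.mem_insert_of_mem hf))
      (fun f hf g hg => hpl f (Finset.mem_insert_of_mem hf) g (Finset.mem_insert_of_mem hg))
    by_cases hX : X p z q₁ e.1 e.2
    · obtain ⟨q, h1, h2, h3⟩ := wstep3 (T := T)
        (E := fun a b => (a, b) ∈ insert e S ∨ (b, a) ∈ insert e S) hgp
        (fun a b h => h.symm) (by
          intro a b c d hab hcd hXX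
          rcases hab with hab | hab <;> rcases hcd with hcd | hcd
          · exact hpl _ hab _ hcd hXX
          · exact hpl _ hab _ hcd (X_sw2.1 hXX)
          · exact hpl _ hab _ hcd (X_sw1.1 hXX)
          · exact hpl _ hab _ hcd (X_sw1.1 (X_sw2.1 hXX)))
        (by
          intro a b hab
          rcases hab with hab | hab
          · exact (hS _ hab).1
          · exact (hS _ hab).2) r (c := e.1) (d := e.2) (Or.inl (Finset.mem_insert_self e S))
        hX hr₁ (by
          intro a b hab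
          rcases hab with hab | hab <;> rcases Finset.mem_insert.1 hab with h | h
          · right; left
            rw [← h]
            exact ⟨rfl, rfl⟩
          · left
            exact hv _ h
          · right; right
            rw [← h]
            exact ⟨rfl, rfl⟩
          · left
            exact fun hh => hv _ h (X_sw2.1 hh))
      exact ⟨q, h1, h2, fun f hf => h3 f.1 f.2 (Or.inl hf)⟩
    · refine ⟨q₁, hq₁, hr₁, fun f hf => ?_⟩
      rcases Finset.mem_insert.1 hf with h | h
      · rw [h]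
        exact hX
      · exact hv f h

/-- every open half-plane with `z` on the boundary that contains a point of `T` contains a visible
point of `T` -/
theorem wlem [Finite α] (hgp : GP p) {T : Set α} {z : α} {E : α → α → Prop}
    (hs : ∀ a b, E a b → E b a) (hp : Plane p E) (hE : ∀ a b, E a b → a ∈ T) (r : ℝ × ℝ)
    {q₀ : α} (hq : q₀ ∈ T) (hr : 0 < cr r (p z) (p q₀)) :
    ∃ q ∈ T, 0 < cr r (p z) (p q) ∧ Vis p E z q := by
  classical
  have hfin : {e : α × α | E e.1 e.2}.Finite := Set.toFinite _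
  obtain ⟨q, h1, h2, h3⟩ := wcore hgp (T := T) (z := z) hfin.toFinset
    (fun e he => by
      have he' : E e.1 e.2 := hfin.mem_toFinset.1 he
      exact ⟨hE _ _ he', hE _ _ (hs _ _ he')⟩)
    (fun e he f hf => hp _ _ _ _ (hfin.mem_toFinset.1 he) (hfin.mem_toFinset.1 hf)) r hq hr
  exact ⟨q, h1, h2, fun c d hcd => h3 (c, d) (hfin.mem_toFinset.2 hcd)⟩

theorem vis_exists [Finite α] (hgp : GP p) {V : Set α} (hne : V.Nonempty) {z : α} (hz : z ∉ V)
    {E : α → α → Prop} (hs : ∀ a b, E a b → E b a) (hp : Plane p E)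
    (hE : ∀ a b, E a b → a ∈ V) : ∃ q ∈ V, Vis p E z q := by
  obtain ⟨q₀, hq₀⟩ := hne
  have hzq : p q₀ ≠ p z := fun h => hz (hgp.inj h ▸ hq₀)
  have hpos : 0 < cr ((p q₀).2 - (p z).2, -((p q₀).1 - (p z).1)) (p z) (p q₀) := by
    have hid : cr ((p q₀).2 - (p z).2, -((p q₀).1 - (p z).1)) (p z) (p q₀) =
        ((p q₀).2 - (p z).2) ^ 2 + ((p q₀).1 - (p z).1) ^ 2 := by
      unfold cr
      ring
    rw [hid]
    rcases (add_nonneg (sq_nonneg ((p q₀).2 - (p z).2))
      (sq_nonneg ((p q₀).1 - (p z).1))).lt_or_eq with h | h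
    · exact h
    · exfalso
      have h1 := sq_nonneg ((p q₀).2 - (p z).2)
      have h2 := sq_nonneg ((p q₀).1 - (p z).1)
      have h3 : ((p q₀).2 - (p z).2) ^ 2 = 0 := by linarith
      have h4 : ((p q₀).1 - (p z).1) ^ 2 = 0 := by linarith
      have h5 := pow_eq_zero_iff (two_ne_zero) |>.1 h3
      have h6 := pow_eq_zero_iff (two_ne_zero) |>.1 h4
      exact hzq (Prod.ext (by linarith) (by linarith))
  obtain ⟨q, h1, -, h3⟩ := wlem hgp (z := z) hs hp hE _ hq₀ hpos
  exact ⟨q, h1, h3⟩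

end FPW
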