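import Pool.Agent.Lib.MP_deef39_co_PW.RotB
import Pool.Agent.Lib.MP_deef39_co_PW.WLem

/-! # PW module GhostF: ghosts do not see free vertices; short paths

`ghostF`: suppose the ghost `g` sees `y` in the reachable path `l'`. Let
`O' a b := O a b ∨ (a = g ∧ b = y) ∨ (a = y ∧ b = g)`. `Wd p l' G O'` (plane since `g` sees `y`;
`g ≠ y` as `y ∈ l'`, `wd_reach`, `disj`), `Fc l' O' < Fc l' O = Fc l O` (`fc_lt`, `fc_reach`),
`l'.length = l.length` (`reach_perm`). `hIH` gives `Goal p l' G O'`; `reach_mono`, `Vis_mono`: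
`Goal p l' G O`, so `Goal p l G O` (`goal_reach`): contradiction.

`goal_one`: `V = G`, `z = x ∉ G`: `vis_exists` with `E a b := O a b ∧ a ∈ G ∧ b ∈ G`? simpler: apply
`wlem` with `T = {x} ∪ G`, `q₀ ∈ G`, `r` with `0 < cr r x q₀` (e.g. `r = (δ.2, -δ.1)`,
`δ = p q₀ - p x ≠ 0`): the visible point `q` has `cr r x q > 0`, so `q ≠ x`, `q ∈ G`. `A = []`.
`goal_two`: `T = {x, z} ∪ G`, `g ∈ G`, `r = ± (p x - p z)` with `0 < cr r (p z) (p g)` (it is
`± o p z x g ≠ 0`); `wlem`: a visible `q ∈ T` with `cr r z q > 0`, so `q ≠ z`, `q ≠ x`, `q ∈ G`.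
`A = [x]`.
-/

set_option autoImplicit false

namespace FPW

variable {α : Type*} {p : α → ℝ × ℝ}

theorem ghostF {l : List α} {G : Set α} {O : α → α → Prop} (hw : Wd p l G O)
    (hIH : ∀ (l' : List α) (O' : α → α → Prop), Wd p l' G O' → l'.length = l.length →
      Fc l' O' < Fc l O → Goal p l' G O')
    (hfail : ¬ Goal p l G O) {l' : List α} (hr : Reach p O l l') {y g : α} (hy : y ∈ l'.tail)
    (hO : ∀ b, ¬ O y b) (hg : g ∈ G) : ¬ Vis p (EO l' O) g y := by
  intro hv
  have hw' := wd_reach hw hr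
  have hyl : y ∈ l' := List.mem_of_mem_tail hy
  have hgy : g ≠ y := fun h => hw'.disj y hyl (h ▸ hg)
  have key : ∀ a b, EO l' (fun a b => O a b ∨ (a = g ∧ b = y) ∨ (a = y ∧ b = g)) a b →
      EO l' O a b ∨ (a = g ∧ b = y) ∨ (a = y ∧ b = g) := by
    rintro a b (h1 | h1 | h1)
    · exact Or.inl (Or.inl h1)
    · exact Or.inl (Or.inr h1)
    · exact Or.inr h1
  have hW : Wd p l' G (fun a b => O a b ∨ (a = g ∧ b = y) ∨ (a = y ∧ b = g)) := by
    refine ⟨hw'.nodup, hw'.ne, hw'.disj, ?_, ?_, ?_, ?_, ?_⟩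
    · rintro a b (h1 | ⟨h1, h2⟩ | ⟨h1, h2⟩)
      · exact Or.inl (hw'.symm a b h1)
      · exact Or.inr (Or.inr ⟨h2, h1⟩)
      · exact Or.inr (Or.inl ⟨h2, h1⟩)
    · rintro a b (h1 | ⟨h1, h2⟩ | ⟨h1, h2⟩)
      · exact hw'.gh a b h1
      · exact Or.inl (h1 ▸ hg)
      · exact Or.inr (h2 ▸ hg)
    · rintro a b (h1 | ⟨h1, h2⟩ | ⟨h1, h2⟩)
      · exact hw'.mem a b h1
      · exact Or.inr (h1 ▸ hg)
      · exact Or.inl (h1 ▸ hyl)
    · rintro a b (h1 | ⟨h1, h2⟩ | ⟨h1, h2⟩)
      · exact hw'.irr a b h1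
      · rw [h1, h2]; exact hgy
      · rw [h1, h2]; exact hgy.symm
    · intro a b c d hab hcd hX
      rcases key a b hab with h1 | ⟨rfl, rfl⟩ | ⟨rfl, rfl⟩
      · rcases key c d hcd with h2 | ⟨rfl, rfl⟩ | ⟨rfl, rfl⟩
        · exact hw'.plane a b c d h1 h2 hX
        · exact hv a b h1 (X_comm.1 hX)
        · exact hv a b h1 (X_sw1.1 (X_comm.1 hX))
      · rcases key c d hcd with h2 | ⟨rfl, rfl⟩ | ⟨rfl, rfl⟩
        · exact hv c d h2 hX
        · exact not_X_of_eq1 hX
        · exact not_X_of_eq2 hX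
      · rcases key c d hcd with h2 | ⟨rfl, rfl⟩ | ⟨rfl, rfl⟩
        · exact hv c d h2 (X_sw1.1 hX)
        · exact not_X_of_eq2 hX
        · exact not_X_of_eq1 hX
  have hlt : Fc l' (fun a b => O a b ∨ (a = g ∧ b = y) ∨ (a = y ∧ b = g)) < Fc l O := by
    rw [← fc_reach hr]
    exact fc_lt hy hO
  obtain ⟨A, z, g', h1, h2, h3⟩ := hIH l' _ hW (reach_perm hr).length_eq hlt
  refine hfail (goal_reach hr ⟨A, z, g', reach_mono (fun a b h => Or.inl h) h1, h2, ?_⟩)
  exact Vis_mono (fun a b h => h.imp id Or.inl) h3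

theorem goal_one [Finite α] (hgp : GP p) {x : α} {G : Set α} {O : α → α → Prop}
    (hw : Wd p [x] G O) (hG : G.Nonempty) : Goal p [x] G O := by
  have hx : x ∉ G := hw.disj x (by simp)
  obtain ⟨q, hq, hv⟩ := vis_exists hgp hG hx (E := fun a b => O a b ∧ a ∈ G ∧ b ∈ G)
    (fun a b h => ⟨hw.symm a b h.1, h.2.2, h.2.1⟩)
    (Plane_mono (fun a b h => Or.inr h.1) hw.plane) (fun a b h => h.2.1)
  refine ⟨[], x, q, Relation.ReflTransGen.refl, hq, ?_⟩
  rintro c d (h1 | h1) hX
  · exact h1.elim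
  · by_cases hc : c ∈ G
    · by_cases hd : d ∈ G
      · exact hv c d ⟨h1, hc, hd⟩ hX
      · have h2 : d = x := by
          rcases hw.mem d c (hw.symm c d h1) with h3 | h3
          · simpa using h3
          · exact (hd h3).elim
        rw [h2] at hX
        exact not_X_of_eq2 hX
    · have h2 : c = x := by
        rcases hw.mem c d h1 with h3 | h3
        · simpa using h3
        · exact (hc h3).elim
      rw [h2] at hX
      exact not_X_of_eq1 hX

theorem goal_two [Finite α] (hgp : GP p) {x z : α} {G : Set α} {O : α → α → Prop}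
    (hw : Wd p [x, z] G O) (hG : G.Nonempty) : Goal p [x, z] G O := by
  obtain ⟨g, hg⟩ := hG
  have hxz : x ≠ z := by
    have := hw.nodup
    simpa using this
  have hxG : x ∉ G := hw.disj x (by simp)
  have hzG : z ∉ G := hw.disj z (by simp)
  have hxg : x ≠ g := fun h => hxG (h ▸ hg)
  have hzg : z ≠ g := fun h => hzG (h ▸ hg)
  have hne : o p z x g ≠ 0 := hgp.ne z x g hxz.symm hxg hzg
  have main : ∀ r : ℝ × ℝ, cr r (p z) (p x) = 0 → 0 < cr r (p z) (p g) →
      Goal p [x, z] G O := by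
    intro r h0 hr
    obtain ⟨q, hq, hqr, hv⟩ := wlem hgp (T := {t | t = x ∨ t = z ∨ t ∈ G}) (z := z)
      (E := EO [x, z] O) (fun a b h => h.imp (fun h1 => ed_symm h1) (fun h1 => hw.symm a b h1))
      hw.plane (by
        rintro a b (h1 | h1)
        · have h2 := ed_mem h1
          simp only [List.mem_cons, List.not_mem_nil, or_false] at h2
          exact h2.elim Or.inl (fun h3 => Or.inr (Or.inl h3))
        · rcases hw.mem a b h1 with h2 | h2
          · simp only [List.mem_cons, List.not_mem_nil, or_false] at h2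
            exact h2.elim Or.inl (fun h3 => Or.inr (Or.inl h3))
          · exact Or.inr (Or.inr h2)) r (q₀ := g) (Or.inr (Or.inr hg)) hr
    refine ⟨[x], z, q, Relation.ReflTransGen.refl, ?_, hv⟩
    rcases hq with h1 | h1 | h1
    · rw [h1, h0] at hqr
      exact (lt_irrefl _ hqr).elim
    · rw [h1] at hqr
      have h2 : cr r (p z) (p z) = 0 := by unfold cr; ring
      rw [h2] at hqr
      exact (lt_irrefl _ hqr).elim
    · exact h1
  rcases lt_or_gt_of_ne hne with h | h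
  · refine main (-((p x).1 - (p z).1), -((p x).2 - (p z).2)) ?_ ?_
    · unfold cr; ring
    · have h1 : cr (-((p x).1 - (p z).1), -((p x).2 - (p z).2)) (p z) (p g) = - o p z x g := by
        unfold cr o; ring
      rw [h1]
      linarith
  · refine main ((p x).1 - (p z).1, (p x).2 - (p z).2) ?_ ?_
    · unfold cr; ring
    · rw [← o_eq_cr]
      exact h

end FPW
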