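import Pool.Agent.Lib.MP_deef39_co_PW.Lst

/-! # PW module GrphR: the graph of a list

`gr l` is the simple graph of the consecutive pairs of `l`.

`gr_tree`: the graph is connected (by induction on the list) and has at most `l.length - 1` edges,
hence it is a tree.

`gr_deg`: if `l = A ++ v :: B` then a neighbour of `v` is the last entry of `A` or the first entry
of `B` (`ed_mid`, `Nodup`), so the neighbour set is contained in a set with at most two
elements.
-/

set_option autoImplicit false

namespace FPW

/-- graph of the consecutive pairs of `l` -/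
def gr {n : ℕ} (l : List (Fin n)) : SimpleGraph (Fin n) where
  Adj x y := x ≠ y ∧ Ed l x y
  symm := ⟨fun _ _ h => ⟨h.1.symm, ed_symm h.2⟩⟩
  loopless := ⟨fun _ h => h.1 rfl⟩

theorem gr_adj {n : ℕ} {l : List (Fin n)} (hn : l.Nodup) {x y : Fin n} :
    (gr l).Adj x y ↔ Ed l x y :=
  ⟨fun h => h.2, fun h => ⟨ed_ne hn h, h⟩⟩

private theorem gr_reach_ed {n : ℕ} {l : List (Fin n)} {x y : Fin n} (h : Ed l x y) :
    (gr l).Reachable x y := by
  by_cases hxy : x = y
  · rw [hxy]
  · exact SimpleGraph.Adj.reachable (show (gr l).Adj x y from ⟨hxy, h⟩)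

private theorem gr_mono {n : ℕ} (a b : Fin n) (l : List (Fin n)) :
    gr (b :: l) ≤ gr (a :: b :: l) := by
  intro x y h
  exact ⟨h.1, Or.inr (Or.inr h.2)⟩

private theorem gr_reach {n : ℕ} (l : List (Fin n)) (a : Fin n) :
    ∀ v ∈ (a :: l), (gr (a :: l)).Reachable a v := by
  induction l generalizing a with
  | nil =>
    intro v hv
    rw [List.mem_singleton] at hv
    rw [hv]
  | cons b l ih =>
    intro v hv
    rcases List.mem_cons.1 hv with hv | hv
    · rw [hv]
    · have h1 : (gr (a :: b :: l)).Reachable a b := gr_reach_ed (Or.inl ⟨rfl, rfl⟩)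
      exact h1.trans ((ih b v hv).mono (gr_mono a b l))

private theorem gr_edges {n : ℕ} (l : List (Fin n)) (a : Fin n) :
    (gr (a :: l)).edgeSet.ncard ≤ l.length := by
  induction l generalizing a with
  | nil =>
    have h : (gr [a]).edgeSet = ∅ := by
      ext e
      induction e using Sym2.ind with
      | _ x y =>
        simp only [SimpleGraph.mem_edgeSet, Set.mem_empty_iff_false, iff_false]
        intro h
        exact h.2.elim
    rw [h]
    simp
  | cons b l ih =>
    have h : (gr (a :: b :: l)).edgeSet ⊆ insert s(a, b) (gr (b :: l)).edgeSet := by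
      intro e
      induction e using Sym2.ind with
      | _ x y =>
        intro h
        rw [SimpleGraph.mem_edgeSet] at h
        rw [Set.mem_insert_iff, SimpleGraph.mem_edgeSet]
        obtain ⟨hne, h⟩ := h
        rcases h with ⟨h1, h2⟩ | ⟨h1, h2⟩ | h
        · left; rw [h1, h2]
        · left; rw [h1, h2, Sym2.eq_swap]
        · right; exact ⟨hne, h⟩
    calc (gr (a :: b :: l)).edgeSet.ncard
        ≤ (insert s(a, b) (gr (b :: l)).edgeSet).ncard :=
          Set.ncard_le_ncard h (Set.toFinite _)
      _ ≤ (gr (b :: l)).edgeSet.ncard + 1 := Set.ncard_insert_le _ _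
      _ ≤ l.length + 1 := Nat.succ_le_succ (ih b)
      _ = (b :: l).length := rfl

theorem gr_tree {n : ℕ} {l : List (Fin n)} (hn : l.Nodup) (hl : l ≠ []) (ha : ∀ v, v ∈ l) :
    (gr l).IsTree := by
  obtain ⟨a, m, rfl⟩ := List.exists_cons_of_ne_nil hl
  have hconn : (gr (a :: m)).Connected := by
    have : Nonempty (Fin n) := ⟨a⟩
    refine SimpleGraph.Connected.mk ?_
    intro x y
    exact (gr_reach m a x (ha x)).symm.trans (gr_reach m a y (ha y))
  rw [SimpleGraph.isTree_iff_connected_and_card]
  refine ⟨hconn, ?_⟩
  have h1 := hconn.card_vert_le_card_edgeSet_add_one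
  have h2 : Nat.card (gr (a :: m)).edgeSet ≤ m.length := by
    rw [Nat.card_coe_set_eq]
    exact gr_edges m a
  have h3 : (a :: m).length = Nat.card (Fin n) := by
    rw [Nat.card_eq_fintype_card, ← List.toFinset_card_of_nodup hn]
    have : (a :: m).toFinset = Finset.univ := by
      ext v
      simp only [List.mem_toFinset, Finset.mem_univ, iff_true]
      exact ha v
    rw [this, Finset.card_univ]
  rw [List.length_cons] at h3
  omega

theorem gr_deg {n : ℕ} {l : List (Fin n)} (hn : l.Nodup) (v : Fin n) :
    ((gr l).neighborSet v).ncard ≤ 2 := by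
  by_cases hv : v ∈ l
  · obtain ⟨A, B, rfl⟩ := List.append_of_mem hv
    have hvA : v ∉ A := by
      intro h
      exact (List.nodup_append.1 hn).2.2 v h v (List.mem_cons_self) rfl
    have hvB : v ∉ B := (List.nodup_cons.1 (List.nodup_append.1 hn).2.1).1
    -- at most one neighbour on the left
    have hL : ∀ y, Ed (A ++ [v]) v y → A.getLast? = some y := by
      intro y hy
      rcases List.eq_nil_or_concat A with rfl | ⟨A', a, rfl⟩
      · exact hy.elim
      · rw [List.concat_eq_append] at hy hvA ⊢
        rw [ed_snoc] at hy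
        rcases hy with hy | ⟨h1, h2⟩ | ⟨h1, h2⟩
        · exact absurd (ed_mem hy) hvA
        · exact absurd (by rw [h1]; simp) hvA
        · rw [h2]; simp
    have hR : ∀ y, Ed (v :: B) v y → B.head? = some y := by
      intro y hy
      cases B with
      | nil => exact hy.elim
      | cons b B =>
        rcases hy with ⟨h1, h2⟩ | ⟨h1, h2⟩ | h
        · rw [h2]; rfl
        · exact absurd (by rw [h1]; simp) hvB
        · exact absurd (ed_mem h) hvB
    have hsub : (gr (A ++ v :: B)).neighborSet v ⊆
        {y | A.getLast? = some y} ∪ {y | B.head? = some y} := by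
      intro y hy
      have hy' : Ed (A ++ v :: B) v y := hy.2
      rw [ed_mid] at hy'
      rcases hy' with h | h
      · exact Or.inl (hL y h)
      · exact Or.inr (hR y h)
    have hc : ∀ o : Option (Fin n), ({y | o = some y} : Set (Fin n)).ncard ≤ 1 := by
      intro o
      rw [Set.ncard_le_one (Set.toFinite _)]
      intro x hx y hy
      have hx' : o = some x := hx
      have hy' : o = some y := hy
      rw [hx'] at hy'
      exact Option.some.inj hy'
    calc ((gr (A ++ v :: B)).neighborSet v).ncard
        ≤ ({y | A.getLast? = some y} ∪ {y | B.head? = some y}).ncard :=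
          Set.ncard_le_ncard hsub (Set.toFinite _)
      _ ≤ ({y | A.getLast? = some y} : Set (Fin n)).ncard +
          ({y | B.head? = some y} : Set (Fin n)).ncard := Set.ncard_union_le _ _
      _ ≤ 2 := by
          have h1 := hc A.getLast?
          have h2 := hc B.head?
          omega
  · have h : (gr l).neighborSet v = ∅ := by
      ext y
      simp only [Set.mem_empty_iff_false, iff_false]
      intro hy
      exact hv (ed_mem hy.2)
    rw [h]
    simp

end FPW
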