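import Pool.Agent.Lib.MP_deef39_co_PW.Lst

/-! # PW module JoinP: the two kinds of lifts are connected

`join`: let `Q = A₁ ++ a :: b :: B` with `{a, b} = {c, d}` and `m = A₁ ++ a :: y :: b :: B`.
Step 1: in `Q ++ [y] = A₁ ++ a :: ((b :: B) ++ [y])` rotate at `a` (new edge `y a`): the result is
`R := A₁ ++ a :: y :: (b :: B).reverse = (A₁ ++ [a]) ++ y :: (B.reverse ++ [b])`. It is allowed:
the edges of `Q ++ [y]` are those of `Q` and `z y`, and `y` sees `a` with respect to `EO Q O`,
while `z y` shares the vertex `y` (`not_X_of_eq..`).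
Step 2: in `R` rotate at `y` (new edge `b y`): the result is
`(A₁ ++ [a]) ++ y :: b :: B.reverse.reverse = m`. It is allowed: the edges of `R` are edges of `Q`
(`A₁ ++ [a]` and `(b :: B).reverse`) or `a y` or `y z` (the edge from `y` to the first entry of
`(b :: B).reverse`, which contains `y`), and `y` sees `b` with respect to `EO Q O`.
Edges: `ed_mid`, `ed_cons2`, `ed_snoc`, `ed_reverse`.
-/

set_option autoImplicit false

namespace FPW

variable {α : Type*} {p : α → ℝ × ℝ}

private theorem JoinP_aux {O : α → α → Prop} {y a b z : α} {A A₁ B Q : List α}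
    (hQ : Q = A ++ [z]) (hQ' : Q = A₁ ++ a :: b :: B) (ha : Vis p (EO Q O) y a)
    (hb : Vis p (EO Q O) y b) : Reach p O (Q ++ [y]) (A₁ ++ a :: y :: b :: B) := by
  have h1 : Rot p O (Q ++ [y]) (A₁ ++ a :: y :: (b :: B).reverse) := by
    refine ⟨a, y, ⟨A₁, b :: B, by rw [hQ']; simp, rfl⟩, ?_⟩
    intro c' d' h
    rcases h with h | h
    · rw [hQ, ed_snoc, ← hQ] at h
      rcases h with h | ⟨h1, h2⟩ | ⟨h1, h2⟩
      · exact ha c' d' (Or.inl h)
      · rw [h1, h2]
        exact not_X_of_eq2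
      · rw [h1, h2]
        exact not_X_of_eq1
    · exact ha c' d' (Or.inr h)
  have hy : ∀ c' d' : α, c' = y ∨ d' = y → ¬ X p b y c' d' := by
    rintro c' d' (h | h)
    · rw [h]
      exact not_X_of_eq3
    · rw [h]
      exact not_X_of_eq4
  have hE : ∀ c' d' : α, EO Q O c' d' → ¬ X p b y c' d' := fun c' d' h hX =>
    hb c' d' h (X_sw1.1 hX)
  have h2 : Rot p O (A₁ ++ a :: y :: (b :: B).reverse) (A₁ ++ a :: y :: b :: B) := by
    refine ⟨y, b, ⟨A₁ ++ [a], B.reverse, by simp, by simp⟩, ?_⟩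
    intro c' d' h
    rcases h with h | h
    · rw [ed_mid, ed_cons2] at h
      rcases h with h | ⟨_, h2⟩ | ⟨h1, _⟩ | h
      · refine hE c' d' (Or.inl ?_)
        rw [hQ', ed_mid]
        exact Or.inl h
      · exact hy c' d' (Or.inr h2)
      · exact hy c' d' (Or.inl h1)
      · obtain ⟨w, W, hW⟩ : ∃ w W, (b :: B).reverse = w :: W :=
          List.exists_cons_of_ne_nil (by simp)
        rw [hW, ed_cons2, ← hW, ed_reverse] at h
        rcases h with ⟨h1, _⟩ | ⟨_, h2⟩ | h
        · exact hy c' d' (Or.inl h1)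
        · exact hy c' d' (Or.inr h2)
        · refine hE c' d' (Or.inl ?_)
          rw [hQ', ed_mid, ed_cons2]
          exact Or.inr (Or.inr (Or.inr h))
    · exact hE c' d' (Or.inr h)
  exact (Relation.ReflTransGen.single h1).tail h2

theorem join {O : α → α → Prop} {y c d z : α} {A Q m : List α} (hQ : Q = A ++ [z])
    (hi : Ins y c d Q m) (hc : Vis p (EO Q O) y c) (hd : Vis p (EO Q O) y d) :
    Reach p O (Q ++ [y]) m := by
  obtain ⟨A₁, B, ⟨h1, h2⟩ | ⟨h1, h2⟩⟩ := hi
  · rw [h2]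
    exact JoinP_aux hQ h1 hc hd
  · rw [h2]
    exact JoinP_aux hQ h1 hd hc

end FPW
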