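import Pool.Agent.Lib.MP_deef39_co_PW.Defs

/-! # PW module Lst: edges of a list -/

set_option autoImplicit false

namespace FPW

variable {α : Type*}

theorem ed_symm {l : List α} {x y : α} (h : Ed l x y) : Ed l y x := by
  induction l with
  | nil => exact h.elim
  | cons a l ih =>
    cases l with
    | nil => exact h.elim
    | cons b l =>
      rcases h with ⟨h1, h2⟩ | ⟨h1, h2⟩ | h
      · exact Or.inr (Or.inl ⟨h2, h1⟩)
      · exact Or.inl ⟨h2, h1⟩
      · exact Or.inr (Or.inr (ih h))

theorem ed_cons2 {a b : α} {l : List α} {x y : α} :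
    Ed (a :: b :: l) x y ↔ (x = a ∧ y = b) ∨ (x = b ∧ y = a) ∨ Ed (b :: l) x y := Iff.rfl

theorem ed_single {a x y : α} : ¬ Ed [a] x y := fun h => h

theorem ed_nil {x y : α} : ¬ Ed ([] : List α) x y := fun h => h

theorem ed_mem {l : List α} {x y : α} (h : Ed l x y) : x ∈ l := by
  induction l with
  | nil => exact h.elim
  | cons a l ih =>
    cases l with
    | nil => exact h.elim
    | cons b l =>
      rcases h with ⟨h1, h2⟩ | ⟨h1, h2⟩ | h
      · simp [h1]
      · simp [h1]
      · exact List.mem_cons_of_mem _ (ih h)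

theorem ed_mem' {l : List α} {x y : α} (h : Ed l x y) : y ∈ l := ed_mem (ed_symm h)

theorem ed_ne {l : List α} (hn : l.Nodup) {x y : α} (h : Ed l x y) : x ≠ y := by
  induction l with
  | nil => exact h.elim
  | cons a l ih =>
    cases l with
    | nil => exact h.elim
    | cons b l =>
      have hab : a ≠ b := by
        intro h'
        subst h'
        simp at hn
      rcases h with ⟨h1, h2⟩ | ⟨h1, h2⟩ | h
      · rw [h1, h2]; exact hab
      · rw [h1, h2]; exact hab.symm
      · exact ih (List.Nodup.of_cons hn) h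

/-- splitting the edges of a path at a vertex -/
theorem ed_mid {A B : List α} {v x y : α} :
    Ed (A ++ v :: B) x y ↔ Ed (A ++ [v]) x y ∨ Ed (v :: B) x y := by
  induction A with
  | nil =>
    constructor
    · intro h; exact Or.inr h
    · rintro (h | h)
      · exact h.elim
      · exact h
  | cons a A ih =>
    cases A with
    | nil =>
      simp only [List.cons_append, List.nil_append, ed_cons2]
      constructor
      · rintro (h | h | h)
        · exact Or.inl (Or.inl h)
        · exact Or.inl (Or.inr (Or.inl h))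
        · exact Or.inr h
      · rintro ((h | h | h) | h)
        · exact Or.inl h
        · exact Or.inr (Or.inl h)
        · exact h.elim
        · exact Or.inr (Or.inr h)
    | cons b A =>
      simp only [List.cons_append, ed_cons2] at ih ⊢
      rw [ih]
      tauto

theorem ed_snoc2 {A : List α} {v z x y : α} :
    Ed (A ++ [v, z]) x y ↔ Ed (A ++ [v]) x y ∨ (x = v ∧ y = z) ∨ (x = z ∧ y = v) := by
  rw [ed_mid, ed_cons2]
  have : ¬ Ed [z] x y := ed_single
  tauto

theorem ed_snoc {A : List α} {v z x y : α} :
    Ed ((A ++ [v]) ++ [z]) x y ↔ Ed (A ++ [v]) x y ∨ (x = v ∧ y = z) ∨ (x = z ∧ y = v) := by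
  rw [List.append_assoc]; exact ed_snoc2

theorem ed_reverse {l : List α} {x y : α} : Ed l.reverse x y ↔ Ed l x y := by
  induction l with
  | nil => rfl
  | cons a l ih =>
    cases l with
    | nil => rfl
    | cons b l =>
      rw [List.reverse_cons, List.reverse_cons] at *
      rw [ed_snoc, ih, ed_cons2]
      tauto

theorem ed_split {l : List α} {x y : α} (h : Ed l x y) :
    ∃ A B, l = A ++ x :: y :: B ∨ l = A ++ y :: x :: B := by
  induction l with
  | nil => exact h.elim
  | cons a l ih =>
    cases l with
    | nil => exact h.elim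
    | cons b l =>
      rcases h with ⟨h1, h2⟩ | ⟨h1, h2⟩ | h
      · exact ⟨[], l, Or.inl (by simp [h1, h2])⟩
      · exact ⟨[], l, Or.inr (by simp [h1, h2])⟩
      · obtain ⟨A, B, h'⟩ := ih h
        refine ⟨a :: A, B, ?_⟩
        rcases h' with h' | h'
        · left; rw [h']; rfl
        · right; rw [h']; rfl

theorem ed_of_split {A B : List α} {x y : α} : Ed (A ++ x :: y :: B) x y := by
  rw [ed_mid]
  exact Or.inr (Or.inl ⟨rfl, rfl⟩)

theorem ed_of_split' {A B : List α} {x y : α} : Ed (A ++ x :: y :: B) y x := ed_symm ed_of_split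

theorem ed_exists {l : List α} {x : α} (hx : x ∈ l) (h2 : 2 ≤ l.length) : ∃ y, Ed l x y := by
  obtain ⟨A, B, rfl⟩ := List.append_of_mem hx
  cases B with
  | cons b B => exact ⟨b, ed_of_split⟩
  | nil =>
    rcases List.eq_nil_or_concat A with rfl | ⟨A', a, rfl⟩
    · simp at h2
    · refine ⟨a, ?_⟩
      have : (A' ++ [a]) ++ [x] = A' ++ a :: x :: [] := by simp
      rw [List.concat_eq_append, this]
      exact ed_of_split'

end FPW
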