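import Pool.Agent.Lib.MP_deef39_co_PW.RotB
import Pool.Agent.Lib.MP_deef39_co_PW.InsP
import Pool.Agent.Lib.MP_deef39_co_PW.JoinP

/-! # PW module MLem: all lifts of a path are connected

First the two auxiliary facts.
* `lift_ed`: the edges of a lift `m` of `Q` are edges of `Q` or pairs `y, c` with `y` seeing `c`
  (with respect to `EO Q O`).
* `lift_plane`: hence `EO m O` is plane.

`mlem`. Cases. (a) both lifts are `Q ++ [y]`: equal. (b) one is `Q ++ [y]`, the other an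
insertion: `join` (if the insertion comes first use `reach_symm` and `lift_plane`).
(c) `m₁`, `m₂` insertions into `c₁ d₁`, `c₂ d₂`, all four points seen by `y`. Let
`O' a b := O a b ∨ (a = y ∧ b ∈ {c₁, d₁, c₂, d₂}) ∨ (b = y ∧ a ∈ {c₁, d₁, c₂, d₂})`. Then
`Wd p Q (insert y G) O'` (plane: pairs of old edges do not cross; an old edge does not cross `y c`
since `y` sees `c`; two edges at `y` share `y`). By `hIH`: `Goal p Q (insert y G) O'`, i.e.
`Reach p O' Q (A ++ [z])`, and `z` sees some `g ∈ insert y G` with respect to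
`EO (A ++ [z]) O'`. By induction along this `Reach` (head or tail induction) prove for every
`Q'` with `Reach p O' Q Q'`:

  `Reach p O m₁ m₂ ∨ ∃ m₁' m₂', Ins y c₁ d₁ Q' m₁' ∧ Ins y c₂ d₂ Q' m₂' ∧ Reach p O m₁ m₁' ∧
  Reach p O m₂ m₂'`.

Step `Q' → Q''` (rotation at `v`, end `z'`, allowed with respect to `EO Q' O'`): the same rotation
is allowed for `m₁'` and `m₂'` with respect to `O`, as the edges of `m_i'` are edges of `Q'` or
`y c_i`, `y d_i` (`ins_ed`), all in `EO Q' O'`. By `par` either both edges `c_i d_i` are kept (then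
we get new `m_i'`), or one is removed, e.g. `c₁ d₁`: then `m₁' → Q'' ++ [y]`, where
`Q'' = A' ++ [e]`, `{c₁, d₁} = {v, e}`. If `c₂ d₂` is removed as well, then `m₂' → Q'' ++ [y]` too
and `m₁, m₂` are connected (`reach_symm` with `lift_plane`). If `c₂ d₂` is kept, `m₂' → m₂''` is
the insertion into `c₂ d₂` in `Q''`, and `join` connects `Q'' ++ [y]` with `m₂''` (`y` sees
`c₂, d₂` with respect to `EO Q'' O`, as `y c₂`, `y d₂` are edges of the plane set `EO Q'' O'`,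
`wd_rot`/`rot_plane`).
At the end `Q' = A ++ [z]`, insertions `m₁', m₂'` of `Q'`, both with last entry `z` (`ins_last`).
If `z` sees `g ∈ G` with respect to `EO Q' O'`, then also with respect to `EO m₁' O`
(`ins_ed`): `Goal p m₁' G O`, so `Goal p m₁ G O` (`goal_reach`). If `z` sees `y`: `join` for both
gives `Reach (Q' ++ [y]) m₁'` and `Reach (Q' ++ [y]) m₂'`; `Q' ++ [y]` is a lift of `Q'`, so it is
plane and `reach_symm` applies.
-/

set_option autoImplicit false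

namespace FPW

variable {α : Type*} {p : α → ℝ × ℝ}

theorem lift_ed {O : α → α → Prop} {y : α} {Q m : List α} (h : LiftP p O y Q m) {a b : α}
    (hab : Ed m a b) :
    Ed Q a b ∨ (a = y ∧ b ∈ Q ∧ Vis p (EO Q O) y b) ∨ (b = y ∧ a ∈ Q ∧ Vis p (EO Q O) y a) := by
  rcases h with ⟨A, z, hQ, rfl, hv⟩ | ⟨c, d, hi, hc, hd⟩
  · have hz : z ∈ Q := by rw [hQ]; simp
    rw [hQ, ed_snoc, ← hQ] at hab
    rcases hab with h1 | ⟨rfl, rfl⟩ | ⟨rfl, rfl⟩
    · exact Or.inl h1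
    · exact Or.inr (Or.inr ⟨rfl, hz, Vis_comm.1 hv⟩)
    · exact Or.inr (Or.inl ⟨rfl, hz, Vis_comm.1 hv⟩)
  · have he := ins_edge hi
    have hcQ := ed_mem he
    have hdQ := ed_mem' he
    rcases ins_ed hi hab with h1 | ⟨rfl, rfl | rfl⟩ | ⟨rfl, rfl | rfl⟩
    · exact Or.inl h1
    · exact Or.inr (Or.inl ⟨rfl, hcQ, hc⟩)
    · exact Or.inr (Or.inl ⟨rfl, hdQ, hd⟩)
    · exact Or.inr (Or.inr ⟨rfl, hcQ, hc⟩)
    · exact Or.inr (Or.inr ⟨rfl, hdQ, hd⟩)

theorem lift_plane {O : α → α → Prop} {y : α} {Q m : List α} (hp : Plane p (EO Q O))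
    (h : LiftP p O y Q m) : Plane p (EO m O) := by
  have key : ∀ a b, EO m O a b → EO Q O a b ∨ (a = y ∧ Vis p (EO Q O) y b) ∨
      (b = y ∧ Vis p (EO Q O) y a) := by
    rintro a b (h1 | h1)
    · rcases lift_ed h h1 with h2 | ⟨h2, -, h3⟩ | ⟨h2, -, h3⟩
      · exact Or.inl (Or.inl h2)
      · exact Or.inr (Or.inl ⟨h2, h3⟩)
      · exact Or.inr (Or.inr ⟨h2, h3⟩)
    · exact Or.inl (Or.inr h1)
  intro a b c d hab hcd hX
  rcases key a b hab with h1 | ⟨rfl, h1⟩ | ⟨rfl, h1⟩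
  · rcases key c d hcd with h2 | ⟨rfl, h2⟩ | ⟨rfl, h2⟩
    · exact hp a b c d h1 h2 hX
    · exact h2 a b h1 (X_comm.1 hX)
    · exact h2 a b h1 (X_sw1.1 (X_comm.1 hX))
  · rcases key c d hcd with h2 | ⟨rfl, h2⟩ | ⟨rfl, h2⟩
    · exact h1 c d h2 hX
    · exact not_X_of_eq1 hX
    · exact not_X_of_eq2 hX
  · rcases key c d hcd with h2 | ⟨rfl, h2⟩ | ⟨rfl, h2⟩
    · exact h1 c d h2 (X_sw1.1 hX)
    · exact not_X_of_eq3 hX
    · exact not_X_of_eq4 hX

theorem lift_perm {O : α → α → Prop} {y : α} {Q m : List α} (h : LiftP p O y Q m) :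
    m.Perm (y :: Q) := by
  rcases h with ⟨A, z, hQ, rfl, hv⟩ | ⟨c, d, hi, hc, hd⟩
  · exact List.perm_append_singleton y Q
  · exact ins_perm hi

/-- the obstacles of the auxiliary world: `O` and all pairs `y, b`, `b` a visible vertex of `Q` -/
private def mlO (p : α → ℝ × ℝ) (O : α → α → Prop) (y : α) (Q : List α) (a b : α) : Prop :=
  O a b ∨ (a = y ∧ b ∈ Q ∧ Vis p (EO Q O) y b) ∨ (b = y ∧ a ∈ Q ∧ Vis p (EO Q O) y a)

private theorem mlO_wd {G : Set α} {O : α → α → Prop} {y : α} {Q : List α} (hw : Wd p Q G O)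
    (hyQ : y ∉ Q) : Wd p Q (insert y G) (mlO p O y Q) := by
  refine ⟨hw.nodup, hw.ne, ?_, ?_, ?_, ?_, ?_, ?_⟩
  · rintro x hx (rfl | h1)
    · exact hyQ hx
    · exact hw.disj x hx h1
  · rintro a b (h1 | ⟨h1, h2, h3⟩ | ⟨h1, h2, h3⟩)
    · exact Or.inl (hw.symm a b h1)
    · exact Or.inr (Or.inr ⟨h1, h2, h3⟩)
    · exact Or.inr (Or.inl ⟨h1, h2, h3⟩)
  · rintro a b (h1 | ⟨h1, h2, h3⟩ | ⟨h1, h2, h3⟩)
    · exact (hw.gh a b h1).imp (fun h => Or.inr h) (fun h => Or.inr h)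
    · exact Or.inl (Or.inl h1)
    · exact Or.inr (Or.inl h1)
  · rintro a b (h1 | ⟨h1, h2, h3⟩ | ⟨h1, h2, h3⟩)
    · exact (hw.mem a b h1).imp id (fun h => Or.inr h)
    · exact Or.inr (Or.inl h1)
    · exact Or.inl h2
  · rintro a b (h1 | ⟨h1, h2, h3⟩ | ⟨h1, h2, h3⟩)
    · exact hw.irr a b h1
    · rintro rfl
      exact hyQ (h1 ▸ h2)
    · rintro rfl
      exact hyQ (h1 ▸ h2)
  · have key : ∀ a b, EO Q (mlO p O y Q) a b → EO Q O a b ∨ (a = y ∧ Vis p (EO Q O) y b) ∨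
        (b = y ∧ Vis p (EO Q O) y a) := by
      rintro a b (h1 | h1 | ⟨h2, -, h3⟩ | ⟨h2, -, h3⟩)
      · exact Or.inl (Or.inl h1)
      · exact Or.inl (Or.inr h1)
      · exact Or.inr (Or.inl ⟨h2, h3⟩)
      · exact Or.inr (Or.inr ⟨h2, h3⟩)
    intro a b c d hab hcd hX
    rcases key a b hab with h1 | ⟨rfl, h1⟩ | ⟨rfl, h1⟩
    · rcases key c d hcd with h2 | ⟨rfl, h2⟩ | ⟨rfl, h2⟩
      · exact hw.plane a b c d h1 h2 hX
      · exact h2 a b h1 (X_comm.1 hX)
      · exact h2 a b h1 (X_sw1.1 (X_comm.1 hX))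
    · rcases key c d hcd with h2 | ⟨rfl, h2⟩ | ⟨rfl, h2⟩
      · exact h1 c d h2 hX
      · exact not_X_of_eq1 hX
      · exact not_X_of_eq2 hX
    · rcases key c d hcd with h2 | ⟨rfl, h2⟩ | ⟨rfl, h2⟩
      · exact h1 c d h2 (X_sw1.1 hX)
      · exact not_X_of_eq3 hX
      · exact not_X_of_eq4 hX

/-- the edges of an insertion are edges of the auxiliary world -/
private theorem ml_eo {O O' : α → α → Prop} {y c d : α} {Q m : List α}
    (hO : ∀ a b, O a b → O' a b) (hs : ∀ a b, O' a b → O' b a) (hi : Ins y c d Q m)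
    (hc : O' y c) (hd : O' y d) (a b : α) (hab : EO m O a b) : EO Q O' a b := by
  rcases hab with h1 | h1
  · rcases ins_ed hi h1 with h2 | ⟨rfl, rfl | rfl⟩ | ⟨rfl, rfl | rfl⟩
    · exact Or.inl h2
    · exact Or.inr hc
    · exact Or.inr hd
    · exact Or.inr (hs _ _ hc)
    · exact Or.inr (hs _ _ hd)
  · exact Or.inr (hO a b h1)

/-- a rotation of `Q` in the auxiliary world is a rotation of the insertion -/
private theorem ml_step {O O' : α → α → Prop} {y c d v z : α} {Q Q' m : List α}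
    (hO : ∀ a b, O a b → O' a b) (hs : ∀ a b, O' a b → O' b a) (hn : Q.Nodup)
    (hr : RotL v z Q Q') (hv : Vis p (EO Q O') z v) (hi : Ins y c d Q m)
    (hc : O' y c) (hd : O' y d) :
    (∃ m', Ins y c d Q' m' ∧ Reach p O m m') ∨ (Reach p O m (Q' ++ [y]) ∧ ∃ A e, Q' = A ++ [e]) := by
  have hvm : Vis p (EO m O) z v := Vis_mono (ml_eo hO hs hi hc hd) hv
  rcases par hn hr hi with ⟨m', h1, h2⟩ | ⟨h1, A, e, h2, -⟩
  · exact Or.inl ⟨m', h1, Relation.ReflTransGen.single ⟨v, z, h2, hvm⟩⟩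
  · exact Or.inr ⟨Relation.ReflTransGen.single ⟨v, z, h1, hvm⟩, A, e, h2⟩

/-- `join` in the auxiliary world -/
private theorem ml_join {O O' : α → α → Prop} {y c d z : α} {A Q m : List α}
    (hO : ∀ a b, O a b → O' a b) (hp : Plane p (EO Q O')) (hQ : Q = A ++ [z])
    (hi : Ins y c d Q m) (hc : O' y c) (hd : O' y d) : Reach p O (Q ++ [y]) m := by
  have hm : ∀ a b, EO Q O a b → EO Q O' a b := fun a b h1 => h1.imp id (hO a b)
  exact join hQ hi (Vis_mono hm (Vis_of_edge hp (Or.inr hc)))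
    (Vis_mono hm (Vis_of_edge hp (Or.inr hd)))

theorem mlem {G : Set α} {O : α → α → Prop} {y : α} {Q m₁ m₂ : List α} (hw : Wd p Q G O)
    (hyQ : y ∉ Q) (hyG : y ∉ G)
    (hIH : ∀ (G' : Set α) (O' : α → α → Prop), Wd p Q G' O' → G'.Nonempty → Goal p Q G' O')
    (h₁ : LiftP p O y Q m₁) (h₂ : LiftP p O y Q m₂) :
    Reach p O m₁ m₂ ∨ Goal p m₁ G O := by
  have hp₁ := lift_plane hw.plane h₁
  have hp₂ := lift_plane hw.plane h₂
  rcases h₁ with ⟨A, z, hQ, rfl, hv⟩ | ⟨c₁, d₁, hi₁, hc₁, hd₁⟩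
  · rcases h₂ with ⟨A', z', hQ', rfl, hv'⟩ | ⟨c₂, d₂, hi₂, hc₂, hd₂⟩
    · exact Or.inl Relation.ReflTransGen.refl
    · exact Or.inl (join hQ hi₂ hc₂ hd₂)
  · rcases h₂ with ⟨A', z', hQ', rfl, hv'⟩ | ⟨c₂, d₂, hi₂, hc₂, hd₂⟩
    · exact Or.inl (reach_symm hp₂ (join hQ' hi₁ hc₁ hd₁))
    · have hW := mlO_wd hw hyQ
      set O' := mlO p O y Q with hO'
      have hO : ∀ a b, O a b → O' a b := fun a b h => Or.inl h
      have e₁ := ins_edge hi₁
      have e₂ := ins_edge hi₂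
      have oc₁ : O' y c₁ := Or.inr (Or.inl ⟨rfl, ed_mem e₁, hc₁⟩)
      have od₁ : O' y d₁ := Or.inr (Or.inl ⟨rfl, ed_mem' e₁, hd₁⟩)
      have oc₂ : O' y c₂ := Or.inr (Or.inl ⟨rfl, ed_mem e₂, hc₂⟩)
      have od₂ : O' y d₂ := Or.inr (Or.inl ⟨rfl, ed_mem' e₂, hd₂⟩)
      obtain ⟨A, z, g, hr, hg, hv⟩ := hIH _ O' hW ⟨y, Or.inl rfl⟩
      have key : ∀ Q', Reach p O' Q Q' → Reach p O m₁ m₂ ∨ ∃ m₁' m₂', Ins y c₁ d₁ Q' m₁' ∧
          Ins y c₂ d₂ Q' m₂' ∧ Reach p O m₁ m₁' ∧ Reach p O m₂ m₂' := by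
        intro Q' hQ'
        induction hQ' with
        | refl =>
          exact Or.inr ⟨m₁, m₂, hi₁, hi₂, Relation.ReflTransGen.refl, Relation.ReflTransGen.refl⟩
        | @tail Q' Q'' hQ1 hQ2 ih =>
          rcases ih with ih | ⟨m₁', m₂', hj₁, hj₂, hr₁, hr₂⟩
          · exact Or.inl ih
          · have hW' := wd_reach hW hQ1
            have hW'' := wd_rot hW' hQ2
            obtain ⟨v, w, hrot, hvis⟩ := hQ2
            rcases ml_step hO hW.symm hW'.nodup hrot hvis hj₁ oc₁ od₁ with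
              ⟨n₁, hk₁, hs₁⟩ | ⟨hs₁, A₁, b₁, hb₁⟩
            · rcases ml_step hO hW.symm hW'.nodup hrot hvis hj₂ oc₂ od₂ with
                ⟨n₂, hk₂, hs₂⟩ | ⟨hs₂, A₂, b₂, hb₂⟩
              · exact Or.inr ⟨n₁, n₂, hk₁, hk₂, hr₁.trans hs₁, hr₂.trans hs₂⟩
              · left
                have h3 : Reach p O (Q'' ++ [y]) n₁ :=
                  ml_join hO hW''.plane hb₂ hk₁ oc₁ od₁
                exact (hr₁.trans hs₁).trans (reach_symm hp₂ ((hr₂.trans hs₂).trans h3))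
            · rcases ml_step hO hW.symm hW'.nodup hrot hvis hj₂ oc₂ od₂ with
                ⟨n₂, hk₂, hs₂⟩ | ⟨hs₂, A₂, b₂, hb₂⟩
              · left
                have h3 : Reach p O (Q'' ++ [y]) n₂ :=
                  ml_join hO hW''.plane hb₁ hk₂ oc₂ od₂
                exact ((hr₁.trans hs₁).trans h3).trans (reach_symm hp₂ (hr₂.trans hs₂))
              · left
                exact (hr₁.trans hs₁).trans (reach_symm hp₂ (hr₂.trans hs₂))
      rcases key _ hr with h | ⟨m₁', m₂', hj₁, hj₂, hr₁, hr₂⟩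
      · exact Or.inl h
      · have hWe := wd_reach hW hr
        have hm : ∀ a b, EO (A ++ [z]) O a b → EO (A ++ [z]) O' a b :=
          fun a b h1 => h1.imp id (hO a b)
        rcases hg with rfl | hg
        · left
          have hl : LiftP p O g (A ++ [z]) ((A ++ [z]) ++ [g]) :=
            Or.inl ⟨A, z, rfl, rfl, Vis_mono hm hv⟩
          have hpl := lift_plane (Plane_mono hm hWe.plane) hl
          have g₁ : Reach p O ((A ++ [z]) ++ [g]) m₁' :=
            ml_join hO hWe.plane rfl hj₁ oc₁ od₁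
          have g₂ : Reach p O ((A ++ [z]) ++ [g]) m₂' :=
            ml_join hO hWe.plane rfl hj₂ oc₂ od₂
          exact ((hr₁.trans (reach_symm hpl g₁)).trans g₂).trans (reach_symm hp₂ hr₂)
        · right
          obtain ⟨B, hB⟩ := ins_last hj₁
          refine goal_reach hr₁ ⟨B, z, g, ?_, hg, ?_⟩
          · rw [hB]
            exact Relation.ReflTransGen.refl
          · rw [← hB]
            exact Vis_mono (ml_eo hO hW.symm hj₁ oc₁ od₁) hv

end FPW
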