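import Pool.Agent.Lib.MP_deef39_co_PW.NStep

/-! # PW module NonC: an end which is not a pinwheel centre

`l = Q ++ [y]`, `y` has no obstacle, no ghost sees `y` in any reachable path, `y` is not a pinwheel
centre. By contradiction assume `¬ Goal p (Q ++ [y]) G O`.

`Wd p Q G O`: the edges of `Q` are edges of `Q ++ [y]`; obstacles have no end point `y`, so they
live on `Q ∪ G`. By `hIH`: `Goal p Q G O`: `Reach p O Q (A ++ [z])`, `z` sees `g ∈ G` with respect
to `EO (A ++ [z]) O`.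

Invariant for every `Q'` with `Reach p O Q Q'` (induction):
`∃ m, LiftP p O y Q' m ∧ Reach p O (Q ++ [y]) m`. Base: `Q ++ [y]` (`Q = A' ++ [z']`, and `z' y` is an
edge of the plane set `EO (Q ++ [y]) O`, so `z'` sees `y` with respect to `EO Q O`). Step
`Q' → Q''`, lift `m` of `Q'` with `Reach (Q ++ [y]) m`: for `g ∈ G`, `y` does not see `g` with respect
to `EO Q' O`: otherwise `g` sees `y` with respect to `EO m O` (`lift_ed`: the additional edges are
at `y`), contradicting `hgF`. So `nstep` applies to `Q' → Q''` (`T = {x | x ∈ Q ++ [y] ∨ x ∈ G}`,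
`reach_perm`): lifts `m₀` of `Q'`, `m₁` of `Q''`, `Rot m₀ m₁`. `mlem` for the two lifts `m`, `m₀` of
`Q'` (`Wd p Q' G O` by `wd_reach`; `hIH` for `Q'`, same length): `Reach m m₀` (the alternative
`Goal p m G O` contradicts the assumption by `goal_reach`). So
`Reach (Q ++ [y]) m₁`.

End: `Q* = A ++ [z]`, lift `m` of `Q*` with `Reach (Q ++ [y]) m`, as before `y` sees no ghost with
respect to `EO Q* O`. Let `E a b := EO Q* O a b ∨ (a = z ∧ b = g) ∨ (a = g ∧ b = z)`: symmetric,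
plane, on `V = {x | x ∈ Q* ∨ x ∈ G}`, `a ≠ b`. Visible (from `y`, with respect to `E`) vertices lie
in `Q*` and have an edge (`ed_exists`). `nlem`: an edge `c d` of `E` with both ends visible; both
in `Q*`, so it is not an obstacle (`gh`) and not `z g`: `Ed Q* c d`. Its insertion `m'`
(`ins_exists`) is a lift of `Q*`, `Reach m m'` by `mlem` as before, so `Reach (Q ++ [y]) m'`, and
`m' = B ++ [z]` (`ins_last`). `z` sees `g` with respect to `EO m' O`: by `ins_ed` the edges are edges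
of `EO Q* O`, or `y c`, `y d`, which do not cross `z g` (`y` sees `c, d` with respect to
`E`). So `Goal p (Q ++ [y]) G O`: contradiction.
-/

set_option autoImplicit false

namespace FPW

variable {α : Type*} {p : α → ℝ × ℝ}

theorem nonC [Finite α] (hgp : GP p) {G : Set α} {O : α → α → Prop} {y : α} {Q : List α}
    (hw : Wd p (Q ++ [y]) G O) (hG : G.Nonempty) (hlen : 2 ≤ Q.length)
    (hC : ¬ Centre p {x | x ∈ Q ++ [y] ∨ x ∈ G} y)
    (hIH : ∀ (l' : List α) (G' : Set α) (O' : α → α → Prop), Wd p l' G' O' → G'.Nonempty →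
      l'.length = Q.length → Goal p l' G' O')
    (hgF : ∀ m, Reach p O (Q ++ [y]) m → ∀ g ∈ G, ¬ Vis p (EO m O) g y)
    (hOy : ∀ b, ¬ O y b) : Goal p (Q ++ [y]) G O := by
  by_contra hfail
  have hnd : (Q ++ [y]).Nodup := hw.nodup
  have hyQ : y ∉ Q := by
    intro h
    exact (List.disjoint_of_nodup_append hnd) h (by simp)
  have hyG : y ∉ G := hw.disj y (by simp)
  have hQne : Q ≠ [] := by
    rintro rfl
    simp at hlen
  obtain ⟨A', z', hQ⟩ : ∃ A' z', Q = A' ++ [z'] := by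
    rcases List.eq_nil_or_concat Q with h | ⟨A', z', h⟩
    · exact absurd h hQne
    · exact ⟨A', z', by simpa using h⟩
  have hEdQ : ∀ a b, Ed Q a b → Ed (Q ++ [y]) a b := by
    intro a b h
    rw [hQ] at h ⊢
    exact ed_snoc.2 (Or.inl h)
  have hEOQ : ∀ a b, EO Q O a b → EO (Q ++ [y]) O a b := by
    intro a b h
    exact h.imp (hEdQ a b) id
  have hwQ : Wd p Q G O := by
    refine ⟨(List.nodup_append.1 hnd).1, hQne, ?_, hw.symm, hw.gh, ?_, hw.irr,
      Plane_mono hEOQ hw.plane⟩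
    · intro x hx
      exact hw.disj x (by simp [hx])
    · intro a b hab
      rcases hw.mem a b hab with h | h
      · rcases List.mem_append.1 h with h | h
        · exact Or.inl h
        · rw [List.mem_singleton] at h
          subst h
          exact absurd hab (hOy b)
      · exact Or.inr h
  have hgv : ∀ (Q' m : List α), LiftP p O y Q' m → Reach p O (Q ++ [y]) m → ∀ g ∈ G,
      ¬ Vis p (EO Q' O) y g := by
    intro Q' m hl hrm g hg hv
    refine hgF m hrm g hg ?_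
    rintro c d (hcd | hcd) hX
    · rcases lift_ed hl hcd with h | ⟨h, _, _⟩ | ⟨h, _, _⟩
      · exact hv c d (Or.inl h) (X_sw1.1 hX)
      · subst h
        exact not_X_of_eq3 hX
      · subst h
        exact not_X_of_eq4 hX
    · exact hv c d (Or.inr hcd) (X_sw1.1 hX)
  have hIH' : ∀ Q', Reach p O Q Q' → ∀ (G' : Set α) (O' : α → α → Prop), Wd p Q' G' O' →
      G'.Nonempty → Goal p Q' G' O' := by
    intro Q' hr G' O' h1 h2
    exact hIH Q' G' O' h1 h2 (reach_perm hr).length_eq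
  have hyQ' : ∀ Q', Reach p O Q Q' → y ∉ Q' := by
    intro Q' hr h
    exact hyQ ((reach_perm hr).mem_iff.1 h)
  have hT : ∀ Q', Reach p O Q Q' → ∀ x, x ∈ Q' ∨ x ∈ G →
      x ∈ ({x | x ∈ Q ++ [y] ∨ x ∈ G} : Set α) := by
    intro Q' hr x hx
    rcases hx with hx | hx
    · exact Or.inl (List.mem_append.2 (Or.inl ((reach_perm hr).mem_iff.1 hx)))
    · exact Or.inr hx
  have hml : ∀ Q' m m', Reach p O Q Q' → LiftP p O y Q' m → Reach p O (Q ++ [y]) m →
      LiftP p O y Q' m' → Reach p O (Q ++ [y]) m' := by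
    intro Q' m m' hr hl hrm hl'
    rcases mlem (wd_reach hwQ hr) (hyQ' Q' hr) hyG (hIH' Q' hr) hl hl' with h | h
    · exact hrm.trans h
    · exact absurd (goal_reach hrm h) hfail
  have inv : ∀ Q', Reach p O Q Q' → ∃ m, LiftP p O y Q' m ∧ Reach p O (Q ++ [y]) m := by
    intro Q' hr
    induction hr with
    | refl =>
      refine ⟨Q ++ [y], Or.inl ⟨A', z', hQ, rfl, ?_⟩, Relation.ReflTransGen.refl⟩
      refine Vis_mono hEOQ (Vis_of_edge hw.plane (Or.inl ?_))
      rw [hQ]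
      exact ed_snoc.2 (Or.inr (Or.inl ⟨rfl, rfl⟩))
    | tail h1 h2 ih =>
      rename_i Q₁ Q₂
      obtain ⟨m, hl, hrm⟩ := ih
      have hlen' : 2 ≤ Q₁.length := by
        rw [(reach_perm h1).length_eq]
        exact hlen
      obtain ⟨m₀, m₁, hl0, hl1, hrot⟩ := nstep hgp (wd_reach hwQ h1) (hyQ' Q₁ h1) hyG hlen'
        (hgv Q₁ m hl hrm) (hT Q₁ h1) hC h2
      exact ⟨m₁, hl1, (hml Q₁ m m₀ h1 hl hrm hl0).tail hrot⟩
  obtain ⟨A, z, g, hr, hg, hv⟩ := hIH Q G O hwQ hG rfl
  obtain ⟨m, hl, hrm⟩ := inv _ hr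
  have hwS : Wd p (A ++ [z]) G O := wd_reach hwQ hr
  have hgvS := hgv _ m hl hrm
  have hyS := hyQ' _ hr
  have hlenS : 2 ≤ (A ++ [z]).length := by
    rw [(reach_perm hr).length_eq]
    exact hlen
  have hzS : z ∈ A ++ [z] := by simp
  have hzg : z ≠ g := by
    rintro rfl
    exact hwS.disj z hzS hg
  let E : α → α → Prop := fun a b => EO (A ++ [z]) O a b ∨ (a = z ∧ b = g) ∨ (a = g ∧ b = z)
  have hEO : ∀ a b, EO (A ++ [z]) O a b → E a b := fun a b h => Or.inl h
  have hsym : ∀ a b, EO (A ++ [z]) O a b → EO (A ++ [z]) O b a := by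
    rintro a b (h | h)
    · exact Or.inl (ed_symm h)
    · exact Or.inr (hwS.symm a b h)
  have hs : ∀ a b, E a b → E b a := by
    rintro a b (h | ⟨h1, h2⟩ | ⟨h1, h2⟩)
    · exact Or.inl (hsym a b h)
    · exact Or.inr (Or.inr ⟨h2, h1⟩)
    · exact Or.inr (Or.inl ⟨h2, h1⟩)
  have hp : Plane p E := by
    rintro a b c d (h | ⟨h1, h2⟩ | ⟨h1, h2⟩) (h' | ⟨h3, h4⟩ | ⟨h3, h4⟩) hX
    · exact hwS.plane a b c d h h' hX
    · subst h3 h4
      exact hv a b h (X_comm.1 hX)
    · subst h3 h4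
      exact hv a b h (X_sw1.1 (X_comm.1 hX))
    · subst h1 h2
      exact hv c d h' hX
    · subst h1 h2 h3
      exact not_X_of_eq1 hX
    · subst h1 h2 h4
      exact not_X_of_eq2 hX
    · subst h1 h2
      exact hv c d h' (X_sw1.1 hX)
    · subst h1 h2 h3
      exact not_X_of_eq3 hX
    · subst h1 h2 h3
      exact not_X_of_eq1 hX
  have hE : ∀ a b, E a b → a ∈ ({x | x ∈ A ++ [z] ∨ x ∈ G} : Set α) ∧ a ≠ b := by
    rintro a b ((h | h) | ⟨h1, h2⟩ | ⟨h1, h2⟩)
    · exact ⟨Or.inl (ed_mem h), ed_ne hwS.nodup h⟩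
    · exact ⟨hwS.mem a b h, hwS.irr a b h⟩
    · subst h1 h2
      exact ⟨Or.inl hzS, hzg⟩
    · subst h1 h2
      exact ⟨Or.inr hg, hzg.symm⟩
  have hinc : ∀ u ∈ ({x | x ∈ A ++ [z] ∨ x ∈ G} : Set α), Vis p E y u → ∃ w, E u w := by
    rintro u (hu | hu) hvu
    · obtain ⟨w, hw'⟩ := ed_exists hu hlenS
      exact ⟨w, Or.inl (Or.inl hw')⟩
    · exact absurd (Vis_mono hEO hvu) (hgvS u hu)
  have hCV : ¬ Centre p ({x | x ∈ A ++ [z] ∨ x ∈ G} : Set α) y := fun h =>
    hC (Centre_mono (fun x hx => hT _ hr x hx) h)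
  have hyV : y ∉ ({x | x ∈ A ++ [z] ∨ x ∈ G} : Set α) := by
    rintro (h | h)
    · exact hyS h
    · exact hyG h
  obtain ⟨c, d, hcd, hvc, hvd⟩ := nlem hgp ⟨z, Or.inl hzS⟩ hyV hs hp hE hinc hCV
  have hcG : c ∉ G := fun h => hgvS c h (Vis_mono hEO hvc)
  have hdG : d ∉ G := fun h => hgvS d h (Vis_mono hEO hvd)
  have hed : Ed (A ++ [z]) c d := by
    rcases hcd with (h | h) | ⟨h1, h2⟩ | ⟨h1, h2⟩
    · exact h
    · rcases hwS.gh c d h with h | h
      · exact absurd h hcG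
      · exact absurd h hdG
    · exact absurd (h2 ▸ hg) hdG
    · exact absurd (h1 ▸ hg) hcG
  obtain ⟨m', hi⟩ := ins_exists y hed
  have hl' : LiftP p O y (A ++ [z]) m' :=
    Or.inr ⟨c, d, hi, Vis_mono hEO hvc, Vis_mono hEO hvd⟩
  have hrm' := hml _ m m' hr hl hrm hl'
  obtain ⟨B, hB⟩ := ins_last hi
  have hEzg : E z g := Or.inr (Or.inl ⟨rfl, rfl⟩)
  have hvz : Vis p (EO m' O) z g := by
    rintro a b (hab | hab) hX
    · rcases ins_ed hi hab with h | ⟨h1, h2⟩ | ⟨h1, h2⟩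
      · exact hv a b (Or.inl h) hX
      · subst h1
        rcases h2 with h2 | h2
        · subst h2
          exact hvc z g hEzg (X_comm.1 hX)
        · subst h2
          exact hvd z g hEzg (X_comm.1 hX)
      · subst h1
        rcases h2 with h2 | h2
        · subst h2
          exact hvc z g hEzg (X_comm.1 (X_sw2.1 hX))
        · subst h2
          exact hvd z g hEzg (X_comm.1 (X_sw2.1 hX))
    · exact hv a b (Or.inr hab) hX
  rw [hB] at hrm' hvz
  exact hfail ⟨B, z, g, hrm', hg, hvz⟩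

end FPW
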