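import Pool.Agent.Lib.MP_deef39_co_PW.NonC
import Pool.Agent.Lib.MP_deef39_co_PW.GhostF
import Pool.Agent.Lib.MP_deef39_co_PW.Ends3

/-! # PW module TG: some reachable end sees a ghost

Strong induction on `(l.length, Fc l O)` (lexicographic; e.g. strong induction on the length `n`
and inside on `m = Fc l O`). Assume `¬ Goal p l G O`. Length `1`, `2`: `goal_one`, `goal_two`.
Length `≥ 3`: let `A ++ [z]` be reachable from `l`. `¬ Goal p (A ++ [z]) G O` (`goal_reach`),
`Wd p (A ++ [z]) G O` (`wd_reach`), `Fc (A ++ [z]) O = Fc l O` (`fc_reach`), the length is the same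
(`reach_perm`). `z` sees no ghost (else `Goal` by definition). `z` has no obstacle: `O z b` implies
`b ∈ G` (`gh`, `disj`) and `z` sees `b` (`Vis_of_edge`): contradiction. Suppose `z` is not a pinwheel
centre of `{x | x ∈ A ++ [z] ∨ x ∈ G}`: `nonC` for `A ++ [z]` gives `Goal`: contradiction; its
hypotheses: `hIH` from the induction on the length (`A.length < l.length`); `hgF`: `ghostF` (for
`l := A ++ [z]`, `hIH` from the induction on `Fc`), where for `m` reachable from `A ++ [z]` the
vertex `z` is in `m.tail` (`reach_head`, `reach_perm`: the head is the head of `A`, `A ≠ []`, and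
it is `≠ z`). So `z` is a centre, and in `Z` by `hcen` and `Centre_mono`. Now `ends_three`
(`{x | x ∈ A ++ [z] ∨ x ∈ G} = {x | x ∈ l ∨ x ∈ G}`).
-/

set_option autoImplicit false

namespace FPW

variable {α : Type*} {p : α → ℝ × ℝ}

theorem tg [Finite α] (hgp : GP p) (Z : Finset α) (hZ : Z.card ≤ 3)
    (hcen : ∀ y, Centre p Set.univ y → y ∈ Z) {l : List α} {G : Set α} {O : α → α → Prop}
    (hw : Wd p l G O) (hG : G.Nonempty) : Goal p l G O := by
  have key : ∀ n m : ℕ, ∀ (l : List α) (G : Set α) (O : α → α → Prop), l.length = n →
      Fc l O = m → Wd p l G O → G.Nonempty → Goal p l G O := by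
    intro n
    induction n using Nat.strong_induction_on with
    | _ n ihn =>
    intro m
    induction m using Nat.strong_induction_on with
    | _ m ihm =>
    intro l G O hn hm hw hG
    by_contra hfail
    have hlen : 3 ≤ l.length := by
      rcases l with _ | ⟨x, _ | ⟨z, _ | ⟨w, l⟩⟩⟩
      · exact absurd rfl hw.ne
      · exact absurd (goal_one hgp hw hG) hfail
      · exact absurd (goal_two hgp hw hG) hfail
      · simp only [List.length_cons]; omega
    refine ends_three hgp hw hlen Z hZ (fun A z hr g hg hv => hfail ⟨A, z, g, hr, hg, hv⟩) ?_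
    intro A z hr
    have hw' := wd_reach hw hr
    have hf' : ¬ Goal p (A ++ [z]) G O := fun h => hfail (goal_reach hr h)
    have hlen' : (A ++ [z]).length = l.length := (reach_perm hr).length_eq
    have hA1 : A.length + 1 = l.length := by
      rw [← hlen']; simp
    have hOz : ∀ b, ¬ O z b := by
      intro b hb
      have hzG : z ∉ G := hw'.disj z (by simp)
      have hbG : b ∈ G := (hw'.gh z b hb).resolve_left hzG
      exact hf' ⟨A, z, b, Relation.ReflTransGen.refl, hbG,
        Vis_of_edge hw'.plane (Or.inr hb)⟩
    have hC : Centre p {x | x ∈ A ++ [z] ∨ x ∈ G} z := by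
      by_contra hC
      apply hf'
      refine nonC hgp hw' hG (by omega) hC ?_ ?_ hOz
      · intro l' G' O' hw1 hG1 hl1
        exact ihn l'.length (by omega) _ l' G' O' rfl rfl hw1 hG1
      · intro m' hm' g hg
        refine ghostF hw' (fun l' O' h1 h2 h3 => ?_) hf' hm' ?_ hOz hg
        · refine ihm (Fc l' O') ?_ l' G O' ((h2.trans hlen').trans hn) rfl h1 hG
          rw [← hm, ← fc_reach hr]
          exact h3
        · have h4 : z ∈ m' := (reach_perm hm').mem_iff.2 (by simp)
          have h5 := reach_head hm'
          cases A with
          | nil => simp only [List.length_nil] at hA1; omega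
          | cons a A =>
            cases m' with
            | nil => exact absurd h4 List.not_mem_nil
            | cons b m' =>
              have h6 : b = a := by simpa using h5
              rcases List.mem_cons.1 h4 with h7 | h7
              · exfalso
                have h8 := hw'.nodup
                rw [List.cons_append, List.nodup_cons] at h8
                exact h8.1 (by rw [← h6, ← h7]; simp)
              · exact h7
    refine ⟨hcen z (Centre_mono (Set.subset_univ _) hC), ?_⟩
    have h9 : {x | x ∈ A ++ [z] ∨ x ∈ G} = {x | x ∈ l ∨ x ∈ G} := by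
      ext x
      simp only [Set.mem_ofPred_eq, (reach_perm hr).mem_iff]
    rw [← h9]
    exact hC
  exact key _ _ l G O rfl rfl hw hG

end FPW
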